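import Mathlib

set_option autoImplicit false

open scoped ENNReal

namespace Pool.Agent.Work.MP_0403fc_an_explicit

variable {𝕜 : Type*} [RCLike 𝕜] {p : ℝ≥0∞}

lemma shift_sum_bound (P : ℝ) (hP : 0 ≤ P) (w x : ℕ → 𝕜) (C : ℝ) (hC : ∀ n, ‖w n‖ ≤ C)
    (hx : Summable fun k => ‖x k‖ ^ P) :
    (Summable fun k => ‖w (k + 1) * x (k + 1)‖ ^ P) ∧
      ∑' k, ‖w (k + 1) * x (k + 1)‖ ^ P ≤ C ^ P * ∑' k, ‖x k‖ ^ P := by
  have hC0 : 0 ≤ C := (norm_nonneg _).trans (hC 0)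
  have hle : ∀ k, ‖w (k + 1) * x (k + 1)‖ ^ P ≤ C ^ P * ‖x (k + 1)‖ ^ P := by
    intro k
    rw [norm_mul, ← Real.mul_rpow hC0 (norm_nonneg _)]
    exact Real.rpow_le_rpow (by positivity)
      (mul_le_mul_of_nonneg_right (hC _) (norm_nonneg _)) hP
  have h1 : Summable fun k => C ^ P * ‖x (k + 1)‖ ^ P :=
    ((summable_nat_add_iff 1).2 hx).mul_left _
  have h2 : Summable fun k => ‖w (k + 1) * x (k + 1)‖ ^ P :=
    Summable.of_nonneg_of_le (fun k => by positivity) hle h1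
  refine ⟨h2, (h2.tsum_le_tsum hle h1).trans ?_⟩
  rw [tsum_mul_left]
  apply mul_le_mul_of_nonneg_left _ (by positivity)
  have h3 := hx.sum_add_tsum_nat_add 1
  rw [← h3]
  have : 0 ≤ ∑ i ∈ Finset.range 1, ‖x i‖ ^ P := Finset.sum_nonneg fun i _ => by positivity
  linarith

lemma shift_mem [Fact (1 ≤ p)] (hp : p ≠ ∞) (w : ℕ → 𝕜) (hw : ∃ C : ℝ, ∀ n, ‖w n‖ ≤ C)
    (x : lp (fun _ : ℕ => 𝕜) p) : Memℓp (fun k => w (k + 1) * x (k + 1)) p := by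
  have hP : 0 < p.toReal := ENNReal.toReal_pos
    (fun h => absurd (Fact.out : 1 ≤ p) (by rw [h]; norm_num)) hp
  obtain ⟨C, hC⟩ := hw
  exact (memℓp_gen_iff hP).2
    (shift_sum_bound p.toReal hP.le w x C hC ((memℓp_gen_iff hP).1 (lp.memℓp x))).1

end Pool.Agent.Work.MP_0403fc_an_explicit
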