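import Mathlib
import Pool.Agent.Work.MP_0403fc_an_explicit.ShiftBound

set_option autoImplicit false

open Filter
open scoped ENNReal

namespace Pool.Agent.Work.MP_0403fc_an_explicit

/-- The lower density `liminf_{N → ∞} |A ∩ {1, …, N}| / N` of a set of natural numbers. -/
noncomputable def lowerDensity (A : Set ℕ) : ℝ :=
  liminf (fun N : ℕ => (Set.ncard (A ∩ Set.Icc 1 N) : ℝ) / N) atTop

/-- The set of frequently hypercyclic vectors of `T`. -/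
def FHC {X : Type*} [TopologicalSpace X] (T : X → X) : Set X :=
  {x | ∀ U : Set X, IsOpen U → U.Nonempty → 0 < lowerDensity {n : ℕ | T^[n] x ∈ U}}

/-- `T` has a frequently hypercyclic subspace: a closed infinite-dimensional subspace `M` with
`M \ {0} ⊆ FHC T`. -/
def HasFHSubspace (𝕜 : Type*) [RCLike 𝕜] {X : Type*} [NormedAddCommGroup X] [NormedSpace 𝕜 X]
    (T : X → X) : Prop :=
  ∃ M : Submodule 𝕜 X, IsClosed (M : Set X) ∧ ¬ FiniteDimensional 𝕜 M ∧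
    ∀ x ∈ M, x ≠ 0 → x ∈ FHC T

variable {𝕜 : Type*} [RCLike 𝕜] {p : ℝ≥0∞}

/-- The weighted backward shift `(B_w x)_k = w_{k+1} x_{k+1}` on `ℓ^p`, `1 ≤ p < ∞`, for a
bounded sequence `w` (coordinates are indexed from `0`, and the weight `w 0` plays no role). -/
def weightedShift [Fact (1 ≤ p)] (hp : p ≠ ∞) (w : ℕ → 𝕜) (hw : ∃ C : ℝ, ∀ n, ‖w n‖ ≤ C)
    (x : lp (fun _ : ℕ => 𝕜) p) : lp (fun _ : ℕ => 𝕜) p :=
  ⟨fun k => w (k + 1) * x (k + 1), shift_mem hp w hw x⟩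

/-- The products `W_n = w_1 w_2 ⋯ w_n` (`W_0 = 1`). -/
def wprod (w : ℕ → 𝕜) (n : ℕ) : 𝕜 := ∏ i ∈ Finset.range n, w (i + 1)

/-- `level W δ k` is the supremum of the numbers `t ∈ [0, 1]` such that, for some `m` with
`2 ^ k ≤ m < 2 ^ (k + 1)`, at least `δ m` of the indices `j < m` satisfy `t |W_m| ≤ |W_j|`. -/
noncomputable def level (W : ℕ → 𝕜) (δ : ℝ) (k : ℕ) : ℝ :=
  sSup {t : ℝ | 0 ≤ t ∧ t ≤ 1 ∧ ∃ m : ℕ, 2 ^ k ≤ m ∧ m < 2 ^ (k + 1) ∧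
    δ * m ≤ Set.ncard {j : ℕ | j < m ∧ t * ‖W m‖ ≤ ‖W j‖}}

end Pool.Agent.Work.MP_0403fc_an_explicit
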