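import Mathlib
import Pool.Agent.Work.MP_0403fc_an_explicit.Statement

set_option autoImplicit false

open Filter Topology
open scoped ENNReal

namespace Pool.Agent.Work.MP_0403fc_an_explicit

section General

variable {𝕜 X : Type*} [RCLike 𝕜] [NormedAddCommGroup X] [NormedSpace 𝕜 X]

/-- The set of frequently hypercyclic vectors of the operator `T`. -/
def FHCop (T : X →L[𝕜] X) : Set X :=
  {x | ∀ U : Set X, IsOpen U → U.Nonempty → 0 < lowerDensity {n : ℕ | (T ^ n) x ∈ U}}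

/-- operator version of `HasFHSubspace` -/
def HasFHSop (T : X →L[𝕜] X) : Prop :=
  ∃ M : Submodule 𝕜 X, IsClosed (M : Set X) ∧ ¬ FiniteDimensional 𝕜 M ∧
    ∀ x ∈ M, x ≠ 0 → x ∈ FHCop T

end General

section Shift

variable {𝕜 : Type*} [RCLike 𝕜] {p : ℝ≥0∞}

/-- The weighted backward shift `(B_w x)_k = w_{k+1} x_{k+1}` as a continuous linear map. -/
noncomputable def shiftOp [Fact (1 ≤ p)] (hp : p ≠ ∞) (w : ℕ → 𝕜)
    (hw : ∃ C : ℝ, ∀ n, ‖w n‖ ≤ C) :
    lp (fun _ : ℕ => 𝕜) p →L[𝕜] lp (fun _ : ℕ => 𝕜) p :=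
  have hP : 0 < p.toReal := ENNReal.toReal_pos
    (fun h => absurd (Fact.out : 1 ≤ p) (by rw [h]; norm_num)) hp
  LinearMap.mkContinuousOfExistsBound
    { toFun := weightedShift hp w hw
      map_add' := fun x y => by
        ext k
        show w (k + 1) * (x (k + 1) + y (k + 1)) =
          w (k + 1) * x (k + 1) + w (k + 1) * y (k + 1)
        ring
      map_smul' := fun c x => by
        ext k
        show w (k + 1) * (c * x (k + 1)) = c * (w (k + 1) * x (k + 1))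
        ring }
    (by
      obtain ⟨C, hC⟩ := hw
      have hC0 : 0 ≤ C := (norm_nonneg _).trans (hC 0)
      refine ⟨C, fun x => ?_⟩
      apply lp.norm_le_of_tsum_le hP (by positivity)
      rw [Real.mul_rpow hC0 (norm_nonneg _), lp.norm_rpow_eq_tsum hP x]
      exact (shift_sum_bound p.toReal hP.le w x C hC ((memℓp_gen_iff hP).1 (lp.memℓp x))).2)

@[simp] lemma shiftOp_apply [Fact (1 ≤ p)] (hp : p ≠ ∞) (w : ℕ → 𝕜)
    (hw : ∃ C : ℝ, ∀ n, ‖w n‖ ≤ C) (x : lp (fun _ : ℕ => 𝕜) p) (k : ℕ) :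
    shiftOp hp w hw x k = w (k + 1) * x (k + 1) := rfl

lemma shiftOp_coe [Fact (1 ≤ p)] (hp : p ≠ ∞) (w : ℕ → 𝕜)
    (hw : ∃ C : ℝ, ∀ n, ‖w n‖ ≤ C) : ⇑(shiftOp hp w hw) = weightedShift hp w hw := rfl

lemma hasFHSubspace_iff [Fact (1 ≤ p)] (hp : p ≠ ∞) (w : ℕ → 𝕜)
    (hw : ∃ C : ℝ, ∀ n, ‖w n‖ ≤ C) :
    HasFHSubspace 𝕜 (weightedShift hp w hw) ↔ HasFHSop (shiftOp hp w hw) := by
  have h1 : FHC (weightedShift hp w hw) = FHCop (shiftOp hp w hw) := by
    unfold FHC FHCop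
    ext x
    have h2 : ∀ n : ℕ, ((shiftOp hp w hw) ^ n) x = (weightedShift hp w hw)^[n] x := by
      intro n
      rw [← shiftOp_coe, ContinuousLinearMap.coe_pow']
    simp only [Set.mem_ofPred_eq, h2]
  unfold HasFHSubspace HasFHSop
  rw [h1]

end Shift

end Pool.Agent.Work.MP_0403fc_an_explicit
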