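import Mathlib
import Pool.Agent.Work.MP_0403fc_an_explicit.Defs

set_option autoImplicit false

open Filter Topology
open scoped ENNReal

namespace Pool.Agent.Work.MP_0403fc_an_explicit

variable {𝕜 : Type*} [RCLike 𝕜] {p : ℝ≥0∞}

lemma wprod_ne_zero {w : ℕ → 𝕜} (hw0 : ∀ n, w n ≠ 0) (n : ℕ) : wprod w n ≠ 0 :=
  Finset.prod_ne_zero_iff.2 fun i _ => hw0 _

lemma wprod_succ (w : ℕ → 𝕜) (n : ℕ) : wprod w (n + 1) = wprod w n * w (n + 1) :=
  Finset.prod_range_succ _ _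

lemma wprod_zero (w : ℕ → 𝕜) : wprod w 0 = 1 := by simp [wprod]

lemma pow_apply [Fact (1 ≤ p)] (hp : p ≠ ∞) {w : ℕ → 𝕜} (hw0 : ∀ n, w n ≠ 0)
    (hw : ∃ C : ℝ, ∀ n, ‖w n‖ ≤ C) (n : ℕ) :
    ∀ (x : lp (fun _ : ℕ => 𝕜) p) (k : ℕ),
      ((shiftOp hp w hw) ^ n) x k = wprod w (k + n) / wprod w k * x (k + n) := by
  induction n with
  | zero =>
    intro x k
    rw [pow_zero, add_zero, div_self (wprod_ne_zero hw0 k), one_mul]
    rfl
  | succ n ih =>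
    intro x k
    rw [pow_succ]
    show ((shiftOp hp w hw) ^ n) ((shiftOp hp w hw) x) k = _
    rw [ih, shiftOp_apply, ← add_assoc k n 1, wprod_succ]
    ring

/-- `ℓ^P` energy of a sequence -/
noncomputable def En (P : ℝ) (x : ℕ → 𝕜) : ℝ≥0∞ := ∑' k, ENNReal.ofReal (‖x k‖ ^ P)

lemma toReal_pos' [Fact (1 ≤ p)] (hp : p ≠ ∞) : 0 < p.toReal := ENNReal.toReal_pos
    (fun h => absurd (Fact.out : 1 ≤ p) (by rw [h]; norm_num)) hp

lemma one_le_toReal' [Fact (1 ≤ p)] (hp : p ≠ ∞) : 1 ≤ p.toReal := by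
  have := (ENNReal.toReal_le_toReal (by norm_num) hp).2 (Fact.out : 1 ≤ p)
  simpa using this

lemma En_lp [Fact (1 ≤ p)] (hp : p ≠ ∞) (x : lp (fun _ : ℕ => 𝕜) p) :
    En p.toReal (x : ℕ → 𝕜) = ENNReal.ofReal (‖x‖ ^ p.toReal) := by
  unfold En
  have hP := toReal_pos' hp
  rw [lp.norm_rpow_eq_tsum hP, ENNReal.ofReal_tsum_of_nonneg (fun n => by positivity)
    ((memℓp_gen_iff hP).1 (lp.memℓp x))]

lemma memℓp_of_En [Fact (1 ≤ p)] (hp : p ≠ ∞) {x : ℕ → 𝕜} (h : En p.toReal x ≠ ∞) :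
    Memℓp x p := by
  have hP := toReal_pos' hp
  rw [memℓp_gen_iff hP]
  have := ENNReal.summable_toReal h
  refine this.congr fun k => ?_
  rw [ENNReal.toReal_ofReal (by positivity)]

lemma norm_le_of_En [Fact (1 ≤ p)] (hp : p ≠ ∞) (x : lp (fun _ : ℕ => 𝕜) p) {r : ℝ}
    (hr : 0 ≤ r) (h : En p.toReal (x : ℕ → 𝕜) ≤ ENNReal.ofReal (r ^ p.toReal)) : ‖x‖ ≤ r := by
  have hP := toReal_pos' hp
  rw [En_lp hp, ENNReal.ofReal_le_ofReal_iff (by positivity)] at h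
  exact (Real.rpow_le_rpow_iff (norm_nonneg _) hr hP).1 h

lemma fiber_le (β : ℕ → ℕ) (f A : ℕ → ℝ≥0∞) (S : ℝ≥0∞)
    (hS : ∀ b, ∑' m, (if β m = b then f m else 0) ≤ S) :
    ∑' m, f m * A (β m) ≤ S * ∑' b, A b := by
  have h1 : ∀ m, f m * A (β m) = ∑' b, (if β m = b then f m else 0) * A b := by
    intro m
    rw [tsum_eq_single (β m)]
    · rw [if_pos rfl]
    · intro b hb
      rw [if_neg (Ne.symm hb), zero_mul]
  simp_rw [h1]
  rw [ENNReal.tsum_comm, ← ENNReal.tsum_mul_left]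
  apply ENNReal.tsum_le_tsum
  intro b
  rw [ENNReal.tsum_mul_right]
  gcongr
  exact hS b

lemma fiber_eq (β : ℕ → ℕ) (f A : ℕ → ℝ≥0∞)
    (hS : ∀ b, ∑' m, (if β m = b then f m else 0) = 1) :
    ∑' m, f m * A (β m) = ∑' b, A b := by
  have h1 : ∀ m, f m * A (β m) = ∑' b, (if β m = b then f m else 0) * A b := by
    intro m
    rw [tsum_eq_single (β m)]
    · rw [if_pos rfl]
    · intro b hb
      rw [if_neg (Ne.symm hb), zero_mul]
  simp_rw [h1]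
  rw [ENNReal.tsum_comm]
  congr 1
  ext b
  rw [ENNReal.tsum_mul_right, hS b, one_mul]

end Pool.Agent.Work.MP_0403fc_an_explicit
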