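import Mathlib
import Pool.Agent.Work.MP_0403fc_an_explicit.Shift

set_option autoImplicit false

open Filter Topology
open scoped ENNReal

namespace Pool.Agent.Work.MP_0403fc_an_explicit

variable {𝕜 : Type*} [RCLike 𝕜] {p : ℝ≥0∞}

/-- finitely supported vector attached to a list of indices -/
noncomputable def tgt (𝕜 : Type*) [RCLike 𝕜] (p : ℝ≥0∞) [Fact (1 ≤ p)] (L : List ℕ) :
    lp (fun _ : ℕ => 𝕜) p :=
  ∑ i ∈ Finset.range L.length,
    lp.single p i (TopologicalSpace.denseSeq 𝕜 (L.getD i 0))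

lemma tgt_apply [Fact (1 ≤ p)] (L : List ℕ) (s : ℕ) (hs : L.length ≤ s) :
    tgt 𝕜 p L s = 0 := by
  unfold tgt
  rw [lp.coeFn_sum, Finset.sum_apply]
  apply Finset.sum_eq_zero
  intro i hi
  rw [Finset.mem_range] at hi
  rw [lp.single_apply, Pi.single_eq_of_ne]
  omega

lemma exists_tgt_mem [Fact (1 ≤ p)] (hp : p ≠ ∞) (V : Set (lp (fun _ : ℕ => 𝕜) p))
    (hV : IsOpen V) (hne : V.Nonempty) : ∃ L : List ℕ, tgt 𝕜 p L ∈ V := by
  obtain ⟨y, hy⟩ := hne
  obtain ⟨ε, hε, hball⟩ := Metric.isOpen_iff.1 hV y hy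
  have h1 := (lp.hasSum_single hp y).tendsto_sum_nat
  rw [Metric.tendsto_atTop] at h1
  obtain ⟨N, hN⟩ := h1 (ε / 2) (by positivity)
  have hN' := hN N le_rfl
  have hd : ∀ i, ∃ q : ℕ, dist (y i) (TopologicalSpace.denseSeq 𝕜 q) < ε / (2 * (N + 1)) := by
    intro i
    have := (TopologicalSpace.denseRange_denseSeq 𝕜).exists_dist_lt (y i)
      (show 0 < ε / (2 * ((N : ℝ) + 1)) by positivity)
    exact this
  choose q hq using hd
  refine ⟨(List.range N).map q, hball ?_⟩
  rw [Metric.mem_ball]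
  have hlen : ((List.range N).map q).length = N := by simp
  have h2 : dist (tgt 𝕜 p ((List.range N).map q))
      (∑ i ∈ Finset.range N, lp.single p i (y i)) ≤ ε / 2 := by
    unfold tgt
    rw [hlen, dist_eq_norm, ← Finset.sum_sub_distrib]
    refine (norm_sum_le _ _).trans ?_
    have h3 : ∀ i ∈ Finset.range N,
        ‖(lp.single p i (TopologicalSpace.denseSeq 𝕜 (((List.range N).map q).getD i 0)) :
          lp (fun _ : ℕ => 𝕜) p) - lp.single p i (y i)‖ ≤ ε / (2 * (N + 1)) := by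
      intro i hi
      rw [Finset.mem_range] at hi
      have h4 : ((List.range N).map q).getD i 0 = q i := by
        simp [List.getD, hi]
      rw [h4, ← lp.single_sub, lp.norm_single (lt_of_lt_of_le one_pos (Fact.out : 1 ≤ p)),
        ← dist_eq_norm, dist_comm]
      exact (hq i).le
    refine (Finset.sum_le_sum h3).trans ?_
    rw [Finset.sum_const, Finset.card_range, nsmul_eq_mul]
    rw [mul_div_assoc', div_le_div_iff₀ (by positivity) (by positivity)]
    nlinarith
  calc dist (tgt 𝕜 p ((List.range N).map q)) y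
      ≤ dist (tgt 𝕜 p ((List.range N).map q)) (∑ i ∈ Finset.range N, lp.single p i (y i))
        + dist (∑ i ∈ Finset.range N, lp.single p i (y i)) y := dist_triangle _ _ _
    _ < ε / 2 + ε / 2 := add_lt_add_of_le_of_lt h2 hN'
    _ = ε := by ring

theorem exists_targets [Fact (1 ≤ p)] (hp : p ≠ ∞) :
    ∃ (lab : ℕ → ℕ) (d : ℕ → lp (fun _ : ℕ => 𝕜) p),
      (∀ k, ∃ N, ∀ s, N ≤ s → d k s = 0) ∧
      ∀ (b K : ℕ) (V : Set (lp (fun _ : ℕ => 𝕜) p)), IsOpen V → V.Nonempty →
        ∃ k, K ≤ k ∧ lab k = b ∧ d k ∈ V := by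
  let e : ℕ ≃ ℕ × List ℕ × ℕ := (Denumerable.eqv (ℕ × List ℕ × ℕ)).symm
  refine ⟨fun k => (e k).1, fun k => tgt 𝕜 p (e k).2.1, fun k => ⟨_, fun s hs =>
    tgt_apply _ s hs⟩, ?_⟩
  intro b K V hV hne
  obtain ⟨L, hL⟩ := exists_tgt_mem hp V hV hne
  have hinj : Function.Injective (fun r : ℕ => e.symm (b, L, r)) := by
    intro r r' h
    have := e.symm.injective h
    simpa using this
  obtain ⟨k, ⟨r, hr⟩, hk⟩ := (Set.infinite_range_of_injective hinj).exists_gt K
  have hek : e k = (b, L, r) := by rw [← hr]; simp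
  exact ⟨k, hk.le, by simp [hek], by simp only [hek]; exact hL⟩

end Pool.Agent.Work.MP_0403fc_an_explicit
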