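import Mathlib
import Pool.Agent.Work.MP_0403fc_an_explicit.Defs

set_option autoImplicit false

open Filter Topology
open scoped Classical

namespace Pool.Agent.Work.MP_0403fc_an_explicit

/-- number of elements of `A` below `N` -/
noncomputable def cnt (A : Set ℕ) (N : ℕ) : ℕ := Nat.count (· ∈ A) N

/-- positive lower density, workable form -/
def PD (A : Set ℕ) : Prop := ∃ c : ℝ, 0 < c ∧ ∃ N₀ : ℕ, ∀ N, N₀ ≤ N → c * N ≤ cnt A N

lemma cnt_eq_card (A : Set ℕ) (N : ℕ) :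
    cnt A N = ((Finset.range N).filter (· ∈ A)).card := by
  unfold cnt
  rw [Nat.count_eq_card_filter_range]

lemma cnt_le (A : Set ℕ) (N : ℕ) : cnt A N ≤ N := by
  rw [cnt_eq_card]
  exact (Finset.card_filter_le _ _).trans (Finset.card_range N).le

lemma cnt_mono {A : Set ℕ} {M N : ℕ} (h : M ≤ N) : cnt A M ≤ cnt A N :=
  Nat.count_monotone _ h

lemma cnt_subset {A B : Set ℕ} (h : A ⊆ B) (N : ℕ) : cnt A N ≤ cnt B N := by
  rw [cnt_eq_card, cnt_eq_card]
  apply Finset.card_le_card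
  intro x hx
  rw [Finset.mem_filter] at hx ⊢
  exact ⟨hx.1, h hx.2⟩

lemma PD.mono {A B : Set ℕ} (h : A ⊆ B) (hA : PD A) : PD B := by
  obtain ⟨c, hc, N₀, hN⟩ := hA
  refine ⟨c, hc, N₀, fun N hN' => (hN N hN').trans ?_⟩
  exact_mod_cast cnt_subset h N

lemma ncard_eq (A : Set ℕ) (N : ℕ) :
    Set.ncard (A ∩ Set.Icc 1 N) = ((Finset.Icc 1 N).filter (· ∈ A)).card := by
  rw [← Set.ncard_coe_finset]
  congr 1
  ext x
  rw [Finset.coe_filter]
  show (x ∈ A ∧ (1 ≤ x ∧ x ≤ N)) ↔ (x ∈ Finset.Icc 1 N ∧ x ∈ A)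
  rw [Finset.mem_Icc]
  tauto

lemma ncard_le_cnt (A : Set ℕ) (N : ℕ) : Set.ncard (A ∩ Set.Icc 1 N) ≤ cnt A (N + 1) := by
  rw [ncard_eq, cnt_eq_card]
  apply Finset.card_le_card
  intro x hx
  rw [Finset.mem_filter, Finset.mem_Icc] at hx
  rw [Finset.mem_filter, Finset.mem_range]
  exact ⟨by omega, hx.2⟩

lemma cnt_le_ncard (A : Set ℕ) (N : ℕ) : cnt A (N + 1) ≤ Set.ncard (A ∩ Set.Icc 1 N) + 1 := by
  rw [ncard_eq, cnt_eq_card]
  have : (Finset.range (N + 1)).filter (· ∈ A) ⊆ insert 0 ((Finset.Icc 1 N).filter (· ∈ A)) := by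
    intro x hx
    rw [Finset.mem_filter, Finset.mem_range] at hx
    rw [Finset.mem_insert, Finset.mem_filter, Finset.mem_Icc]
    rcases Nat.eq_zero_or_pos x with h | h
    · exact Or.inl h
    · exact Or.inr ⟨⟨h, by omega⟩, hx.2⟩
  exact (Finset.card_le_card this).trans (Finset.card_insert_le _ _)

theorem lowerDensity_pos_iff (A : Set ℕ) : 0 < lowerDensity A ↔ PD A := by
  have hlow : ∀ N : ℕ, (0 : ℝ) ≤ (Set.ncard (A ∩ Set.Icc 1 N) : ℝ) / N := fun N => by positivity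
  have hup : ∀ N : ℕ, (Set.ncard (A ∩ Set.Icc 1 N) : ℝ) / N ≤ 1 := by
    intro N
    apply div_le_one_of_le₀ _ (Nat.cast_nonneg N)
    have : Set.ncard (A ∩ Set.Icc 1 N) ≤ N := by
      rw [ncard_eq]
      refine (Finset.card_filter_le _ _).trans ?_
      simp
    exact_mod_cast this
  constructor
  · intro h
    obtain ⟨c, hc0, hc⟩ := exists_between h
    have hev := eventually_lt_of_lt_liminf hc
      (isBoundedUnder_of ⟨0, fun N => hlow N⟩)
    obtain ⟨N₁, hN₁⟩ := eventually_atTop.1 hev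
    refine ⟨c / 2, by positivity, N₁ + 2, fun N hN => ?_⟩
    obtain ⟨M, rfl⟩ : ∃ M, N = M + 1 := ⟨N - 1, by omega⟩
    have hM : N₁ ≤ M := by omega
    have hM1 : (1 : ℝ) ≤ M := by
      have : 1 ≤ M := by omega
      exact_mod_cast this
    have h1 := hN₁ M hM
    rw [lt_div_iff₀ (by linarith)] at h1
    have h2 : (Set.ncard (A ∩ Set.Icc 1 M) : ℝ) ≤ cnt A (M + 1) := by
      exact_mod_cast ncard_le_cnt A M
    push_cast
    nlinarith
  · rintro ⟨c, hc, N₀, hN⟩
    have hev : ∀ᶠ N : ℕ in atTop, c / 2 ≤ (Set.ncard (A ∩ Set.Icc 1 N) : ℝ) / N := by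
      obtain ⟨N₁, hN₁⟩ := exists_nat_ge (2 / c)
      filter_upwards [eventually_ge_atTop (max (max N₀ N₁) 1)] with N hNN
      have hN0 : N₀ ≤ N := le_trans (le_trans (le_max_left _ _) (le_max_left _ _)) hNN
      have hN1 : N₁ ≤ N := le_trans (le_trans (le_max_right _ _) (le_max_left _ _)) hNN
      have hNpos : (1 : ℝ) ≤ N := by exact_mod_cast le_trans (le_max_right _ _) hNN
      rw [le_div_iff₀ (by linarith)]
      have h1 := hN (N + 1) (by omega)
      have h2 : (cnt A (N + 1) : ℝ) ≤ Set.ncard (A ∩ Set.Icc 1 N) + 1 := by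
        exact_mod_cast cnt_le_ncard A N
      have h3 : 2 / c ≤ N := hN₁.trans (by exact_mod_cast hN1)
      rw [div_le_iff₀ hc] at h3
      push_cast at h1
      nlinarith
    have : c / 2 ≤ lowerDensity A :=
      le_liminf_of_le (isBoundedUnder_of ⟨1, fun N => hup N⟩).isCoboundedUnder_flip hev
    linarith

lemma pd_of_seq {A : Set ℕ} (s : ℕ → ℕ) (hs : Function.Injective s) (C : ℕ)
    (hC : ∀ j, s j ≤ C * (j + 1)) (hA : ∀ j, s j ∈ A) : PD A := by
  have hCpos : 0 < C := by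
    rcases Nat.eq_zero_or_pos C with h | h
    · exfalso
      have h0 := hC 0
      have h1 := hC 1
      rw [h] at h0 h1
      have : s 0 = s 1 := by omega
      exact absurd (hs this) (by norm_num)
    · exact h
  have hCR : (0 : ℝ) < C := by exact_mod_cast hCpos
  refine ⟨1 / (2 * C), by positivity, 2 * C + 2, fun N hN => ?_⟩
  have h1 : (N - 1) / C ≤ cnt A N := by
    rw [cnt_eq_card]
    have : ((Finset.range ((N - 1) / C)).image s) ⊆ (Finset.range N).filter (· ∈ A) := by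
      intro x hx
      rw [Finset.mem_image] at hx
      obtain ⟨j, hj, rfl⟩ := hx
      rw [Finset.mem_range] at hj
      rw [Finset.mem_filter, Finset.mem_range]
      refine ⟨?_, hA j⟩
      have h2 : C * (j + 1) ≤ C * ((N - 1) / C) := Nat.mul_le_mul_left C hj
      have h3 : C * ((N - 1) / C) ≤ N - 1 := Nat.mul_div_le _ _
      have := hC j
      omega
    have h4 := Finset.card_le_card this
    rw [Finset.card_image_of_injective _ hs, Finset.card_range] at h4
    exact h4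
  have h2 : ((N - 1 : ℕ) : ℝ) / C - 1 ≤ (((N - 1) / C : ℕ) : ℝ) := by
    have h3 : N - 1 < C * ((N - 1) / C + 1) := Nat.lt_mul_div_succ _ hCpos
    have h4 : ((N - 1 : ℕ) : ℝ) < C * (((N - 1) / C : ℕ) + 1) := by exact_mod_cast h3
    rw [sub_le_iff_le_add, div_le_iff₀ hCR]
    linarith
  have h5 : (((N - 1) / C : ℕ) : ℝ) ≤ cnt A N := by exact_mod_cast h1
  have h6 : ((N - 1 : ℕ) : ℝ) = N - 1 := by
    rw [Nat.cast_sub (by omega)]; simp
  have h7 : (2 * C + 2 : ℝ) ≤ N := by exact_mod_cast hN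
  rw [h6] at h2
  have h8 : 1 / (2 * (C : ℝ)) * N ≤ (N - 1) / C - 1 := by
    rw [div_mul_eq_mul_div, one_mul, div_le_iff₀ (by positivity)]
    have : ((N - 1 : ℝ) / C - 1) * (2 * C) = 2 * (N - 1) - 2 * C := by
      field_simp
    rw [this]; linarith
  linarith

lemma seq_of_pd {A : Set ℕ} (h : PD A) :
    ∃ a : ℕ → ℕ, StrictMono a ∧ (∀ j, a j ∈ A) ∧ ∃ C : ℕ, ∀ j, a j ≤ C * (j + 1) := by
  obtain ⟨c, hc, N₀, hN⟩ := h
  have hinf : (Set.ofPred (· ∈ A)).Infinite := by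
    intro hfin
    obtain ⟨b, hb⟩ := hfin.bddAbove
    have hbound : ∀ N, cnt A N ≤ b + 1 := by
      intro N
      rw [cnt_eq_card]
      have : (Finset.range N).filter (· ∈ A) ⊆ Finset.range (b + 1) := by
        intro x hx
        rw [Finset.mem_filter] at hx
        rw [Finset.mem_range]
        have := hb hx.2
        omega
      exact (Finset.card_le_card this).trans (Finset.card_range _).le
    obtain ⟨N, hN'⟩ := exists_nat_gt ((b + 1 : ℝ) / c)
    have h1 := hN (max N N₀) (le_max_right _ _)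
    have h2 : (cnt A (max N N₀) : ℝ) ≤ b + 1 := by exact_mod_cast hbound _
    rw [div_lt_iff₀ hc] at hN'
    have h3 : (N : ℝ) ≤ (max N N₀ : ℕ) := by exact_mod_cast le_max_left _ _
    nlinarith
  refine ⟨Nat.nth (· ∈ A), Nat.nth_strictMono hinf, fun j => Nat.nth_mem_of_infinite hinf j, ?_⟩
  obtain ⟨D, hD⟩ := exists_nat_ge (1 / c)
  refine ⟨max N₀ D, fun j => ?_⟩
  by_cases hj : N₀ ≤ Nat.nth (· ∈ A) j
  · have h1 := hN _ hj
    have h2 : cnt A (Nat.nth (· ∈ A) j) = j := Nat.count_nth_of_infinite hinf j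
    rw [h2] at h1
    have h3 : (Nat.nth (· ∈ A) j : ℝ) ≤ D * j := by
      have h4 : (Nat.nth (· ∈ A) j : ℝ) ≤ (1 / c) * j := by
        rw [one_div, ← div_eq_inv_mul, le_div_iff₀ hc]; linarith
      refine h4.trans ?_
      gcongr
    have h4 : Nat.nth (· ∈ A) j ≤ D * j := by exact_mod_cast h3
    calc Nat.nth (· ∈ A) j ≤ D * j := h4
      _ ≤ max N₀ D * (j + 1) := Nat.mul_le_mul (le_max_right _ _) (Nat.le_succ j)
  · push Not at hj
    calc Nat.nth (· ∈ A) j ≤ N₀ := hj.le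
      _ ≤ max N₀ D * 1 := by rw [mul_one]; exact le_max_left _ _
      _ ≤ max N₀ D * (j + 1) := Nat.mul_le_mul_left _ (by omega)

end Pool.Agent.Work.MP_0403fc_an_explicit
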