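import Mathlib
import Pool.Agent.Work.MP_0403fc_an_explicit.Density

set_option autoImplicit false

open Filter Topology
open scoped ENNReal

namespace Pool.Agent.Work.MP_0403fc_an_explicit

lemma exists_D (N : ℕ → ℕ) (hN : ∀ k, 1 ≤ N k) :
    ∃ D : ℕ → ℕ, D 0 = 1 ∧ (∀ k, D k ∣ D (k + 1)) ∧ (∀ k, 2 * D k ≤ D (k + 1)) ∧
      (∀ k, 2 ^ k * N k ≤ D k * N 0) := by
  let D : ℕ → ℕ := fun k => Nat.rec 1 (fun k Dk => Dk * (2 ^ (k + 1) * N (k + 1))) k
  have hD0 : D 0 = 1 := rfl
  have hDs : ∀ k, D (k + 1) = D k * (2 ^ (k + 1) * N (k + 1)) := fun k => rfl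
  have hD1 : ∀ k, 1 ≤ D k := by
    intro k
    induction k with
    | zero => rw [hD0]
    | succ k ih =>
      rw [hDs]
      exact Nat.mul_pos ih (Nat.mul_pos (by positivity) (hN _))
  refine ⟨D, hD0, fun k => ⟨_, hDs k⟩, fun k => ?_, fun k => ?_⟩
  · rw [hDs, mul_comm]
    apply Nat.mul_le_mul_left
    calc 2 = 2 ^ 1 * 1 := by norm_num
      _ ≤ 2 ^ (k + 1) * N (k + 1) :=
        Nat.mul_le_mul (Nat.pow_le_pow_right (by norm_num) (by omega)) (hN _)
  · cases k with
    | zero => rw [hD0]; simp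
    | succ k =>
      calc 2 ^ (k + 1) * N (k + 1) = 1 * (2 ^ (k + 1) * N (k + 1)) * 1 := by ring
        _ ≤ D k * (2 ^ (k + 1) * N (k + 1)) * N 0 :=
          Nat.mul_le_mul (Nat.mul_le_mul (hD1 k) le_rfl) (hN 0)
        _ = D (k + 1) * N 0 := by rw [hDs]

theorem exists_times {A : Set ℕ} (hA : PD A) (N : ℕ → ℕ) (hN : ∀ k, 1 ≤ N k) :
    ∃ n κ : ℕ → ℕ, (∀ i, n i ∈ A) ∧ (∀ i j, i < j → n i + N (κ i) + N (κ j) ≤ n j) ∧
      (∀ i, N (κ i) ≤ n i) ∧ ∀ k i₀, PD {x | ∃ i, i₀ ≤ i ∧ κ i = k ∧ x = n i} := by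
  obtain ⟨a, ha_mono, haA, C, hC⟩ := seq_of_pd hA
  obtain ⟨D, hD0, hDdvd, hD2, hDN⟩ := exists_D N hN
  have hDpow : ∀ k, 2 ^ k ≤ D k := by
    intro k
    induction k with
    | zero => rw [hD0]; norm_num
    | succ k ih => rw [pow_succ]; have := hD2 k; omega
  have hD1 : ∀ k, 1 ≤ D k := fun k => (Nat.one_le_two_pow).trans (hDpow k)
  have hDdvd' : ∀ j k, j ≤ k → D j ∣ D k := by
    intro j k hjk
    induction hjk with
    | refl => exact dvd_rfl
    | step _ ih => exact ih.trans (hDdvd _)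
  set κ : ℕ → ℕ := fun t => Nat.findGreatest (fun k => D k ∣ t + 1) t with hκ
  have hκdvd : ∀ t, D (κ t) ∣ t + 1 := by
    intro t
    have := Nat.findGreatest_spec (P := fun k => D k ∣ t + 1) (m := 0) (n := t) (Nat.zero_le _)
      (by rw [hD0]; exact one_dvd _)
    exact this
  have hκle : ∀ t, κ t ≤ t := fun t => Nat.findGreatest_le _
  set S : ℕ → ℕ := fun i => ∑ t ∈ Finset.range i, N (κ t) with hS
  set pp : ℕ → ℕ := fun i => N (κ i) + 2 * S i with hpp
  have hSle : ∀ i j, i < j → S i + N (κ i) ≤ S j := by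
    intro i j hij
    have : S i + N (κ i) = S (i + 1) := by
      rw [hS]; simp only; rw [Finset.sum_range_succ]
    rw [this]
    exact Finset.sum_le_sum_of_subset (Finset.range_mono hij)
  have hppadd : ∀ i j, i < j → pp i + (N (κ i) + N (κ j)) ≤ pp j := by
    intro i j hij
    have := hSle i j hij
    simp only [hpp]
    omega
  have hppmono : StrictMono pp := by
    intro i j hij
    have h1 := hppadd i j hij
    have h2 := hN (κ i)
    omega
  -- bound on S
  have hSbound : ∀ i, (S i : ℝ) ≤ 2 * N 0 * i := by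
    intro i
    have h1 : S i ≤ ∑ t ∈ Finset.range i, ∑ k ∈ Finset.range i,
        (if D k ∣ t + 1 then N k else 0) := by
      apply Finset.sum_le_sum
      intro t ht
      rw [Finset.mem_range] at ht
      have h2 : κ t ∈ Finset.range i := Finset.mem_range.2 ((hκle t).trans_lt ht)
      calc N (κ t) = (if D (κ t) ∣ t + 1 then N (κ t) else 0) := by rw [if_pos (hκdvd t)]
        _ ≤ _ := Finset.single_le_sum
            (f := fun k => if D k ∣ t + 1 then N k else 0) (fun _ _ => Nat.zero_le _) h2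
    rw [Finset.sum_comm] at h1
    have h3 : ∀ k, ∑ t ∈ Finset.range i, (if D k ∣ t + 1 then N k else 0)
        = (i / D k) * N k := by
      intro k
      rw [← Finset.sum_filter, Finset.sum_const, smul_eq_mul, Nat.card_multiples]
    simp_rw [h3] at h1
    have h4 : (S i : ℝ) ≤ ∑ k ∈ Finset.range i, ((i / D k : ℕ) : ℝ) * N k := by
      exact_mod_cast h1
    refine h4.trans ?_
    have h5 : ∀ k ∈ Finset.range i, ((i / D k : ℕ) : ℝ) * N k ≤ (i * N 0) * (1 / 2) ^ k := by
      intro k _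
      have hDk : (0 : ℝ) < D k := by exact_mod_cast hD1 k
      have h6 : ((i / D k : ℕ) : ℝ) ≤ i / D k := Nat.cast_div_le
      have h7 : (2 : ℝ) ^ k * N k ≤ D k * N 0 := by exact_mod_cast hDN k
      calc ((i / D k : ℕ) : ℝ) * N k ≤ (i / D k) * N k := by gcongr
        _ = (i * (1 / 2) ^ k / D k) * (2 ^ k * N k) := by
            rw [one_div, inv_pow]; field_simp
        _ ≤ (i * (1 / 2) ^ k / D k) * (D k * N 0) := by gcongr
        _ = _ := by field_simp
    refine (Finset.sum_le_sum h5).trans ?_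
    rw [← Finset.mul_sum]
    have h8 : ∑ k ∈ Finset.range i, ((1 : ℝ) / 2) ^ k ≤ 2 := by
      have := sum_geometric_two_le i
      simpa using this
    calc (i * N 0 : ℝ) * ∑ k ∈ Finset.range i, ((1 : ℝ) / 2) ^ k ≤ (i * N 0 : ℝ) * 2 := by
          gcongr
      _ = _ := by ring
  have hSbound' : ∀ i, S i ≤ 2 * N 0 * i := fun i => by exact_mod_cast hSbound i
  have hNκ : ∀ i, N (κ i) ≤ N 0 * (i + 1) := by
    intro i
    have h1 : D (κ i) ≤ i + 1 := Nat.le_of_dvd (Nat.succ_pos _) (hκdvd i)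
    calc N (κ i) ≤ 2 ^ (κ i) * N (κ i) := Nat.le_mul_of_pos_left _ (by positivity)
      _ ≤ D (κ i) * N 0 := hDN _
      _ ≤ (i + 1) * N 0 := Nat.mul_le_mul_right _ h1
      _ = _ := by ring
  have hppbound : ∀ i, pp i ≤ 5 * N 0 * (i + 1) := by
    intro i
    have h1 := hSbound' i
    have h2 := hNκ i
    simp only [hpp]
    nlinarith
  refine ⟨fun i => a (pp i), κ, fun i => haA _, fun i j hij => ?_, fun i => ?_, fun k i₀ => ?_⟩
  · have h1 := hppadd i j hij
    have h2 := ha_mono.add_le_nat (N (κ i) + N (κ j)) (pp i)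
    have h3 := ha_mono.monotone h1
    rw [add_comm (pp i)] at h3
    show a (pp i) + N (κ i) + N (κ j) ≤ a (pp j)
    omega
  · show N (κ i) ≤ a (pp i)
    calc N (κ i) ≤ pp i := Nat.le_add_right _ _
      _ ≤ a (pp i) := ha_mono.le_apply
  · -- positive lower density
    let ι : ℕ → ℕ := fun j => (j + i₀) * D (k + 1) + D k - 1
    have hι1 : ∀ j, ι j + 1 = (j + i₀) * D (k + 1) + D k := by
      intro j
      have := hD1 k
      simp only [ι]
      omega
    have hκι : ∀ j, κ (ι j) = k := by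
      intro j
      rw [hκ]
      simp only
      rw [Nat.findGreatest_eq_iff]
      have hdk : D k ∣ ι j + 1 := by
        rw [hι1]
        exact dvd_add ((hDdvd k).mul_left _) dvd_rfl
      refine ⟨?_, fun _ => hdk, ?_⟩
      · have h1 : 2 ^ k ≤ ι j + 1 := (hDpow k).trans (Nat.le_of_dvd (Nat.succ_pos _) hdk)
        have h2 : k < 2 ^ k := Nat.lt_two_pow_self
        omega
      · intro n hkn _ hdiv
        rw [hι1] at hdiv
        have h1 : D (k + 1) ∣ (j + i₀) * D (k + 1) + D k := (hDdvd' (k + 1) n hkn).trans hdiv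
        have h2 : D (k + 1) ∣ D k := (Nat.dvd_add_right (Dvd.intro_left _ rfl)).1 h1
        have h3 := Nat.le_of_dvd (hD1 k) h2
        have h4 := hD2 k
        have h5 := hD1 k
        omega
    have hιmono : StrictMono ι := by
      intro i j hij
      have h1 := hι1 i
      have h2 := hι1 j
      have h3 : (i + i₀) * D (k + 1) < (j + i₀) * D (k + 1) :=
        Nat.mul_lt_mul_of_pos_right (by omega) (hD1 _)
      omega
    refine pd_of_seq (fun j => a (pp (ι j)))
      ((ha_mono.comp (hppmono.comp hιmono)).injective)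
      (C * (5 * N 0 + 1) * ((i₀ + 1) * D (k + 1))) (fun j => ?_) (fun j => ?_)
    · have h1 : ι j + 1 ≤ (i₀ + 1) * D (k + 1) * (j + 1) := by
        rw [hι1]
        have h2 := hD2 k
        have h3 : D k ≤ D (k + 1) := by omega
        calc (j + i₀) * D (k + 1) + D k ≤ (j + i₀) * D (k + 1) + D (k + 1) := by omega
          _ = (j + i₀ + 1) * D (k + 1) := by ring
          _ ≤ ((i₀ + 1) * (j + 1)) * D (k + 1) := by
              apply Nat.mul_le_mul_right; nlinarith [Nat.zero_le (i₀ * j)]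
          _ = _ := by ring
      calc a (pp (ι j)) ≤ C * (pp (ι j) + 1) := hC _
        _ ≤ C * (5 * N 0 * (ι j + 1) + 1) := by
            apply Nat.mul_le_mul_left; have := hppbound (ι j); omega
        _ ≤ C * ((5 * N 0 + 1) * (ι j + 1)) := by
            apply Nat.mul_le_mul_left; nlinarith [Nat.zero_le (ι j)]
        _ ≤ C * ((5 * N 0 + 1) * ((i₀ + 1) * D (k + 1) * (j + 1))) := by
            apply Nat.mul_le_mul_left; apply Nat.mul_le_mul_left; exact h1
        _ = _ := by ring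
    · refine ⟨ι j, ?_, hκι j, rfl⟩
      have h1 := hι1 j
      have h2 := hD1 k
      have h3 : (j + i₀) * 1 ≤ (j + i₀) * D (k + 1) := Nat.mul_le_mul_left _ (hD1 _)
      omega

lemma exists_g (v : ℕ → ℝ) (hv : ∀ k, 0 < v k) (hs : Summable v) :
    ∃ g : ℕ → ℝ, Monotone g ∧ (∀ k, 0 < g k) ∧ Tendsto g atTop atTop ∧
      Summable (fun k => g k * v k) := by
  set t : ℕ → ℝ := fun r => ∑' s, v (s + r) with ht
  have hsr : ∀ r, Summable fun s => v (s + r) := fun r => (summable_nat_add_iff r).2 hs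
  have hrec : ∀ r, t r = v r + t (r + 1) := by
    intro r
    have h1 := (hsr r).sum_add_tsum_nat_add 1
    rw [Finset.sum_range_one] at h1
    simp only [ht]
    rw [← h1]
    simp only [zero_add]
    congr 2
    ext s
    rw [add_assoc, add_comm 1 r]
  have htpos : ∀ r, 0 < t r := fun r => (hsr r).tsum_pos (fun s => (hv _).le) 0 (hv _)
  have htanti : Antitone t := antitone_nat_of_succ_le fun r => by
    rw [hrec r]; linarith [hv r]
  have htlim : Tendsto t atTop (𝓝 0) := tendsto_sum_nat_add v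
  refine ⟨fun r => (Real.sqrt (t r))⁻¹, ?_, fun r => inv_pos.2 (Real.sqrt_pos.2 (htpos r)), ?_, ?_⟩
  · intro r s hrs
    exact inv_anti₀ (Real.sqrt_pos.2 (htpos s)) (Real.sqrt_le_sqrt (htanti hrs))
  · have h1 : Tendsto (fun r => Real.sqrt (t r)) atTop (𝓝 0) := by
      have := (Real.continuous_sqrt.tendsto 0).comp htlim
      rwa [Real.sqrt_zero] at this
    have h2 : Tendsto (fun r => Real.sqrt (t r)) atTop (𝓝[>] 0) := by
      rw [tendsto_nhdsWithin_iff]
      exact ⟨h1, Eventually.of_forall fun r => Real.sqrt_pos.2 (htpos r)⟩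
    exact tendsto_inv_nhdsGT_zero.comp h2
  · have hle : ∀ r, (Real.sqrt (t r))⁻¹ * v r ≤
        2 * (Real.sqrt (t r) - Real.sqrt (t (r + 1))) := by
      intro r
      set x := Real.sqrt (t r) with hx
      set y := Real.sqrt (t (r + 1)) with hy
      have hx0 : 0 < x := Real.sqrt_pos.2 (htpos r)
      have hy0 : 0 < y := Real.sqrt_pos.2 (htpos (r + 1))
      have hx2 : x ^ 2 = t r := Real.sq_sqrt (htpos r).le
      have hy2 : y ^ 2 = t (r + 1) := Real.sq_sqrt (htpos _).le
      have hyx : y ≤ x := Real.sqrt_le_sqrt (htanti (Nat.le_succ r))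
      have hv' : v r = x ^ 2 - y ^ 2 := by rw [hx2, hy2, hrec r]; ring
      rw [hv', ← div_eq_inv_mul, div_le_iff₀ hx0]
      nlinarith
    apply summable_of_sum_range_le (c := 2 * Real.sqrt (t 0))
    · intro r
      exact mul_nonneg (inv_nonneg.2 (Real.sqrt_nonneg _)) (hv r).le
    · intro n
      refine (Finset.sum_le_sum fun r _ => hle r).trans ?_
      rw [← Finset.mul_sum, Finset.sum_range_sub']
      have := Real.sqrt_nonneg (t n)
      linarith

end Pool.Agent.Work.MP_0403fc_an_explicit
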