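import Mathlib
import Pool.Agent.Work.MP_0403fc_an_explicit.Times
import Pool.Agent.Work.MP_0403fc_an_explicit.Targets

set_option autoImplicit false

open Filter Topology
open scoped ENNReal

namespace Pool.Agent.Work.MP_0403fc_an_explicit

variable {𝕜 : Type*} [RCLike 𝕜] {p : ℝ≥0∞}

/-- data for block vectors whose orbits stay bounded along a set of positive lower density -/
def HasBlocks (P : ℝ) (nW : ℕ → ℝ) : Prop :=
  ∃ (A : Set ℕ) (β : ℕ → ℕ) (μ : ℕ → ℝ) (C : ℝ), PD A ∧ (∀ m, 0 ≤ μ m) ∧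
    (∀ b, ∑' m, (if β m = b then ENNReal.ofReal (μ m) else 0) = 1) ∧
    (∀ b, ∃ X, ∀ m, X ≤ m → β m = b → μ m = 0) ∧
    (∀ n ∈ A, ∀ b, ∑' k, (if β (k + n) = b then
      ENNReal.ofReal (μ (k + n) * (nW (k + n) / nW k) ^ P) else 0) ≤ ENNReal.ofReal C)

lemma infinite_dim_lp [Fact (1 ≤ p)] : ¬ FiniteDimensional 𝕜 (lp (fun _ : ℕ => 𝕜) p) := by
  intro hfin
  let F : (ℕ →₀ 𝕜) →ₗ[𝕜] lp (fun _ : ℕ => 𝕜) p :=
    Finsupp.linearCombination 𝕜 (fun i => (lp.single p i (1 : 𝕜) : lp (fun _ : ℕ => 𝕜) p))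
  have hF : ∀ (f : ℕ →₀ 𝕜) (j : ℕ), F f j = f j := by
    intro f j
    simp only [F]
    rw [Finsupp.linearCombination_apply, Finsupp.sum, lp.coeFn_sum, Finset.sum_apply]
    by_cases hj : j ∈ f.support
    · rw [Finset.sum_eq_single j]
      · rw [lp.coeFn_smul, Pi.smul_apply, lp.single_apply_self]
        simp
      · intro i _ hij
        rw [lp.coeFn_smul, Pi.smul_apply, lp.single_apply_ne _ _ _ hij.symm, smul_zero]
      · intro h
        exact absurd hj h
    · rw [Finset.sum_eq_zero, Finsupp.notMem_support_iff.1 hj]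
      intro i hi
      have hij : j ≠ i := fun h => hj (h ▸ hi)
      rw [lp.coeFn_smul, Pi.smul_apply, lp.single_apply_ne _ _ _ hij, smul_zero]
  have hinj : Function.Injective F := by
    intro f g hfg
    ext j
    rw [← hF f j, ← hF g j, hfg]
  have := FiniteDimensional.of_injective F hinj
  exact Module.Finite.finite_basis (Finsupp.basisSingleOne (R := 𝕜) (ι := ℕ)) |>.false

lemma En_R_le (P : ℝ) (hP : 0 ≤ P) (c : ℕ → 𝕜) (β : ℕ → ℕ) (S : ℝ≥0∞)
    (hS : ∀ b, ∑' m, (if β m = b then ENNReal.ofReal (‖c m‖ ^ P) else 0) ≤ S) (a : ℕ → 𝕜) :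
    En P (fun m => c m * a (β m)) ≤ S * En P a := by
  unfold En
  have h1 : ∀ m, ENNReal.ofReal (‖c m * a (β m)‖ ^ P) =
      ENNReal.ofReal (‖c m‖ ^ P) * ENNReal.ofReal (‖a (β m)‖ ^ P) := by
    intro m
    rw [norm_mul, Real.mul_rpow (norm_nonneg _) (norm_nonneg _),
      ENNReal.ofReal_mul (by positivity)]
  simp_rw [h1]
  exact fiber_le β _ (fun b => ENNReal.ofReal (‖a b‖ ^ P)) S hS

lemma En_R_eq (P : ℝ) (hP : 0 ≤ P) (c : ℕ → 𝕜) (β : ℕ → ℕ)
    (hS : ∀ b, ∑' m, (if β m = b then ENNReal.ofReal (‖c m‖ ^ P) else 0) = 1) (a : ℕ → 𝕜) :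
    En P (fun m => c m * a (β m)) = En P a := by
  unfold En
  have h1 : ∀ m, ENNReal.ofReal (‖c m * a (β m)‖ ^ P) =
      ENNReal.ofReal (‖c m‖ ^ P) * ENNReal.ofReal (‖a (β m)‖ ^ P) := by
    intro m
    rw [norm_mul, Real.mul_rpow (norm_nonneg _) (norm_nonneg _),
      ENNReal.ofReal_mul (by positivity)]
  simp_rw [h1]
  exact fiber_eq β _ (fun b => ENNReal.ofReal (‖a b‖ ^ P)) hS

/-- the operator `a ↦ (c m * a (β m))_m` -/
noncomputable def Rlin [Fact (1 ≤ p)] (hp : p ≠ ∞) (c : ℕ → 𝕜) (β : ℕ → ℕ) (S : ℝ≥0∞)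
    (hSfin : S ≠ ∞)
    (hS : ∀ b, ∑' m, (if β m = b then ENNReal.ofReal (‖c m‖ ^ p.toReal) else 0) ≤ S) :
    lp (fun _ : ℕ => 𝕜) p →ₗ[𝕜] lp (fun _ : ℕ => 𝕜) p where
  toFun a := ⟨fun m => c m * a (β m), memℓp_of_En hp (by
    have h1 := En_R_le p.toReal (toReal_pos' hp).le c β S hS (a : ℕ → 𝕜)
    rw [En_lp hp] at h1
    exact (lt_of_le_of_lt h1 (ENNReal.mul_lt_top hSfin.lt_top ENNReal.ofReal_lt_top)).ne)⟩
  map_add' a b := by
    ext m
    show c m * (a (β m) + b (β m)) = c m * a (β m) + c m * b (β m)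
    ring
  map_smul' r a := by
    ext m
    show c m * (r * a (β m)) = r * (c m * a (β m))
    ring

lemma Rlin_apply [Fact (1 ≤ p)] (hp : p ≠ ∞) (c : ℕ → 𝕜) (β : ℕ → ℕ) (S : ℝ≥0∞)
    (hSfin : S ≠ ∞)
    (hS : ∀ b, ∑' m, (if β m = b then ENNReal.ofReal (‖c m‖ ^ p.toReal) else 0) ≤ S)
    (a : lp (fun _ : ℕ => 𝕜) p) (m : ℕ) : Rlin hp c β S hSfin hS a m = c m * a (β m) := rfl

lemma tail_small (f : ℕ → ℝ) (hf : ∀ k, 0 ≤ f k) (hs : Summable f) {ε : ℝ} (hε : 0 < ε) :
    ∃ N₀, ∀ N, N₀ ≤ N → ∑' r, (if N ≤ r then ENNReal.ofReal (f r) else 0) ≤ ENNReal.ofReal ε := by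
  have h1 := tendsto_sum_nat_add f
  obtain ⟨N₀, hN₀⟩ := eventually_atTop.1 (h1.eventually (gt_mem_nhds hε))
  refine ⟨N₀, fun N hN => ?_⟩
  have h2 : ∑' r, (if N ≤ r then ENNReal.ofReal (f r) else 0)
      = ∑' r, ENNReal.ofReal (f (r + N)) := by
    have hinj : Function.Injective (fun r : ℕ => r + N) := add_left_injective N
    rw [← hinj.tsum_eq]
    · congr 1
      ext r
      rw [if_pos (Nat.le_add_left _ _)]
    · intro r hr
      rw [Function.mem_support] at hr
      by_cases h : N ≤ r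
      · exact ⟨r - N, Nat.sub_add_cancel h⟩
      · rw [if_neg h] at hr
        exact absurd rfl hr
  rw [h2, ← ENNReal.ofReal_tsum_of_nonneg (fun n => hf _) ((summable_nat_add_iff N).2 hs)]
  exact ENNReal.ofReal_le_ofReal (hN₀ N hN).le

/-- orbits of block vectors tend to zero along `A` -/
lemma block_orbit [Fact (1 ≤ p)] (hp : p ≠ ∞) {w : ℕ → 𝕜} (hw0 : ∀ n, w n ≠ 0)
    (hw : ∃ C : ℝ, ∀ n, ‖w n‖ ≤ C) {A : Set ℕ} {β : ℕ → ℕ} {μ : ℕ → ℝ} {C : ℝ}
    (hμ : ∀ m, 0 ≤ μ m)
    (hfin : ∀ b, ∃ X, ∀ m, X ≤ m → β m = b → μ m = 0)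
    (hA : ∀ n ∈ A, ∀ b, ∑' k, (if β (k + n) = b then
      ENNReal.ofReal (μ (k + n) * (‖wprod w (k + n)‖ / ‖wprod w k‖) ^ p.toReal) else 0)
        ≤ ENNReal.ofReal C)
    (c : ℕ → 𝕜) (hc : ∀ m, ‖c m‖ ^ p.toReal = μ m)
    (a x : lp (fun _ : ℕ => 𝕜) p) (hx : ∀ m, x m = c m * a (β m)) {ε : ℝ} (hε : 0 < ε) :
    ∃ X, ∀ n, X ≤ n → n ∈ A → ‖((shiftOp hp w hw) ^ n) x‖ ≤ ε := by
  have hP := toReal_pos' hp
  have hsum : Summable fun b => ‖a b‖ ^ p.toReal := (memℓp_gen_iff hP).1 (lp.memℓp a)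
  have hε' : 0 < ε ^ p.toReal / (max C 0 + 1) := by positivity
  obtain ⟨B, hB⟩ := tail_small (fun b => ‖a b‖ ^ p.toReal) (fun b => by positivity) hsum hε'
  have hB' := hB B le_rfl
  choose X hX using hfin
  refine ⟨(Finset.range B).sup X, fun n hn hnA => ?_⟩
  apply norm_le_of_En hp _ hε.le
  have h1 : En p.toReal (((shiftOp hp w hw) ^ n) x : ℕ → 𝕜) ≤
      ∑' k, ENNReal.ofReal (μ (k + n) * (‖wprod w (k + n)‖ / ‖wprod w k‖) ^ p.toReal) *
        (if B ≤ β (k + n) then ENNReal.ofReal (‖a (β (k + n))‖ ^ p.toReal) else 0) := by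
    unfold En
    apply ENNReal.tsum_le_tsum
    intro k
    rw [pow_apply hp hw0, hx, norm_mul, norm_mul, norm_div,
      Real.mul_rpow (by positivity) (by positivity),
      Real.mul_rpow (norm_nonneg _) (norm_nonneg _), hc, ← mul_assoc,
      ENNReal.ofReal_mul (by have := hμ (k + n); positivity), mul_comm (_ ^ _) (μ _)]
    by_cases hb : B ≤ β (k + n)
    · rw [if_pos hb]
    · rw [if_neg hb]
      push Not at hb
      have h2 : X (β (k + n)) ≤ (Finset.range B).sup X :=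
        Finset.le_sup (Finset.mem_range.2 hb)
      have h3 : μ (k + n) = 0 := hX (β (k + n)) (k + n) (by omega) rfl
      rw [h3]
      simp
  refine h1.trans ?_
  have h2 := fiber_le (fun k => β (k + n))
    (fun k => ENNReal.ofReal (μ (k + n) * (‖wprod w (k + n)‖ / ‖wprod w k‖) ^ p.toReal))
    (fun b => if B ≤ b then ENNReal.ofReal (‖a b‖ ^ p.toReal) else 0) _ (hA n hnA)
  refine h2.trans ?_
  calc ENNReal.ofReal C * ∑' b, (if B ≤ b then ENNReal.ofReal (‖a b‖ ^ p.toReal) else 0)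
      ≤ ENNReal.ofReal (max C 0) * ENNReal.ofReal (ε ^ p.toReal / (max C 0 + 1)) := by
        gcongr
        · exact le_max_left _ _
    _ = ENNReal.ofReal (max C 0 * (ε ^ p.toReal / (max C 0 + 1))) := by
        rw [ENNReal.ofReal_mul (le_max_right _ _)]
    _ ≤ ENNReal.ofReal (ε ^ p.toReal) := by
        apply ENNReal.ofReal_le_ofReal
        have h3 : 0 ≤ max C 0 := le_max_right _ _
        have h4 : 0 ≤ ε ^ p.toReal := by positivity
        rw [mul_div_assoc', div_le_iff₀ (by linarith)]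
        nlinarith

/-- the second part: a small vector field with many targets -/
lemma exists_tau [Fact (1 ≤ p)] (hp : p ≠ ∞) {w : ℕ → 𝕜} (hw0 : ∀ n, w n ≠ 0)
    (hw : ∃ C : ℝ, ∀ n, ‖w n‖ ≤ C)
    (hsum : Summable fun n => (‖wprod w n‖ ^ p.toReal)⁻¹) {A : Set ℕ} (hA : PD A) :
    ∃ (τ : ℕ → 𝕜) (l : ℕ → ℕ),
      (∑' m, ENNReal.ofReal (‖τ m‖ ^ p.toReal) ≤ ENNReal.ofReal ((1 / 2) ^ p.toReal)) ∧
      ∀ (a x : lp (fun _ : ℕ => 𝕜) p), (∀ m, x m = τ m * a (l m)) →
        ∀ (b : ℕ) (V : Set (lp (fun _ : ℕ => 𝕜) p)), IsOpen V → V.Nonempty → ∀ ε : ℝ, 0 < ε →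
          ∃ y ∈ V, ∀ X, ∃ A' ⊆ A, PD A' ∧ (∀ n ∈ A', X ≤ n) ∧
            ∀ n ∈ A', ‖((shiftOp hp w hw) ^ n) x - a b • y‖ ≤ ε := by
  have hP := toReal_pos' hp
  set v : ℕ → ℝ := fun n => (‖wprod w n‖ ^ p.toReal)⁻¹ with hv
  have hWpos : ∀ n, 0 < ‖wprod w n‖ := fun n => norm_pos_iff.2 (wprod_ne_zero hw0 n)
  have hvpos : ∀ n, 0 < v n := fun n => by have := hWpos n; positivity
  obtain ⟨g, hgmono, hgpos, hglim, hgv⟩ := exists_g v hvpos hsum
  obtain ⟨lab, d, hd, hdense⟩ := exists_targets (𝕜 := 𝕜) hp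
  have hf0 : ∀ k, 0 ≤ g k * v k := fun k => by have := hgpos k; have := hvpos k; positivity
  obtain ⟨Nstar, hNstar⟩ := tail_small _ hf0 hgv (show (0 : ℝ) < (1 / 2) ^ p.toReal by positivity)
  -- choose N
  have hN : ∀ k, ∃ N, 1 ≤ N ∧ Nstar ≤ N ∧ (∀ s, N ≤ s → d k s = 0) ∧
      (∀ s, (‖d k s‖ * ‖wprod w s‖) ^ p.toReal ≤ g N) ∧
      ∑' r, (if N ≤ r then ENNReal.ofReal (g r * v r) else 0) ≤
        ENNReal.ofReal (1 / ((k : ℝ) + 1)) := by
    intro k
    obtain ⟨N₁, hN₁⟩ := hd k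
    obtain ⟨N₂, hN₂⟩ := tail_small _ hf0 hgv (show (0 : ℝ) < 1 / ((k : ℝ) + 1) by positivity)
    set Bk : ℝ := ∑ s ∈ Finset.range N₁, (‖d k s‖ * ‖wprod w s‖) ^ p.toReal with hBk
    obtain ⟨N₃, hN₃⟩ := eventually_atTop.1 (hglim.eventually (eventually_ge_atTop Bk))
    have hBk' : ∀ s, (‖d k s‖ * ‖wprod w s‖) ^ p.toReal ≤ Bk := by
      intro s
      by_cases hs : s < N₁
      · exact Finset.single_le_sum (f := fun s => (‖d k s‖ * ‖wprod w s‖) ^ p.toReal)
          (fun i _ => by positivity) (Finset.mem_range.2 hs)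
      · push Not at hs
        rw [hN₁ s hs, norm_zero, zero_mul, Real.zero_rpow hP.ne']
        exact Finset.sum_nonneg fun i _ => by positivity
    refine ⟨max (max 1 Nstar) (max N₁ (max N₂ N₃)), ?_, ?_, ?_, ?_, ?_⟩
    · exact le_trans (le_max_left _ _) (le_max_left _ _)
    · exact le_trans (le_max_right _ _) (le_max_left _ _)
    · intro s hs
      exact hN₁ s (le_trans (le_trans (le_max_left _ _) (le_max_right _ _)) hs)
    · intro s
      refine (hBk' s).trans (hN₃ _ ?_)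
      exact le_trans (le_max_right _ _) (le_trans (le_max_right _ _) (le_max_right _ _))
    · apply hN₂
      exact le_trans (le_max_left _ _) (le_trans (le_max_right _ _) (le_max_right _ _))
  choose N hN1 hNs hNd hNg hNt using hN
  obtain ⟨n, κ, hnA, hnsep, hnN, hnPD⟩ := exists_times hA N hN1
  have hidx : ∃ idx : ℕ → ℕ, ∀ i s, s < N (κ i) → idx (s + n i) = i := by
    classical
    refine ⟨fun m => if h : ∃ i, n i ≤ m ∧ m < n i + N (κ i) then h.choose else 0, ?_⟩
    intro i s hs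
    have hex : ∃ j, n j ≤ s + n i ∧ s + n i < n j + N (κ j) := ⟨i, by omega, by omega⟩
    simp only
    rw [dif_pos hex]
    have hspec := hex.choose_spec
    set j := hex.choose
    rcases lt_trichotomy j i with h | h | h
    · have := hnsep j i h; omega
    · exact h
    · have := hnsep i j h; omega
  obtain ⟨idx, hidx⟩ := hidx
  -- the function τ
  set τ : ℕ → 𝕜 := fun m => if n (idx m) ≤ m then
    d (κ (idx m)) (m - n (idx m)) * wprod w (m - n (idx m)) / wprod w m else 0 with hτ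
  set l : ℕ → ℕ := fun m => lab (κ (idx m)) with hl
  -- key pointwise description
  have hτcase : ∀ m, τ m = 0 ∨ ∃ j s, s < N (κ j) ∧ m = s + n j ∧
      ‖τ m‖ = ‖d (κ j) s‖ * ‖wprod w s‖ / ‖wprod w m‖ := by
    intro m
    by_cases h1 : n (idx m) ≤ m
    · by_cases h2 : N (κ (idx m)) ≤ m - n (idx m)
      · left
        simp only [hτ]
        rw [if_pos h1, hNd _ _ h2]
        simp
      · right
        push Not at h2
        refine ⟨idx m, m - n (idx m), h2, by omega, ?_⟩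
        simp only [hτ]
        rw [if_pos h1, norm_div, norm_mul]
    · left
      simp only [hτ]
      rw [if_neg h1]
  have hNle : ∀ i j, i < j → N (κ j) ≤ n j - n i := by
    intro i j hij
    have := hnsep i j hij
    omega
  refine ⟨τ, l, ?_, ?_⟩
  · -- norm of τ
    refine le_trans ?_ (hNstar Nstar le_rfl)
    apply ENNReal.tsum_le_tsum
    intro m
    rcases hτcase m with h | ⟨j, s, hs, hm, hnorm⟩
    · rw [h, norm_zero, Real.zero_rpow hP.ne', ENNReal.ofReal_zero]
      exact zero_le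
    · have hmN : N (κ j) ≤ m := by have := hnN j; omega
      rw [if_pos ((hNs (κ j)).trans hmN)]
      apply ENNReal.ofReal_le_ofReal
      rw [hnorm, Real.div_rpow (by positivity) (by positivity), div_eq_mul_inv]
      have h1 : (‖d (κ j) s‖ * ‖wprod w s‖) ^ p.toReal ≤ g m :=
        (hNg (κ j) s).trans (hgmono hmN)
      exact mul_le_mul_of_nonneg_right h1 (hvpos m).le
  · intro a x hx b V hV hne ε hε
    obtain ⟨K, hK⟩ := exists_nat_ge (‖a‖ ^ p.toReal / ε ^ p.toReal)
    obtain ⟨k, hkK, hlab, hdV⟩ := hdense b K V hV hne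
    refine ⟨d k, hdV, fun X => ?_⟩
    refine ⟨{x | ∃ i, X ≤ i ∧ κ i = k ∧ x = n i}, ?_, hnPD k X, ?_, ?_⟩
    · rintro _ ⟨i, _, _, rfl⟩
      exact hnA i
    · rintro _ ⟨i, hi, _, rfl⟩
      have hmono : StrictMono n := by
        intro i j hij
        have := hnsep i j hij
        have := hN1 (κ i)
        omega
      exact hi.trans hmono.le_apply
    · rintro _ ⟨i, _, hκi, rfl⟩
      apply norm_le_of_En hp _ hε.le
      have hpt : ∀ s, ENNReal.ofReal
          (‖(((shiftOp hp w hw) ^ (n i)) x - a b • d k :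
            lp (fun _ : ℕ => 𝕜) p) s‖ ^ p.toReal) ≤
          (if N k ≤ s then ENNReal.ofReal (g s * v s) else 0) *
            ENNReal.ofReal (‖a‖ ^ p.toReal) := by
        intro s
        have hval : (((shiftOp hp w hw) ^ (n i)) x - a b • d k :
            lp (fun _ : ℕ => 𝕜) p) s =
            wprod w (s + n i) / wprod w s * (τ (s + n i) * a (l (s + n i))) - a b * d k s := by
          rw [lp.coeFn_sub, Pi.sub_apply, pow_apply hp hw0, hx, lp.coeFn_smul, Pi.smul_apply,
            smul_eq_mul]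
        rw [hval]
        by_cases hs : N k ≤ s
        · rw [if_pos hs, ← ENNReal.ofReal_mul (hf0 s)]
          apply ENNReal.ofReal_le_ofReal
          rw [hNd k s hs, mul_zero, sub_zero, ← mul_assoc, norm_mul,
            Real.mul_rpow (norm_nonneg _) (norm_nonneg _)]
          apply mul_le_mul _ _ (by positivity) (hf0 s)
          · rcases hτcase (s + n i) with h | ⟨j, s', hs', hm, hnorm⟩
            · rw [h, mul_zero, norm_zero, Real.zero_rpow hP.ne']
              exact hf0 s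
            · have hij : i < j := by
                rcases lt_trichotomy j i with h | h | h
                · have := hnsep j i h; omega
                · rw [h, hκi] at hs'
                  rw [h] at hm
                  omega
                · exact h
              have h1 := hNle i j hij
              have h2 : N (κ j) ≤ s := by omega
              rw [norm_mul, norm_div, hnorm]
              have h3 : ‖wprod w (s + n i)‖ / ‖wprod w s‖ *
                  (‖d (κ j) s'‖ * ‖wprod w s'‖ / ‖wprod w (s + n i)‖) =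
                  ‖d (κ j) s'‖ * ‖wprod w s'‖ / ‖wprod w s‖ := by
                have := (hWpos (s + n i)).ne'
                have := (hWpos s).ne'
                field_simp
              rw [h3, Real.div_rpow (by positivity) (by positivity), div_eq_mul_inv]
              exact mul_le_mul_of_nonneg_right ((hNg (κ j) s').trans (hgmono h2)) (hvpos s).le
          · exact Real.rpow_le_rpow (norm_nonneg _)
              (lp.norm_apply_le_norm (by
                intro h
                exact absurd (Fact.out : 1 ≤ p) (by rw [h]; norm_num)) a _) hP.le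
        · push Not at hs
          have hs' : s < N (κ i) := by rw [hκi]; exact hs
          have h1 : idx (s + n i) = i := hidx i s hs'
          have h2 : τ (s + n i) = d k s * wprod w s / wprod w (s + n i) := by
            simp only [hτ]
            rw [h1, if_pos (Nat.le_add_left _ _), Nat.add_sub_cancel, hκi]
          have h3 : l (s + n i) = b := by
            simp only [hl]
            rw [h1, hκi, hlab]
          rw [h2, h3]
          have h4 : wprod w (s + n i) / wprod w s *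
              (d k s * wprod w s / wprod w (s + n i) * a b) - a b * d k s = 0 := by
            have := wprod_ne_zero hw0 (s + n i)
            have := wprod_ne_zero hw0 s
            field_simp
            ring
          rw [h4, norm_zero, Real.zero_rpow hP.ne', ENNReal.ofReal_zero]
          exact zero_le
      have h1 : En p.toReal (((shiftOp hp w hw) ^ (n i)) x - a b • d k :
            lp (fun _ : ℕ => 𝕜) p) ≤ ENNReal.ofReal (1 / ((k : ℝ) + 1)) *
            ENNReal.ofReal (‖a‖ ^ p.toReal) := by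
        unfold En
        refine (ENNReal.tsum_le_tsum hpt).trans ?_
        rw [ENNReal.tsum_mul_right]
        gcongr
        exact hNt k
      refine h1.trans ?_
      rw [← ENNReal.ofReal_mul (by positivity)]
      apply ENNReal.ofReal_le_ofReal
      have h2 : (K : ℝ) ≤ k := by exact_mod_cast hkK
      have hεP : 0 < ε ^ p.toReal := by positivity
      rw [div_le_iff₀ hεP] at hK
      rw [div_mul_eq_mul_div, one_mul, div_le_iff₀ (by positivity)]
      nlinarith

theorem fhs_of_blocks [Fact (1 ≤ p)] (hp : p ≠ ∞) {w : ℕ → 𝕜} (hw0 : ∀ n, w n ≠ 0)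
    (hw : ∃ C : ℝ, ∀ n, ‖w n‖ ≤ C)
    (hsum : Summable fun n => (‖wprod w n‖ ^ p.toReal)⁻¹)
    (hbl : HasBlocks p.toReal (fun n => ‖wprod w n‖)) :
    HasFHSop (shiftOp hp w hw) := by
  have hP := toReal_pos' hp
  obtain ⟨A, β, μ, C, hPD, hμ, hone, hfin, hA⟩ := hbl
  obtain ⟨τ, l, hτ, hτmain⟩ := exists_tau hp hw0 hw hsum hPD
  set c : ℕ → 𝕜 := fun m => (((μ m) ^ (1 / p.toReal) : ℝ) : 𝕜) with hc
  have hcμ : ∀ m, ‖c m‖ ^ p.toReal = μ m := by
    intro m
    simp only [hc]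
    rw [RCLike.norm_ofReal, abs_of_nonneg (by have := hμ m; positivity), ← Real.rpow_mul (hμ m),
      one_div, inv_mul_cancel₀ hP.ne', Real.rpow_one]
  have hS1 : ∀ b, ∑' m, (if β m = b then ENNReal.ofReal (‖c m‖ ^ p.toReal) else 0) ≤ 1 := by
    intro b
    simp_rw [hcμ]
    exact (hone b).le
  have hS2 : ∀ b, ∑' m, (if l m = b then ENNReal.ofReal (‖τ m‖ ^ p.toReal) else 0) ≤
      ENNReal.ofReal ((1 / 2) ^ p.toReal) := by
    intro b
    refine le_trans (ENNReal.tsum_le_tsum fun m => ?_) hτ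
    split_ifs
    · exact le_rfl
    · exact zero_le
  set R₁ := Rlin hp c β 1 (by norm_num) hS1 with hR₁
  set R₂ := Rlin hp τ l (ENNReal.ofReal ((1 / 2) ^ p.toReal)) ENNReal.ofReal_ne_top hS2 with hR₂
  have hR₁norm : ∀ a, ‖R₁ a‖ = ‖a‖ := by
    intro a
    have h1 : En p.toReal (R₁ a : ℕ → 𝕜) = En p.toReal (a : ℕ → 𝕜) := by
      have := En_R_eq p.toReal hP.le c β (by simp_rw [hcμ]; exact hone) (a : ℕ → 𝕜)
      exact this
    rw [En_lp hp, En_lp hp, ENNReal.ofReal_eq_ofReal_iff (by positivity) (by positivity)] at h1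
    exact (Real.rpow_left_inj (norm_nonneg _) (norm_nonneg _) hP.ne').1 h1
  have hR₂norm : ∀ a, ‖R₂ a‖ ≤ 1 / 2 * ‖a‖ := by
    intro a
    apply norm_le_of_En hp _ (by positivity)
    have h1 : En p.toReal (R₂ a : ℕ → 𝕜) ≤ ENNReal.ofReal ((1 / 2) ^ p.toReal) *
        En p.toReal (a : ℕ → 𝕜) := En_R_le p.toReal hP.le τ l _ hS2 (a : ℕ → 𝕜)
    refine h1.trans ?_
    rw [En_lp hp, ← ENNReal.ofReal_mul (by positivity),
      Real.mul_rpow (by positivity) (norm_nonneg _)]
  set J₀ := R₁ + R₂ with hJ₀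
  have hJ₀app : ∀ a, J₀ a = R₁ a + R₂ a := fun a => rfl
  let J : lp (fun _ : ℕ => 𝕜) p →L[𝕜] lp (fun _ : ℕ => 𝕜) p :=
    LinearMap.mkContinuous J₀ 2 (by
      intro a
      rw [hJ₀app]
      have h1 := norm_add_le (R₁ a) (R₂ a)
      have h2 := hR₁norm a
      have h3 := hR₂norm a
      have h4 := norm_nonneg a
      linarith)
  have hJapp : ∀ a, J a = R₁ a + R₂ a := fun a => rfl
  have hJlow : ∀ a, ‖a‖ ≤ 2 * ‖J a‖ := by
    intro a
    rw [hJapp]
    have h1 : ‖R₁ a‖ ≤ ‖R₁ a + R₂ a‖ + ‖R₂ a‖ := by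
      have := norm_sub_le (R₁ a + R₂ a) (R₂ a)
      rwa [add_sub_cancel_right] at this
    have h2 := hR₁norm a
    have h3 := hR₂norm a
    linarith
  have hanti : AntilipschitzWith 2 J := J.antilipschitz_of_bound (K := 2) (by
    intro a; exact_mod_cast hJlow a)
  have hinj : Function.Injective J := hanti.injective
  refine ⟨LinearMap.range (J : lp (fun _ : ℕ => 𝕜) p →ₗ[𝕜] lp (fun _ : ℕ => 𝕜) p), ?_, ?_, ?_⟩
  · rw [LinearMap.coe_range]
    exact hanti.isClosed_range J.uniformContinuous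
  · intro hfd
    have e := LinearEquiv.ofInjective
      (J : lp (fun _ : ℕ => 𝕜) p →ₗ[𝕜] lp (fun _ : ℕ => 𝕜) p) hinj
    exact infinite_dim_lp (𝕜 := 𝕜) (p := p)
      (FiniteDimensional.of_injective e.toLinearMap e.injective)
  · rintro x ⟨a, rfl⟩ hne U hU hUne
    have ha : a ≠ 0 := by
      rintro rfl
      exact hne (by simp)
    obtain ⟨b, hb⟩ : ∃ b, a b ≠ 0 := by
      by_contra hcon
      push Not at hcon
      exact ha (lp.ext (funext fun b => by rw [hcon b]; rfl))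
    rw [lowerDensity_pos_iff]
    obtain ⟨u, hu⟩ := hUne
    obtain ⟨ε, hε, hball⟩ := Metric.isOpen_iff.1 hU u hu
    -- open set of targets
    have hVopen : IsOpen {y : lp (fun _ : ℕ => 𝕜) p | ‖a b • y - u‖ < ε / 3} := by
      apply isOpen_lt _ continuous_const
      exact ((continuous_const_smul (a b)).sub continuous_const).norm
    have hVne : {y : lp (fun _ : ℕ => 𝕜) p | ‖a b • y - u‖ < ε / 3}.Nonempty := by
      refine ⟨(a b)⁻¹ • u, ?_⟩
      show ‖a b • (a b)⁻¹ • u - u‖ < ε / 3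
      rw [smul_inv_smul₀ hb, sub_self, norm_zero]
      positivity
    obtain ⟨y, hyV, hy⟩ := hτmain a (R₂ a) (fun m => rfl) b _ hVopen hVne (ε / 3) (by positivity)
    obtain ⟨X, hX⟩ := block_orbit hp hw0 hw hμ hfin hA c hcμ a (R₁ a) (fun m => rfl)
      (show 0 < ε / 4 by positivity)
    obtain ⟨A', hA'A, hA'PD, hA'X, hA'⟩ := hy X
    refine hA'PD.mono fun n hn => ?_
    show ((shiftOp hp w hw) ^ n) (J a) ∈ U
    apply hball
    rw [Metric.mem_ball, dist_eq_norm, hJapp, map_add]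
    have h1 := hX n (hA'X n hn) (hA'A hn)
    have h2 := hA' n hn
    have h3 : ‖a b • y - u‖ < ε / 3 := hyV
    have h4 : ((shiftOp hp w hw) ^ n) (R₁ a) + ((shiftOp hp w hw) ^ n) (R₂ a) - u =
        ((shiftOp hp w hw) ^ n) (R₁ a) +
        ((((shiftOp hp w hw) ^ n) (R₂ a) - a b • y) + (a b • y - u)) := by abel
    rw [h4]
    have h5 := norm_add_le (((shiftOp hp w hw) ^ n) (R₁ a))
      ((((shiftOp hp w hw) ^ n) (R₂ a) - a b • y) + (a b • y - u))
    have h6 := norm_add_le (((shiftOp hp w hw) ^ n) (R₂ a) - a b • y) (a b • y - u)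
    linarith

end Pool.Agent.Work.MP_0403fc_an_explicit
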