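import Mathlib
import Pool.Agent.Work.MP_0403fc_an_explicit.Construct

set_option autoImplicit false

open Filter Topology
open scoped ENNReal

namespace Pool.Agent.Work.MP_0403fc_an_explicit

lemma exists_label (s : ℕ → ℕ) (hs : StrictMono s) (hs0 : s 0 = 0) :
    ∃ c : ℕ → ℕ, ∀ i b, c i = b ↔ s b ≤ i ∧ i < s (b + 1) := by
  have hex : ∀ i, ∃ b, i < s (b + 1) := fun i => ⟨i, by have := hs.le_apply (x := i + 1); omega⟩
  classical
  refine ⟨fun i => Nat.find (hex i), fun i b => ?_⟩
  rw [Nat.find_eq_iff]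
  constructor
  · rintro ⟨h1, h2⟩
    refine ⟨?_, h1⟩
    cases b with
    | zero => rw [hs0]; exact Nat.zero_le _
    | succ b =>
      have := h2 b (Nat.lt_succ_self b)
      omega
  · rintro ⟨h1, h2⟩
    refine ⟨h2, fun n hn h => ?_⟩
    have := hs.monotone (show n + 1 ≤ b by omega)
    omega

lemma hasBlocks_of_seq {P : ℝ} {nW : ℕ → ℝ} (hnW : ∀ k, 0 < nW k) {A : Set ℕ} (hA : PD A)
    (J : ℕ → ℕ) (hJ : StrictMono J) (s : ℕ → ℕ) (hs : StrictMono s) (hs0 : s 0 = 0)
    (t : ℕ → ℝ) (ht : ∀ i, 0 ≤ t i)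
    (h1 : ∀ b, ∑ i ∈ Finset.Ico (s b) (s (b + 1)), t i = 1) (C : ℝ)
    (hC : ∀ n ∈ A, ∀ b, ∑ i ∈ (Finset.Ico (s b) (s (b + 1))).filter (fun i => n ≤ J i),
      t i * (nW (J i) / nW (J i - n)) ^ P ≤ C) :
    HasBlocks P nW := by
  classical
  obtain ⟨c, hc⟩ := exists_label s hs hs0
  set β : ℕ → ℕ := Function.extend J c 0 with hβ
  set μ : ℕ → ℝ := Function.extend J t 0 with hμ
  have hβJ : ∀ i, β (J i) = c i := fun i => hJ.injective.extend_apply c 0 i
  have hμJ : ∀ i, μ (J i) = t i := fun i => hJ.injective.extend_apply t 0 i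
  have hμ0 : ∀ m, m ∉ Set.range J → μ m = 0 := by
    intro m hm
    rw [hμ, Function.extend_apply' _ _ _ (by rintro ⟨i, hi⟩; exact hm ⟨i, hi⟩)]
    rfl
  refine ⟨A, β, μ, C, hA, ?_, ?_, ?_, ?_⟩
  · intro m
    by_cases hm : m ∈ Set.range J
    · obtain ⟨i, rfl⟩ := hm
      rw [hμJ]; exact ht i
    · rw [hμ0 m hm]
  · intro b
    rw [← hJ.injective.tsum_eq]
    · have h2 : ∀ i, (if β (J i) = b then ENNReal.ofReal (μ (J i)) else 0) =
          if i ∈ Finset.Ico (s b) (s (b + 1)) then ENNReal.ofReal (t i) else 0 := by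
        intro i
        rw [hβJ, hμJ]
        simp only [hc, Finset.mem_Ico]
      simp_rw [h2]
      rw [tsum_eq_sum (s := Finset.Ico (s b) (s (b + 1))) (by
        intro i hi
        rw [if_neg hi])]
      rw [Finset.sum_congr rfl (fun i hi => if_pos hi), ← ENNReal.ofReal_sum_of_nonneg
        (fun i _ => ht i), h1, ENNReal.ofReal_one]
    · intro m hm
      by_contra hcon
      rw [Function.mem_support] at hm
      apply hm
      rw [hμ0 m hcon]
      simp
  · intro b
    refine ⟨J (s (b + 1)), fun m hm hbm => ?_⟩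
    by_cases hr : m ∈ Set.range J
    · obtain ⟨i, rfl⟩ := hr
      rw [hβJ, hc] at hbm
      have := hJ hbm.2
      omega
    · exact hμ0 m hr
  · intro n hn b
    set F : ℕ → ℝ≥0∞ := fun m => if β m = b ∧ n ≤ m then
      ENNReal.ofReal (μ m * (nW m / nW (m - n)) ^ P) else 0 with hF
    have h2 : ∑' k, (if β (k + n) = b then
        ENNReal.ofReal (μ (k + n) * (nW (k + n) / nW k) ^ P) else 0) = ∑' k, F (k + n) := by
      congr 1
      ext k
      simp only [hF, Nat.add_sub_cancel, Nat.le_add_left, and_true]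
    rw [h2]
    refine (ENNReal.tsum_comp_le_tsum_of_injective (add_left_injective n) F).trans ?_
    rw [← hJ.injective.tsum_eq]
    · have h3 : ∀ i, F (J i) = if i ∈ (Finset.Ico (s b) (s (b + 1))).filter (fun i => n ≤ J i)
          then ENNReal.ofReal (t i * (nW (J i) / nW (J i - n)) ^ P) else 0 := by
        intro i
        simp only [hF]
        rw [hβJ, hμJ]
        simp only [hc, Finset.mem_filter, Finset.mem_Ico]
      simp_rw [h3]
      rw [tsum_eq_sum (s := (Finset.Ico (s b) (s (b + 1))).filter (fun i => n ≤ J i)) (by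
        intro i hi
        rw [if_neg hi])]
      rw [Finset.sum_congr rfl (fun i hi => if_pos hi), ← ENNReal.ofReal_sum_of_nonneg]
      · exact ENNReal.ofReal_le_ofReal (hC n hn b)
      · intro i _
        have h4 := ht i
        have h5 := hnW (J i)
        have h6 := hnW (J i - n)
        positivity
    · intro m hm
      by_contra hcon
      rw [Function.mem_support] at hm
      apply hm
      simp only [hF]
      rw [hμ0 m hcon]
      simp

lemma exists_blocks (θ : ℕ → ℝ) (h0 : ∀ i, 0 ≤ θ i) (hns : ¬ Summable θ) :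
    ∃ s : ℕ → ℕ, StrictMono s ∧ s 0 = 0 ∧ ∀ b, 1 ≤ ∑ i ∈ Finset.Ico (s b) (s (b + 1)), θ i := by
  have hstep : ∀ n : ℕ, ∃ n' : ℕ, n < n' ∧ 1 ≤ ∑ i ∈ Finset.Ico n n', θ i := by
    intro n
    have h1 := (not_summable_iff_tendsto_nat_atTop_of_nonneg h0).1 hns
    obtain ⟨N, hN⟩ := eventually_atTop.1
      (h1.eventually (eventually_ge_atTop (1 + ∑ i ∈ Finset.range n, θ i)))
    have h2 := hN (max N (n + 1)) (le_max_left _ _)
    refine ⟨max N (n + 1), lt_of_lt_of_le (Nat.lt_succ_self n) (le_max_right _ _), ?_⟩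
    have h3 : n ≤ max N (n + 1) := (Nat.le_succ n).trans (le_max_right _ _)
    rw [← Finset.sum_range_add_sum_Ico _ h3] at h2
    linarith
  choose F hF1 hF2 using hstep
  refine ⟨fun b => Nat.rec 0 (fun _ y => F y) b, ?_, rfl, fun b => hF2 _⟩
  exact strictMono_nat_of_lt_succ fun b => hF1 _

lemma exp_bound {x ρ : ℝ} (hx : 0 ≤ x) (h0 : 0 ≤ ρ) (h1 : ρ ≤ 1) :
    Real.exp (-(x * (1 - ρ))) ≤ Real.exp 1 * Real.exp (-x) + 2 * ρ := by
  rcases le_or_gt (x * ρ) 1 with h | h
  · have h2 : Real.exp (-(x * (1 - ρ))) ≤ Real.exp 1 * Real.exp (-x) := by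
      rw [← Real.exp_add]
      apply Real.exp_le_exp.2
      nlinarith
    linarith
  · have hρ : 0 < ρ := by
      rcases h0.lt_or_eq with h' | h'
      · exact h'
      · rw [← h', mul_zero] at h; linarith
    have h3 : 0 ≤ Real.exp 1 * Real.exp (-x) := by positivity
    rcases le_or_gt (1 / 2) ρ with h' | h'
    · have h2 : Real.exp (-(x * (1 - ρ))) ≤ 1 := by
        apply Real.exp_le_one_iff.2
        nlinarith
      linarith
    · have hx0 : 0 < x := by
        rcases hx.lt_or_eq with h' | h'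
        · exact h'
        · rw [← h', zero_mul] at h; linarith
      have h2 : Real.exp (-(x * (1 - ρ))) ≤ Real.exp (-(x / 2)) := by
        apply Real.exp_le_exp.2
        nlinarith
      have h4 : Real.exp (-(x / 2)) ≤ 2 * ρ := by
        rw [Real.exp_neg]
        have h5 : x / 2 ≤ Real.exp (x / 2) := by
          have := Real.add_one_le_exp (x / 2); linarith
        have h6 : (Real.exp (x / 2))⁻¹ ≤ (x / 2)⁻¹ := inv_anti₀ (by positivity) h5
        refine h6.trans ?_
        rw [inv_le_iff_one_le_mul₀ (by positivity)]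
        nlinarith
      linarith

lemma geom_bound (ρ : ℕ → ℝ) (h0 : ∀ i, 0 ≤ ρ i) (hr : ∀ i, ρ (i + 1) ≤ ρ i / 2)
    (F : Finset ℕ) (hF : ∀ i ∈ F, ρ i ≤ 1) : ∑ i ∈ F, ρ i ≤ 2 := by
  rcases F.eq_empty_or_nonempty with rfl | hne
  · simp
  · set i₀ := F.min' hne with hi₀
    set i₁ := F.max' hne with hi₁
    have hsub : F ⊆ Finset.Ico i₀ (i₁ + 1) := by
      intro i hi
      rw [Finset.mem_Ico]
      exact ⟨F.min'_le i hi, Nat.lt_succ_of_le (F.le_max' i hi)⟩
    have hle : i₀ ≤ i₁ + 1 := (F.min'_le_max' hne).trans (Nat.le_succ _)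
    have hind : ∀ n, i₀ ≤ n → ∑ i ∈ Finset.Ico i₀ n, ρ i ≤ 2 * ρ i₀ - 2 * ρ n := by
      intro n hn
      induction n, hn using Nat.le_induction with
      | base => simp
      | succ n hn ih =>
        rw [Finset.sum_Ico_succ_top hn]
        have := hr n
        linarith
    have h1 := hind _ hle
    have h2 := hF i₀ (F.min'_mem hne)
    have h3 := h0 (i₁ + 1)
    have h4 := Finset.sum_le_sum_of_subset_of_nonneg hsub (f := ρ) (fun i _ _ => h0 i)
    linarith

lemma cnt_ge_Ioc {A : Set ℕ} {a b K : ℕ} (h : ∀ n, a < n → n ≤ b → n ∈ A) (hbK : b < K) :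
    (b : ℝ) - a ≤ cnt A K := by
  have h1 : b - a ≤ cnt A K := by
    classical
    rw [cnt_eq_card, ← Nat.card_Ioc]
    apply Finset.card_le_card
    intro n hn
    rw [Finset.mem_Ioc] at hn
    simp only [Finset.mem_filter, Finset.mem_range]
    exact ⟨by omega, h n hn.1 hn.2⟩
  have h2 : (b : ℝ) ≤ cnt A K + a := by exact_mod_cast (by omega : b ≤ cnt A K + a)
  linarith

/-- the set of good times in Case I -/
lemma pd_caseI (M : ℕ → ℕ) (hM0 : 0 < M 0) (Q ε : ℝ) (hε : 0 < ε) (hε1 : ε ≤ 1) (hQ2 : 2 ≤ Q)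
    (hQ : 2 / ε ≤ Q) (hM : ∀ i, Q * M i ≤ M (i + 1)) :
    PD {n : ℕ | ∀ i, ¬ (ε * M i < n ∧ n ≤ M i)} := by
  set A : Set ℕ := {n : ℕ | ∀ i, ¬ (ε * M i < n ∧ n ≤ M i)} with hA
  have hMpos : ∀ i, 0 < M i := by
    intro i
    induction i with
    | zero => exact hM0
    | succ i ih =>
      have h1 := hM i
      have h2 : (0 : ℝ) < M i := by exact_mod_cast ih
      have h3 : (0 : ℝ) < M (i + 1) := by nlinarith
      exact_mod_cast h3
  have hM2 : ∀ i, 2 * M i ≤ M (i + 1) := by
    intro i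
    have h1 := hM i
    have h2 : (0 : ℝ) < M i := by exact_mod_cast hMpos i
    have h3 : (2 : ℝ) * M i ≤ M (i + 1) := by nlinarith
    exact_mod_cast h3
  have hMstrict : StrictMono M := strictMono_nat_of_lt_succ fun i => by
    have := hM2 i; have := hMpos i; omega
  refine ⟨ε ^ 2 / 8, by positivity, ⌈ε * M 1 + 8 / ε ^ 2⌉₊ + 1, fun K hK => ?_⟩
  have hK1 : ε * M 1 + 8 / ε ^ 2 < K := by
    have h1 : (⌈ε * M 1 + 8 / ε ^ 2⌉₊ : ℝ) < K := by exact_mod_cast hK
    exact (Nat.le_ceil _).trans_lt h1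
  have hex : ∃ i, (K : ℝ) ≤ ε * M i := by
    obtain ⟨i, hi⟩ := exists_nat_ge ((K : ℝ) / ε)
    refine ⟨i, ?_⟩
    rw [div_le_iff₀ hε] at hi
    have : (i : ℝ) ≤ M i := by exact_mod_cast hMstrict.le_apply
    nlinarith
  classical
  obtain ⟨i, hi1, hi2⟩ : ∃ i, ε * M (i + 1) < K ∧ K ≤ ε * M (i + 2) := by
    have hspec := Nat.find_spec hex
    have hmin := fun j => Nat.find_min hex (m := j)
    set i' := Nat.find hex
    have hM1 : ε * M 1 < K := by
      have : 0 < 8 / ε ^ 2 := by positivity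
      linarith
    have h2 : 2 ≤ i' := by
      by_contra hcon
      have h3 : i' ≤ 1 := by omega
      have h4 : (M i' : ℝ) ≤ M 1 := by exact_mod_cast hMstrict.monotone h3
      nlinarith
    refine ⟨i' - 2, ?_, ?_⟩
    · have := hmin (i' - 2 + 1) (by omega)
      exact not_le.1 this
    · rwa [Nat.sub_add_cancel h2]
  have hMi : (0 : ℝ) < M i := by exact_mod_cast hMpos i
  have hMi1 : (0 : ℝ) < M (i + 1) := by exact_mod_cast hMpos (i + 1)
  have hMM : (M i : ℝ) ≤ ε / 2 * M (i + 1) := by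
    have h1 := hM i
    have h2 : 2 / ε * M i ≤ M (i + 1) := (mul_le_mul_of_nonneg_right hQ hMi.le).trans h1
    rw [div_mul_eq_mul_div, div_le_iff₀ hε] at h2
    linarith
  have h8 : 8 ≤ ε ^ 2 * K := by
    have h1 : 8 / ε ^ 2 ≤ K := by
      have : 0 < ε * M 1 := by have : (0 : ℝ) < M 1 := by exact_mod_cast hMpos 1
                               positivity
      linarith
    rw [div_le_iff₀ (by positivity)] at h1
    linarith
  have hK0 : (0 : ℝ) < K := by
    have : 0 < ε * M (i + 1) := by positivity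
    linarith
  rcases le_or_gt (K : ℝ) (2 / ε * M (i + 1)) with hcase | hcase
  · have h1 : ((⌊ε * M (i + 1)⌋₊ : ℕ) : ℝ) - M i ≤ cnt A K := by
      apply cnt_ge_Ioc
      · intro n hn1 hn2 j hj
        rcases Nat.lt_or_ge i j with h | h
        · have h3 : (n : ℝ) ≤ ε * M (i + 1) :=
            (by exact_mod_cast hn2 : (n : ℝ) ≤ ⌊ε * M (i + 1)⌋₊).trans
              (Nat.floor_le (by positivity))
          have h4 : (M (i + 1) : ℝ) ≤ M j := by exact_mod_cast hMstrict.monotone h
          have h5 : ε * M (i + 1) ≤ ε * M j := mul_le_mul_of_nonneg_left h4 hε.le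
          linarith [hj.1]
        · have h3 := hMstrict.monotone h
          have h4 : n ≤ M j := by exact_mod_cast hj.2
          omega
      · have h3 : ((⌊ε * M (i + 1)⌋₊ : ℕ) : ℝ) < K := (Nat.floor_le (by positivity)).trans_lt hi1
        exact_mod_cast h3
    have h2 := Nat.lt_floor_add_one (ε * M (i + 1))
    rw [div_mul_eq_mul_div, le_div_iff₀ hε] at hcase
    have h3 : ε ^ 2 * K ≤ 2 * (ε * M (i + 1)) := by nlinarith
    nlinarith
  · have h1 : ((K - 1 : ℕ) : ℝ) - M (i + 1) ≤ cnt A K := by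
      have hKpos : 0 < K := by exact_mod_cast hK0
      apply cnt_ge_Ioc
      · intro n hn1 hn2 j hj
        rcases Nat.lt_or_ge (i + 1) j with h | h
        · have h3 : (n : ℝ) ≤ K := by exact_mod_cast (by omega : n ≤ K)
          have h4 : (M (i + 2) : ℝ) ≤ M j := by exact_mod_cast hMstrict.monotone h
          have h5 : ε * M (i + 2) ≤ ε * M j := mul_le_mul_of_nonneg_left h4 hε.le
          linarith [hj.1]
        · have h3 := hMstrict.monotone h
          have h4 : n ≤ M j := by exact_mod_cast hj.2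
          omega
      · omega
    have hKpos : 1 ≤ K := by exact_mod_cast hK0
    rw [Nat.cast_sub hKpos, Nat.cast_one] at h1
    have h3 : (M (i + 1) : ℝ) ≤ ε / 2 * K := by
      rw [div_mul_eq_mul_div, div_lt_iff₀ hε] at hcase
      linarith
    have h4 : ε ^ 2 ≤ 1 := by nlinarith
    have h5 : ε ^ 2 * K ≤ K := by nlinarith
    nlinarith

theorem caseI {φ : ℕ → ℝ} {P δ Λ : ℝ} (hP : 1 ≤ P) (hδ : 0 < δ) (hδ1 : δ ≤ 1) (hΛ : 0 ≤ Λ)
    (M J : ℕ → ℕ) (x : ℕ → ℝ) (hx : ∀ i, 0 ≤ x i) (Q : ℝ) (hQ2 : 2 ≤ Q)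
    (hQ : 2 / (δ / (4 * P)) ≤ Q) (hM0 : 0 < M 0) (hM : ∀ i, Q * M i ≤ M (i + 1))
    (hJM : ∀ i, J i ≤ M i) (hJM2 : ∀ i, M i < 2 * J i)
    (hG : ∀ i (n : ℕ), (n : ℝ) ≤ δ * M i / 4 → n ≤ J i →
      φ (J i) - 4 * (x i + Λ) / (δ * M i) * n ≤ φ (J i - n))
    (hns : ¬ Summable fun i => Real.exp (-x i)) :
    HasBlocks P (fun n => Real.exp (φ n)) := by
  set ε : ℝ := δ / (4 * P) with hε'
  have hP0 : 0 < P := by linarith
  have hε : 0 < ε := by positivity
  have hε1 : ε ≤ δ / 4 := by
    rw [hε', div_le_div_iff₀ (by positivity) (by norm_num)]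
    nlinarith
  have hMpos : ∀ i, 0 < M i := by
    intro i
    have := hJM2 i
    have := hJM i
    omega
  have hM2 : ∀ i, 2 * M i ≤ M (i + 1) := by
    intro i
    have h1 := hM i
    have h2 : (0 : ℝ) < M i := by exact_mod_cast hMpos i
    have h3 : (2 : ℝ) * M i ≤ M (i + 1) := by nlinarith
    exact_mod_cast h3
  have hJ : StrictMono J := strictMono_nat_of_lt_succ fun i => by
    have := hM2 i; have := hJM i; have := hJM2 (i + 1); omega
  obtain ⟨s, hs, hs0, hblk⟩ := exists_blocks _ (fun i => (Real.exp_pos (-x i)).le) hns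
  obtain ⟨c, hc⟩ := exists_label s hs hs0
  set S : ℕ → ℝ := fun b => ∑ i ∈ Finset.Ico (s b) (s (b + 1)), Real.exp (-x i) with hS
  have hS1 : ∀ b, 1 ≤ S b := hblk
  set t : ℕ → ℝ := fun i => Real.exp (-x i) / S (c i) with ht
  have hcb : ∀ b, ∀ i ∈ Finset.Ico (s b) (s (b + 1)), c i = b := by
    intro b i hi
    rw [Finset.mem_Ico] at hi
    exact (hc i b).2 hi
  refine hasBlocks_of_seq (P := P) (nW := fun n => Real.exp (φ n)) (fun k => Real.exp_pos _)
    (pd_caseI M hM0 Q ε hε (by linarith) hQ2 hQ hM) J hJ s hs hs0 t ?_ ?_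
    (Real.exp Λ * (Real.exp 1 + 4)) ?_
  · intro i
    have := hS1 (c i)
    have := Real.exp_pos (-x i)
    positivity
  · intro b
    rw [Finset.sum_congr rfl (fun i hi => by
      show t i = Real.exp (-x i) / S b
      simp only [ht]; rw [hcb b i hi])]
    rw [← Finset.sum_div]
    exact div_self (by have := hS1 b; linarith)
  · intro n hn b
    have hSb : 0 < S b := by have := hS1 b; linarith
    set ρ : ℕ → ℝ := fun i => n / (ε * M i) with hρ
    have hρ0 : ∀ i, 0 ≤ ρ i := fun i => by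
      have := hMpos i
      simp only [hρ]; positivity
    have hρr : ∀ i, ρ (i + 1) ≤ ρ i / 2 := by
      intro i
      simp only [hρ]
      have h1 : (0 : ℝ) < M i := by exact_mod_cast hMpos i
      have h2 : (2 : ℝ) * M i ≤ M (i + 1) := by exact_mod_cast hM2 i
      rw [div_div]
      apply div_le_div_of_nonneg_left (Nat.cast_nonneg n) (by positivity)
      nlinarith
    have hρ1 : ∀ i ∈ (Finset.Ico (s b) (s (b + 1))).filter (fun i => n ≤ J i), ρ i ≤ 1 := by
      intro i hi
      rw [Finset.mem_filter] at hi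
      have h1 : n ≤ M i := hi.2.trans (hJM i)
      have h2 := hn i
      rw [not_and_or] at h2
      have h3 : (n : ℝ) ≤ ε * M i := by
        rcases h2 with h2 | h2
        · exact not_lt.1 h2
        · exact absurd h1 h2
      have h4 : (0 : ℝ) < M i := by exact_mod_cast hMpos i
      simp only [hρ]
      rw [div_le_one (by positivity)]
      exact h3
    have hterm : ∀ i ∈ (Finset.Ico (s b) (s (b + 1))).filter (fun i => n ≤ J i),
        t i * (Real.exp (φ (J i)) / Real.exp (φ (J i - n))) ^ P ≤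
          Real.exp Λ / S b * (Real.exp 1 * Real.exp (-x i) + 2 * ρ i) := by
      intro i hi
      have hρi := hρ1 i hi
      rw [Finset.mem_filter] at hi
      have h4 : (0 : ℝ) < M i := by exact_mod_cast hMpos i
      have hnε : (n : ℝ) ≤ ε * M i := by
        simp only [hρ] at hρi
        rwa [div_le_one (by positivity)] at hρi
      have h5 : (n : ℝ) ≤ δ * M i / 4 := by nlinarith
      have h6 := hG i n h5 hi.2
      rw [← Real.exp_sub, ← Real.exp_mul]
      have h7 : t i = Real.exp (-x i) / S b := by simp only [ht]; rw [hcb b i hi.1]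
      have h8 : 4 * (x i + Λ) / (δ * M i) * n * P = (x i + Λ) * ρ i := by
        simp only [hρ, hε']
        field_simp
      have h9 : (φ (J i) - φ (J i - n)) * P ≤ x i * ρ i + Λ := by
        have h10 : φ (J i) - φ (J i - n) ≤ 4 * (x i + Λ) / (δ * M i) * n := by linarith
        have h11 : (φ (J i) - φ (J i - n)) * P ≤ 4 * (x i + Λ) / (δ * M i) * n * P :=
          mul_le_mul_of_nonneg_right h10 hP0.le
        rw [h8] at h11
        nlinarith [hρ0 i]
      have h12 := exp_bound (hx i) (hρ0 i) hρi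
      calc t i * Real.exp ((φ (J i) - φ (J i - n)) * P)
          ≤ Real.exp (-x i) / S b * Real.exp (x i * ρ i + Λ) := by
            rw [h7]
            apply mul_le_mul_of_nonneg_left (Real.exp_le_exp.2 h9)
            have := Real.exp_pos (-x i)
            positivity
        _ = Real.exp Λ / S b * Real.exp (-(x i * (1 - ρ i))) := by
            have : -(x i * (1 - ρ i)) = -x i + x i * ρ i := by ring
            rw [this, Real.exp_add, Real.exp_add]
            ring
        _ ≤ _ := by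
            apply mul_le_mul_of_nonneg_left h12
            have := Real.exp_pos Λ
            positivity
    refine (Finset.sum_le_sum hterm).trans ?_
    rw [← Finset.mul_sum, Finset.sum_add_distrib, ← Finset.mul_sum, ← Finset.mul_sum]
    have h1 := geom_bound ρ hρ0 hρr _ hρ1
    have h2 : ∑ i ∈ (Finset.Ico (s b) (s (b + 1))).filter (fun i => n ≤ J i),
        Real.exp (-x i) ≤ S b :=
      Finset.sum_le_sum_of_subset_of_nonneg (Finset.filter_subset _ _)
        (fun i _ _ => (Real.exp_pos _).le)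
    have hΛ' := Real.exp_pos Λ
    have he := Real.exp_pos 1
    calc Real.exp Λ / S b * (Real.exp 1 * ∑ i ∈ (Finset.Ico (s b) (s (b + 1))).filter
          (fun i => n ≤ J i), Real.exp (-x i) +
          2 * ∑ i ∈ (Finset.Ico (s b) (s (b + 1))).filter (fun i => n ≤ J i), ρ i)
        ≤ Real.exp Λ / S b * (Real.exp 1 * S b + 4 * S b) := by
          apply mul_le_mul_of_nonneg_left _ (by positivity)
          have := hS1 b
          nlinarith
      _ = Real.exp Λ * (Real.exp 1 + 4) := by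
          field_simp

end Pool.Agent.Work.MP_0403fc_an_explicit
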