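import Mathlib
import Pool.Agent.Work.MP_0403fc_an_explicit.Comb

set_option autoImplicit false

open Filter Topology
open scoped ENNReal

namespace Pool.Agent.Work.MP_0403fc_an_explicit

lemma cnt_sub (A : Set ℕ) [DecidablePred (· ∈ A)] {a b : ℕ} (hab : a ≤ b) :
    cnt A b = cnt A a + ((Finset.Ico a b).filter (· ∈ A)).card := by
  classical
  rw [cnt_eq_card, cnt_eq_card]
  rw [← Finset.card_union_of_disjoint]
  · congr 1
    ext x
    simp only [Finset.mem_filter, Finset.mem_range, Finset.mem_union, Finset.mem_Ico]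
    constructor
    · rintro ⟨h1, h2⟩
      rcases Nat.lt_or_ge x a with h | h
      · exact Or.inl ⟨h, h2⟩
      · exact Or.inr ⟨⟨h, h1⟩, h2⟩
    · rintro (⟨h1, h2⟩ | ⟨⟨h1, h2⟩, h3⟩)
      · exact ⟨by omega, h2⟩
      · exact ⟨h2, h3⟩
  · rw [Finset.disjoint_left]
    intro x hx hx'
    simp only [Finset.mem_filter, Finset.mem_range, Finset.mem_Ico] at hx hx'
    omega

lemma caseII_point {φ : ℕ → ℝ} {b δ Λ : ℝ} (hb : 0 ≤ b) (hφ : ∀ k, φ (k + 1) ≤ φ k + b)
    (hδ : 0 < δ) (hδ1 : δ ≤ 1) (hΛ : 0 ≤ Λ) (m X : ℕ) (hm : ((X : ℝ) + 1) / δ ≤ m)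
    (hcount : 2 * δ * m ≤ cnt {i | φ m + Λ ≤ φ i} m) :
    ∃ z : ℕ, X ≤ z ∧ (∀ n : ℕ, b * n ≤ Λ → n ≤ z → φ z ≤ φ (z - n)) ∧
      ∀ K : ℕ, K ≤ z + 1 → δ * K ≤ cnt {n | φ z ≤ φ (z - n)} K := by
  classical
  set H : Set ℕ := {i | φ m + Λ ≤ φ i} with hH
  have hm0 : (0 : ℝ) < m := lt_of_lt_of_le (by positivity) hm
  -- the record point
  obtain ⟨y, hy, hymax⟩ := Finset.exists_max_image (Finset.range (m + 1))
    (fun y => (cnt H y : ℝ) - δ * y) ⟨0, by simp⟩
  rw [Finset.mem_range] at hy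
  have hym := hymax m (by simp)
  have hyc : (cnt H y : ℝ) ≤ y := by exact_mod_cast cnt_le H y
  have hy1 : δ * m ≤ y := by
    have : 0 ≤ δ * y := by positivity
    nlinarith
  have hyX : X + 1 ≤ y := by
    rw [div_le_iff₀ hδ] at hm
    have : ((X + 1 : ℕ) : ℝ) ≤ y := by push_cast; linarith
    exact_mod_cast this
  obtain ⟨h, rfl⟩ : ∃ h, y = h + 1 := ⟨y - 1, by omega⟩
  have hrec : ∀ x, x ≤ h + 1 → δ * ((h : ℝ) + 1 - x) ≤ cnt H (h + 1) - cnt H x := by
    intro x hx
    have := hymax x (by rw [Finset.mem_range]; omega)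
    push_cast at this
    linarith
  have hhH : h ∈ H := by
    by_contra hcon
    have h1 := hrec h (Nat.le_succ h)
    have h2 : cnt H (h + 1) = cnt H h := by
      unfold cnt
      rw [Nat.count_succ, if_neg hcon, add_zero]
    rw [h2] at h1
    linarith
  -- argmin on [h, m]
  obtain ⟨z, hz, hzmin⟩ := Finset.exists_min_image (Finset.Icc h m) φ
    ⟨m, by rw [Finset.mem_Icc]; omega⟩
  rw [Finset.mem_Icc] at hz
  have hzm : φ z ≤ φ m := hzmin m (by rw [Finset.mem_Icc]; omega)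
  have hhφ : φ m + Λ ≤ φ h := hhH
  have hdrop : ∀ x, x ≤ h → φ h ≤ φ x + b * ((h : ℝ) - x) := by
    intro x hx
    obtain ⟨d, rfl⟩ := Nat.exists_eq_add_of_le hx
    clear hx hhH hrec hymax hy hz hzmin hym hyc hy1 hyX hhφ
    induction d with
    | zero => simp
    | succ d ih =>
      have h1 := hφ (x + d)
      have h2 : (((x + d : ℕ) : ℝ) - x) = d := by push_cast; ring
      rw [h2] at ih
      have h3 : (((x + (d + 1) : ℕ) : ℝ) - x) = d + 1 := by push_cast; ring
      rw [h3, ← add_assoc]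
      linarith
  refine ⟨z, by omega, ?_, ?_⟩
  · intro n hn hnz
    rcases Nat.lt_or_ge (z - n) h with hlt | hge
    · have h1 := hdrop (z - n) hlt.le
      have h2 : (h : ℝ) - ((z - n : ℕ) : ℝ) ≤ n := by
        have : h ≤ z - n + n := by omega
        have h3 : (h : ℝ) ≤ ((z - n : ℕ) : ℝ) + n := by exact_mod_cast this
        linarith
      have h3 : b * ((h : ℝ) - ((z - n : ℕ) : ℝ)) ≤ b * n := mul_le_mul_of_nonneg_left h2 hb
      linarith
    · exact hzmin _ (by rw [Finset.mem_Icc]; omega)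
  · intro K hK
    -- reflect
    have hcard : ((Finset.Ico (z + 1 - K) (z + 1)).filter (fun x => φ z ≤ φ x)).card ≤
        cnt {n | φ z ≤ φ (z - n)} K := by
      rw [cnt_eq_card]
      apply Finset.card_le_card_of_injOn (fun x => z - x)
      · intro x hx
        simp only [Finset.coe_filter, Finset.mem_Ico, Set.mem_ofPred_eq, Finset.mem_range] at hx ⊢
        refine ⟨by omega, ?_⟩
        rw [show z - (z - x) = x by omega]
        exact hx.2
      · intro x hx x' hx' hxx
        simp only [Finset.coe_filter, Finset.mem_Ico, Set.mem_ofPred_eq] at hx hx' hxx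
        omega
    have hcard' : (((Finset.Ico (z + 1 - K) (z + 1)).filter (fun x => φ z ≤ φ x)).card : ℝ) ≤
        cnt {n | φ z ≤ φ (z - n)} K := by exact_mod_cast hcard
    refine le_trans ?_ hcard'
    rcases Nat.lt_or_ge (z + 1 - K) h with hlt | hge
    · -- z + 1 - K < h
      set y := z + 1 - K with hy
      have hsub : (Finset.Ico y (h + 1)).filter (· ∈ H) ∪ Finset.Ico (h + 1) (z + 1) ⊆
          (Finset.Ico y (z + 1)).filter (fun x => φ z ≤ φ x) := by
        intro x hx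
        simp only [Finset.mem_union, Finset.mem_filter, Finset.mem_Ico] at hx ⊢
        rcases hx with ⟨⟨h1, h2⟩, h3⟩ | ⟨h1, h2⟩
        · refine ⟨⟨h1, by omega⟩, ?_⟩
          have h4 : φ m + Λ ≤ φ x := h3
          linarith
        · exact ⟨⟨by omega, h2⟩, hzmin x (by rw [Finset.mem_Icc]; omega)⟩
      have hdisj : Disjoint ((Finset.Ico y (h + 1)).filter (· ∈ H)) (Finset.Ico (h + 1) (z + 1)) := by
        rw [Finset.disjoint_left]
        intro x hx hx'
        simp only [Finset.mem_filter, Finset.mem_Ico] at hx hx'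
        omega
      have h1 := Finset.card_le_card hsub
      rw [Finset.card_union_of_disjoint hdisj, Nat.card_Ico] at h1
      have h2 := cnt_sub H (show y ≤ h + 1 by omega)
      have h3 := hrec y (by omega)
      have h4 : (cnt H (h + 1) : ℝ) = cnt H y + ((Finset.Ico y (h + 1)).filter (· ∈ H)).card := by
        exact_mod_cast h2
      have h5 : (((Finset.Ico y (h + 1)).filter (· ∈ H)).card : ℝ) + ((z : ℝ) - h) ≤
          ((Finset.Ico y (z + 1)).filter (fun x => φ z ≤ φ x)).card := by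
        have h6 : z + 1 - (h + 1) + h = z := by omega
        have h7 : ((Finset.Ico y (h + 1)).filter (· ∈ H)).card + z ≤
          ((Finset.Ico y (z + 1)).filter (fun x => φ z ≤ φ x)).card + h := by omega
        have h8 : (((Finset.Ico y (h + 1)).filter (· ∈ H)).card : ℝ) + z ≤
          ((Finset.Ico y (z + 1)).filter (fun x => φ z ≤ φ x)).card + h := by exact_mod_cast h7
        linarith
      have h9 : (K : ℝ) = z + 1 - y := by
        have : K + y = z + 1 := by omega
        have h10 : (K : ℝ) + y = z + 1 := by exact_mod_cast this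
        linarith
      have h10 : (h : ℝ) ≤ z := by exact_mod_cast hz.1
      rw [h9]
      nlinarith
    · -- all of them are good
      have heq : (Finset.Ico (z + 1 - K) (z + 1)).filter (fun x => φ z ≤ φ x) =
          Finset.Ico (z + 1 - K) (z + 1) := by
        rw [Finset.filter_eq_self]
        intro x hx
        rw [Finset.mem_Ico] at hx
        exact hzmin x (by rw [Finset.mem_Icc]; omega)
      rw [heq, Nat.card_Ico, show z + 1 - (z + 1 - K) = K by omega]
      have : (0 : ℝ) ≤ K := Nat.cast_nonneg K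
      nlinarith

lemma cnt_diff_le {A B : Set ℕ} {a K : ℕ} (h : ∀ n, a ≤ n → n < K → n ∈ B → n ∈ A) :
    (cnt B K : ℝ) - a ≤ cnt A K := by
  classical
  have h1 : cnt B K ≤ cnt A K + a := by
    rcases Nat.lt_or_ge K a with hlt | hge
    · have := cnt_le B K; omega
    · rw [cnt_sub B hge, cnt_sub A hge]
      have h2 := cnt_le B a
      have h3 : ((Finset.Ico a K).filter (· ∈ B)).card ≤ ((Finset.Ico a K).filter (· ∈ A)).card := by
        apply Finset.card_le_card
        intro n hn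
        simp only [Finset.mem_filter, Finset.mem_Ico] at hn ⊢
        exact ⟨hn.1, h n hn.1.1 hn.1.2 hn.2⟩
      omega
  have h2 : (cnt B K : ℝ) ≤ cnt A K + a := by exact_mod_cast h1
  linarith

theorem caseII {φ : ℕ → ℝ} {P δ : ℝ} (hP : 0 < P) (hδ : 0 < δ) (hδ1 : δ ≤ 1)
    (h : ∀ ℓ X : ℕ, ∃ z : ℕ, X ≤ z ∧ (∀ n : ℕ, n ≤ ℓ → n ≤ z → φ z ≤ φ (z - n)) ∧
      ∀ K : ℕ, K ≤ z + 1 → δ * K ≤ cnt {n | φ z ≤ φ (z - n)} K) :
    HasBlocks P (fun n => Real.exp (φ n)) := by
  obtain ⟨R, hR⟩ := exists_nat_ge (2 / δ)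
  have hR0 : (0 : ℝ) < R := lt_of_lt_of_le (by positivity) hR
  have hR2 : 2 ≤ R := by
    have : (2 : ℝ) ≤ R := by
      refine le_trans ?_ hR
      rw [le_div_iff₀ hδ]; linarith
    exact_mod_cast this
  choose F hF1 hF2 hF3 using h
  obtain ⟨z, hz0, hzs⟩ : ∃ z : ℕ → ℕ, z 0 = F 0 0 ∧
      ∀ i, z (i + 1) = F (R * (z i + 1)) (R * (z i + 1)) :=
    ⟨fun i => Nat.rec (F 0 0) (fun _ y => F (R * (y + 1)) (R * (y + 1))) i, rfl, fun i => rfl⟩
  have hz1 : ∀ i, R * (z i + 1) ≤ z (i + 1) := fun i => by rw [hzs]; exact hF1 _ _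
  have hz2 : ∀ i n, n ≤ R * (z i + 1) → n ≤ z (i + 1) →
      φ (z (i + 1)) ≤ φ (z (i + 1) - n) := fun i n => by
    rw [hzs]; exact hF2 _ _ n
  have hz3 : ∀ i K, K ≤ z i + 1 → δ * K ≤ cnt {n | φ (z i) ≤ φ (z i - n)} K := by
    intro i
    cases i with
    | zero => rw [hz0]; exact hF3 _ _
    | succ i => rw [hzs]; exact hF3 _ _
  have hzmono : StrictMono z := strictMono_nat_of_lt_succ fun i => by
    have := hz1 i
    nlinarith
  have hz2' : ∀ i j n, i < j → n ≤ R * (z i + 1) → n ≤ z j → φ (z j) ≤ φ (z j - n) := by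
    intro i j n hij hn hnz
    obtain ⟨j, rfl⟩ : ∃ j', j = j' + 1 := ⟨j - 1, by omega⟩
    apply hz2 j n _ hnz
    have : z i ≤ z j := hzmono.monotone (by omega)
    exact hn.trans (Nat.mul_le_mul_left R (by omega))
  set A : Set ℕ := {n | ∀ i, n ≤ z i → φ (z i) ≤ φ (z i - n)} with hA
  have hPD : PD A := by
    refine ⟨δ / (2 * R), by positivity, z 1 + 1, fun K hK => ?_⟩
    have hex : ∃ i, K ≤ z i := ⟨K, hzmono.le_apply⟩
    classical
    obtain ⟨i, hi1, hi2⟩ : ∃ i, z (i + 1) < K ∧ K ≤ z (i + 2) := by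
      have hspec := Nat.find_spec hex
      have hmin := fun j => Nat.find_min hex (m := j)
      set i' := Nat.find hex
      have h2 : 2 ≤ i' := by
        by_contra hcon
        have h3 : i' ≤ 1 := by omega
        have h4 := hzmono.monotone h3
        omega
      refine ⟨i' - 2, ?_, ?_⟩
      · have := hmin (i' - 2 + 1) (by omega)
        exact not_le.1 this
      · rwa [Nat.sub_add_cancel h2]
    have hKpos : (0 : ℝ) < K := by exact_mod_cast (by omega : 0 < K)
    rcases Nat.lt_or_ge K (R * (z (i + 1) + 1)) with hlt | hge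
    · -- use z (i+1)
      have h1 : (cnt {n | φ (z (i + 1)) ≤ φ (z (i + 1) - n)} (z (i + 1) + 1) : ℝ) -
          (((z i + 1 : ℕ)) : ℝ) ≤ cnt A (z (i + 1) + 1) := by
        apply cnt_diff_le (a := z i + 1)
        intro n hn1 hn2 hnB j hj
        rcases lt_trichotomy j (i + 1) with hj' | hj' | hj'
        · have := hzmono.monotone (show j ≤ i by omega); omega
        · rw [hj']; exact hnB
        · exact hz2' (i + 1) j n hj' (by nlinarith) hj
      have h2 := hz3 (i + 1) (z (i + 1) + 1) le_rfl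
      have h3 : (cnt A (z (i + 1) + 1) : ℝ) ≤ cnt A K := by
        exact_mod_cast cnt_mono (by omega : z (i + 1) + 1 ≤ K)
      have h4 : (K : ℝ) ≤ R * (z (i + 1) + 1) := by exact_mod_cast hlt.le
      have h5 : (R : ℝ) * ((z i : ℝ) + 1) ≤ (z (i + 1) : ℝ) + 1 := by
        exact_mod_cast (by have := hz1 i; omega : R * (z i + 1) ≤ z (i + 1) + 1)
      have h6 : ((z i : ℝ) + 1) ≤ δ / 2 * (z (i + 1) + 1) := by
        have h7 : 2 / δ * ((z i : ℝ) + 1) ≤ z (i + 1) + 1 :=
          (mul_le_mul_of_nonneg_right hR (by positivity)).trans h5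
        rw [div_mul_eq_mul_div, div_le_iff₀ hδ] at h7
        linarith
      push_cast at h1 h2
      have h8 : δ / (2 * R) * K ≤ δ / 2 * (z (i + 1) + 1) := by
        calc δ / (2 * R) * K ≤ δ / (2 * R) * (R * (z (i + 1) + 1)) := by gcongr
          _ = δ / 2 * (z (i + 1) + 1) := by field_simp
      linarith
    · have h1 : (cnt {n | φ (z (i + 2)) ≤ φ (z (i + 2) - n)} K : ℝ) -
          ((z (i + 1) + 1 : ℕ) : ℝ) ≤ cnt A K := by
        apply cnt_diff_le
        intro n hn1 hn2 hnB j hj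
        rcases lt_trichotomy j (i + 2) with hj' | hj' | hj'
        · have := hzmono.monotone (show j ≤ i + 1 by omega); omega
        · rw [hj']; exact hnB
        · exact hz2' (i + 2) j n hj' (by nlinarith) hj
      have h2 := hz3 (i + 2) K (by omega)
      have h5 : ((R : ℝ) * (z (i + 1) + 1)) ≤ K := by exact_mod_cast hge
      have h6 : ((z (i + 1) : ℝ) + 1) ≤ δ / 2 * K := by
        have h7 : 2 / δ * ((z (i + 1) : ℝ) + 1) ≤ K :=
          (mul_le_mul_of_nonneg_right hR (by positivity)).trans h5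
        rw [div_mul_eq_mul_div, div_le_iff₀ hδ] at h7
        linarith
      push_cast at h1
      have h8 : δ / (2 * R) * K ≤ δ / 2 * K := by
        apply mul_le_mul_of_nonneg_right _ hKpos.le
        apply div_le_div_of_nonneg_left hδ.le (by norm_num)
        have : (1 : ℝ) ≤ R := by exact_mod_cast (by omega : 1 ≤ R)
        linarith
      linarith
  refine hasBlocks_of_seq (fun k => Real.exp_pos _) hPD z hzmono id strictMono_id rfl
    (fun _ => 1) (fun _ => zero_le_one) ?_ 1 ?_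
  · intro b
    simp
  · intro n hn b
    rw [show Finset.Ico (id b) (id (b + 1)) = {b} from Nat.Ico_succ_singleton b]
    by_cases hnz : n ≤ z b
    · rw [Finset.filter_singleton, if_pos hnz, Finset.sum_singleton, one_mul, ← Real.exp_sub,
        ← Real.exp_mul]
      apply Real.exp_le_one_iff.2
      have := hn b hnz
      nlinarith
    · rw [Finset.filter_singleton, if_neg hnz, Finset.sum_empty]
      exact zero_le_one

/-- dichotomy at a single time -/
lemma dich {φ : ℕ → ℝ} {m : ℕ} {δ L Λ : ℝ} (hm : 0 < m) (hδ : 0 < δ)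
    (hL : 0 ≤ L) (hΛ : 0 ≤ Λ) (hcount : δ * m ≤ cnt {j | φ m - L ≤ φ j} m) :
    (∃ j : ℕ, (1 - δ / 4) * m < j ∧ j ≤ m ∧ ∀ n : ℕ, (n : ℝ) ≤ δ * m / 4 → n ≤ j →
      φ j - 4 * (L + Λ) / (δ * m) * n ≤ φ (j - n)) ∨
    ∃ m' : ℕ, (1 - δ / 2) * m ≤ m' ∧ m' ≤ m ∧
      δ / 2 * m' ≤ cnt {j | φ m' + Λ ≤ φ j} m' := by
  set lam : ℝ := 4 * (L + Λ) / (δ * m) with hlam
  have hm0 : (0 : ℝ) < m := by exact_mod_cast hm
  have hceil : ⌈(1 - δ / 2) * m⌉₊ ≤ m := by
    apply Nat.ceil_le.2
    nlinarith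
  obtain ⟨j, hj, hjmin⟩ := Finset.exists_min_image (Finset.Icc ⌈(1 - δ / 2) * m⌉₊ m)
    (fun x => φ x - lam * x) ⟨m, by rw [Finset.mem_Icc]; exact ⟨hceil, le_rfl⟩⟩
  rw [Finset.mem_Icc, Nat.ceil_le] at hj
  rcases lt_or_ge ((1 - δ / 4) * m) (j : ℝ) with hcase | hcase
  · left
    refine ⟨j, hcase, hj.2, fun n hn hnj => ?_⟩
    have h1 : ((j - n : ℕ) : ℝ) = j - n := by rw [Nat.cast_sub hnj]
    have h2 := hjmin (j - n) (by
      rw [Finset.mem_Icc, Nat.ceil_le, h1]
      exact ⟨by linarith, by omega⟩)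
    rw [h1] at h2
    linarith
  · right
    refine ⟨j, hj.1, hj.2, ?_⟩
    have h1 := hjmin m (by rw [Finset.mem_Icc]; exact ⟨hceil, le_rfl⟩)
    have h2 : L + Λ ≤ lam * (m - j) := by
      have h3 : δ * m / 4 ≤ m - j := by linarith
      have h4 : 0 ≤ lam := by positivity
      calc L + Λ = lam * (δ * m / 4) := by rw [hlam]; field_simp
        _ ≤ lam * (m - j) := mul_le_mul_of_nonneg_left h3 h4
    have h3 : φ j + Λ ≤ φ m - L := by linarith
    have h4 : cnt {i | φ m - L ≤ φ i} m ≤ cnt {i | φ j + Λ ≤ φ i} m :=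
      cnt_subset (fun i hi => h3.trans hi) m
    classical
    have h5 := cnt_sub {i | φ j + Λ ≤ φ i} hj.2
    have h6 : ((Finset.Ico j m).filter (· ∈ {i | φ j + Λ ≤ φ i})).card ≤ m - j :=
      (Finset.card_filter_le _ _).trans (by rw [Nat.card_Ico])
    have h7 : cnt {i | φ m - L ≤ φ i} m + j ≤ cnt {i | φ j + Λ ≤ φ i} j + m := by omega
    have h8 : (cnt {i | φ m - L ≤ φ i} m : ℝ) + j ≤ cnt {i | φ j + Λ ≤ φ i} j + m := by
      exact_mod_cast h7
    have h9 : (j : ℝ) ≤ m := by exact_mod_cast hj.2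
    nlinarith [hj.1]

/-- thinning a divergent series -/
lemma thin (θ : ℕ → ℝ) (hns : ¬ Summable θ) (s : ℕ) :
    ∃ e : ℕ → ℕ, (∀ i, e i + 2 ^ s ≤ e (i + 1)) ∧ ¬ Summable (fun i => θ (e i)) := by
  induction s with
  | zero => exact ⟨id, fun i => by simp, hns⟩
  | succ s ih =>
    obtain ⟨e, he, hens⟩ := ih
    by_cases h0 : Summable (fun i => θ (e (2 * i)))
    · by_cases h1 : Summable (fun i => θ (e (2 * i + 1)))
      · exfalso
        apply hens
        have := HasSum.even_add_odd (f := fun i => θ (e i)) h0.hasSum h1.hasSum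
        exact this.summable
      · refine ⟨fun i => e (2 * i + 1), fun i => ?_, h1⟩
        have h2 := he (2 * i + 1)
        have h3 := he (2 * i + 1 + 1)
        show e (2 * i + 1) + 2 ^ (s + 1) ≤ e (2 * (i + 1) + 1)
        rw [pow_succ, show 2 * (i + 1) + 1 = 2 * i + 1 + 1 + 1 by ring]
        omega
    · refine ⟨fun i => e (2 * i), fun i => ?_, h0⟩
      have h2 := he (2 * i)
      have h3 := he (2 * i + 1)
      show e (2 * i) + 2 ^ (s + 1) ≤ e (2 * (i + 1))
      rw [pow_succ, show 2 * (i + 1) = 2 * i + 1 + 1 by ring]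
      omega

theorem blocks_of_cond {φ : ℕ → ℝ} {P b δ : ℝ} (hP : 1 ≤ P) (hb : 0 < b)
    (hφ : ∀ k, φ (k + 1) ≤ φ k + b) (hδ : 0 < δ) (m : ℕ → ℕ) (θ : ℕ → ℝ)
    (hm0 : ∀ k, 0 < m k) (hm2 : ∀ k, 2 * m k ≤ m (k + 1))
    (hθ0 : ∀ k, 0 < θ k) (hθ1 : ∀ k, θ k ≤ 1) (hns : ¬ Summable θ)
    (hcount : ∀ k, δ * m k ≤ cnt {j | Real.log (θ k) + φ (m k) ≤ φ j} (m k)) :
    HasBlocks P (fun n => Real.exp (φ n)) := by
  classical
  have hP0 : 0 < P := by linarith
  have hδ1 : δ ≤ 1 := by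
    have h1 := hcount 0
    have h2 : (cnt {j | Real.log (θ 0) + φ (m 0) ≤ φ j} (m 0) : ℝ) ≤ m 0 := by
      exact_mod_cast cnt_le _ _
    have h3 : (0 : ℝ) < m 0 := by exact_mod_cast hm0 0
    nlinarith
  have hmmono : StrictMono m := strictMono_nat_of_lt_succ fun k => by
    have := hm0 k; have := hm2 k; omega
  have hmpow : ∀ k N, 2 ^ N * m k ≤ m (k + N) := by
    intro k N
    induction N with
    | zero => simp
    | succ N ih =>
      have := hm2 (k + N)
      rw [pow_succ, ← add_assoc]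
      calc 2 ^ N * 2 * m k = 2 * (2 ^ N * m k) := by ring
        _ ≤ 2 * m (k + N) := by omega
        _ ≤ _ := this
  set L : ℕ → ℝ := fun k => -Real.log (θ k) with hL
  have hL0 : ∀ k, 0 ≤ L k := fun k => by
    have := Real.log_nonpos (hθ0 k).le (hθ1 k)
    simp only [hL]; linarith
  have hexpL : ∀ k, Real.exp (-L k) = θ k := fun k => by
    simp only [hL]; rw [neg_neg, Real.exp_log (hθ0 k)]
  have hcount' : ∀ k, δ * m k ≤ cnt {j | φ (m k) - L k ≤ φ j} (m k) := by
    intro k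
    have : {j | φ (m k) - L k ≤ φ j} = {j | Real.log (θ k) + φ (m k) ≤ φ j} := by
      ext j
      show φ (m k) - L k ≤ φ j ↔ Real.log (θ k) + φ (m k) ≤ φ j
      simp only [hL]
      constructor <;> intro h <;> linarith
    rw [this]
    exact hcount k
  let G : ℝ → Set ℕ := fun Λ => {k | ∃ j : ℕ, (1 - δ / 4) * m k < j ∧ j ≤ m k ∧
    ∀ n : ℕ, (n : ℝ) ≤ δ * m k / 4 → n ≤ j →
      φ j - 4 * (L k + Λ) / (δ * m k) * n ≤ φ (j - n)}
  by_cases hI : ∃ Λ : ℝ, 0 ≤ Λ ∧ ¬ Summable (fun k => if k ∈ G Λ then θ k else 0)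
  · obtain ⟨Λ, hΛ, hG⟩ := hI
    -- enumerate G
    have hGinf : (Set.ofPred (· ∈ G Λ)).Infinite := by
      intro hfin
      apply hG
      apply summable_of_hasFiniteSupport
      refine hfin.subset fun k hk => ?_
      rw [Function.mem_support] at hk
      by_contra hcon
      exact hk (if_neg hcon)
    set e₀ : ℕ → ℕ := Nat.nth (· ∈ G Λ) with he₀
    have he₀mono : StrictMono e₀ := Nat.nth_strictMono hGinf
    have he₀G : ∀ i, e₀ i ∈ G Λ := fun i => Nat.nth_mem_of_infinite hGinf i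
    have hns₀ : ¬ Summable (fun i => θ (e₀ i)) := by
      intro hs
      apply hG
      rw [← he₀mono.injective.summable_iff]
      · refine hs.congr fun i => ?_
        show _ = if e₀ i ∈ G Λ then θ (e₀ i) else 0
        rw [if_pos (he₀G i)]
      · intro k hk
        rw [if_neg]
        intro hkG
        apply hk
        have := Nat.nth_count (p := (· ∈ G Λ)) hkG
        exact ⟨_, this⟩
    obtain ⟨Qn, hQn⟩ := exists_nat_ge (max 2 (2 / (δ / (4 * P))))
    obtain ⟨e, he, hens⟩ := thin _ hns₀ Qn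
    have hGe : ∀ i, e₀ (e i) ∈ G Λ := fun i => he₀G _
    choose J hJ1 hJ2 hJ3 using hGe
    refine caseI hP hδ hδ1 hΛ (fun i => m (e₀ (e i))) J (fun i => L (e₀ (e i)))
      (fun i => hL0 _) Qn ((le_max_left _ _).trans hQn) ((le_max_right _ _).trans hQn)
      (hm0 _) ?_ hJ2 ?_ ?_ ?_
    · intro i
      have h1 : e₀ (e i) + 2 ^ Qn ≤ e₀ (e (i + 1)) := by
        have h2 := he₀mono.add_le_nat (2 ^ Qn) (e i)
        have h3 := he₀mono.monotone (he i)
        rw [add_comm (e i)] at h3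
        omega
      have h2 := hmmono.monotone h1
      have h3 := hmpow (e₀ (e i)) (2 ^ Qn)
      have h4 : Qn ≤ 2 ^ 2 ^ Qn := (Nat.lt_two_pow_self).le.trans (Nat.lt_two_pow_self).le
      have h5 : Qn * m (e₀ (e i)) ≤ m (e₀ (e (i + 1))) :=
        (Nat.mul_le_mul_right _ h4).trans (h3.trans h2)
      exact_mod_cast h5
    · intro i
      have h1 := hJ1 i
      have h2 : (0 : ℝ) < m (e₀ (e i)) := by exact_mod_cast hm0 _
      have h3 : (m (e₀ (e i)) : ℝ) < 2 * J i := by nlinarith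
      exact_mod_cast h3
    · intro i n hn hnJ
      exact hJ3 i n hn hnJ
    · intro hs
      apply hens
      refine hs.congr fun i => ?_
      exact hexpL _
  · push Not at hI
    refine caseII hP0 (show 0 < δ / 4 by positivity) (by linarith) fun ℓ X => ?_
    set Λ : ℝ := b * ℓ with hΛ
    have hΛ0 : 0 ≤ Λ := by positivity
    have hsG := hI Λ hΛ0
    -- arbitrarily large k outside G
    obtain ⟨Y, hY⟩ := exists_nat_ge (((X : ℝ) + 1) / (δ / 4) * 2)
    obtain ⟨k, hkY, hkG⟩ : ∃ k, Y ≤ k ∧ k ∉ G Λ := by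
      by_contra hcon
      push Not at hcon
      apply hns
      rw [← summable_nat_add_iff Y]
      rw [← summable_nat_add_iff Y] at hsG
      refine hsG.congr fun k => ?_
      rw [if_pos (hcon _ (Nat.le_add_left _ _))]
    rcases dich (hm0 k) hδ (hL0 k) hΛ0 (hcount' k) with hd | ⟨m', hm'1, hm'2, hm'3⟩
    · exact absurd hd hkG
    · have h1 : (k : ℝ) ≤ m k := by exact_mod_cast hmmono.le_apply
      have h2 : (Y : ℝ) ≤ k := by exact_mod_cast hkY
      have h3 : ((X : ℝ) + 1) / (δ / 4) ≤ m' := by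
        have h4 : (0 : ℝ) < m k := by exact_mod_cast hm0 k
        nlinarith
      obtain ⟨z, hz1, hz2, hz3⟩ := caseII_point hb.le hφ (show 0 < δ / 4 by positivity)
        (by linarith) hΛ0 m' X h3 (by
          rw [show 2 * (δ / 4) = δ / 2 by ring]; exact hm'3)
      refine ⟨z, hz1, fun n hn hnz => hz2 n ?_ hnz, hz3⟩
      rw [hΛ]
      have : (n : ℝ) ≤ ℓ := by exact_mod_cast hn
      exact mul_le_mul_of_nonneg_left this hb.le

end Pool.Agent.Work.MP_0403fc_an_explicit
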