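import Mathlib
import Pool.Agent.Work.MP_0403fc_an_explicit.Shift
import Pool.Agent.Work.MP_0403fc_an_explicit.Density

set_option autoImplicit false

open Filter Topology
open scoped ENNReal

namespace Pool.Agent.Work.MP_0403fc_an_explicit

lemma select {v : ℕ → ℝ} {C : ℝ} (hC : 1 ≤ C) (hv : ∀ k, 0 < v k)
    (hvC : ∀ k, v k ≤ C * v (k + 1)) (hns : ¬ Summable v) {c : ℝ} (hc : 0 < c) (r : ℕ) :
    ∃ H : ℕ, ∀ d : ℕ → ℝ, (∀ k, 0 ≤ d k) → (∀ K, ∑ k ∈ Finset.Ico 1 K, v k * d k ≤ 1) →
      ∃ S : Finset ℕ, S.card = r ∧ (∀ h ∈ S, h ≤ H) ∧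
        ∀ h ∈ S, ∀ h' ∈ S, h' < h → d (h - h') < c := by
  have hvpow : ∀ k j, v k ≤ C ^ j * v (k + j) := by
    intro k j
    induction j with
    | zero => simp
    | succ j ih =>
      refine ih.trans ?_
      rw [pow_succ, mul_assoc, ← add_assoc]
      exact mul_le_mul_of_nonneg_left (hvC _) (by positivity)
  induction r with
  | zero => exact ⟨0, fun d _ _ => ⟨∅, rfl, by simp, by simp⟩⟩
  | succ r ih =>
    obtain ⟨H, hH⟩ := ih
    have h1 := (not_summable_iff_tendsto_nat_atTop_of_nonneg (fun k => (hv k).le)).1 hns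
    obtain ⟨B, hB⟩ := eventually_atTop.1
      (h1.eventually (eventually_gt_atTop (v 0 + r * C ^ H / c)))
    have hB' := hB (B + 1) (Nat.le_succ B)
    rw [Finset.sum_range_succ'] at hB'
    refine ⟨H + B, fun d hd0 hd => ?_⟩
    obtain ⟨S, hScard, hSH, hSd⟩ := hH d hd0 hd
    have hex : ∃ k ∈ Finset.range B, ∀ h' ∈ S, d (H + (k + 1) - h') < c := by
      by_contra hcon
      push Not at hcon
      have h2 : ∑ k ∈ Finset.range B, v (k + 1) ≤ ∑ k ∈ Finset.range B,
          ∑ h' ∈ S, C ^ H / c * (v (H + (k + 1) - h') * d (H + (k + 1) - h')) := by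
        apply Finset.sum_le_sum
        intro k hk
        obtain ⟨h', hh', hdc⟩ := hcon k hk
        have h3 : v (k + 1) ≤
            C ^ H / c * (v (H + (k + 1) - h') * d (H + (k + 1) - h')) := by
          have h4 := hvpow (k + 1) (H - h')
          have h5 : k + 1 + (H - h') = H + (k + 1) - h' := by have := hSH h' hh'; omega
          rw [h5] at h4
          have h6 : C ^ (H - h') ≤ C ^ H := pow_le_pow_right₀ hC (Nat.sub_le _ _)
          have h7 := hv (H + (k + 1) - h')
          calc v (k + 1) ≤ C ^ (H - h') * v (H + (k + 1) - h') := h4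
            _ ≤ C ^ H * v (H + (k + 1) - h') := mul_le_mul_of_nonneg_right h6 h7.le
            _ = C ^ H / c * (v (H + (k + 1) - h') * c) := by field_simp
            _ ≤ _ := by gcongr
        refine h3.trans (Finset.single_le_sum
          (f := fun h' => C ^ H / c * (v (H + (k + 1) - h') * d (H + (k + 1) - h')))
          (fun i _ => ?_) hh')
        have := hv (H + (k + 1) - i)
        have := hd0 (H + (k + 1) - i)
        positivity
      rw [Finset.sum_comm] at h2
      have h3 : ∀ h' ∈ S, ∑ k ∈ Finset.range B,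
          C ^ H / c * (v (H + (k + 1) - h') * d (H + (k + 1) - h')) ≤ C ^ H / c := by
        intro h' hh'
        rw [← Finset.mul_sum]
        have h4 : ∑ k ∈ Finset.range B, v (H + (k + 1) - h') * d (H + (k + 1) - h') ≤ 1 := by
          refine le_trans ?_ (hd (H + B + 1))
          have hinj : Set.InjOn (fun k => H + (k + 1) - h') (Finset.range B : Set ℕ) := by
            intro a _ b _ hab
            have := hSH h' hh'
            simp only at hab
            omega
          rw [← Finset.sum_image (f := fun k => v k * d k) hinj]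
          apply Finset.sum_le_sum_of_subset_of_nonneg
          · intro x hx
            rw [Finset.mem_image] at hx
            obtain ⟨k, hk, rfl⟩ := hx
            rw [Finset.mem_range] at hk
            rw [Finset.mem_Ico]
            have := hSH h' hh'
            omega
          · intro i _ _
            exact mul_nonneg (hv i).le (hd0 i)
        calc C ^ H / c * ∑ k ∈ Finset.range B, v (H + (k + 1) - h') * d (H + (k + 1) - h')
            ≤ C ^ H / c * 1 := by gcongr
          _ = _ := mul_one _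
      have h4 := h2.trans (Finset.sum_le_sum h3)
      rw [Finset.sum_const, hScard, nsmul_eq_mul, mul_div_assoc'] at h4
      linarith
    obtain ⟨k, hk, hkd⟩ := hex
    rw [Finset.mem_range] at hk
    have hnot : H + (k + 1) ∉ S := fun h => by have := hSH _ h; omega
    refine ⟨insert (H + (k + 1)) S, ?_, ?_, ?_⟩
    · rw [Finset.card_insert_of_notMem hnot, hScard]
    · intro h hh
      rw [Finset.mem_insert] at hh
      rcases hh with rfl | hh
      · omega
      · have := hSH h hh; omega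
    · intro h hh h' hh' hlt
      rw [Finset.mem_insert] at hh hh'
      rcases hh with rfl | hh
      · rcases hh' with rfl | hh'
        · omega
        · exact hkd h' hh'
      · rcases hh' with rfl | hh'
        · have := hSH h hh; omega
        · exact hSd h hh h' hh' hlt

lemma card_le_pairs (T : Finset ℕ) :
    T.card ≤ 1 + ((T ×ˢ T).filter (fun q => q.2 < q.1)).card := by
  rcases T.eq_empty_or_nonempty with rfl | hne
  · simp
  · have h1 : (T.erase (T.min' hne)).card ≤ ((T ×ˢ T).filter (fun q => q.2 < q.1)).card := by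
      apply Finset.card_le_card_of_injOn (fun h => (h, T.min' hne))
      · intro h hh
        rw [Finset.mem_coe, Finset.mem_erase] at hh
        rw [Finset.mem_coe, Finset.mem_filter, Finset.mem_product]
        exact ⟨⟨hh.2, T.min'_mem hne⟩, lt_of_le_of_ne (T.min'_le h hh.2) (Ne.symm hh.1)⟩
      · intro a _ b _ hab
        exact (Prod.mk.inj hab).1
    rw [Finset.card_erase_of_mem (T.min'_mem hne)] at h1
    omega

lemma cnt_shift (A : Set ℕ) (h N : ℕ) : cnt A (h + N) = cnt A h + cnt {n | h + n ∈ A} N := by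
  unfold cnt
  rw [Nat.count_add]
  rfl

theorem summable_of_pd {v : ℕ → ℝ} {C : ℝ} (hC : 1 ≤ C) (hv : ∀ k, 0 < v k)
    (hvC : ∀ k, v k ≤ C * v (k + 1)) {E : Set ℕ} (hE : PD E)
    (hbound : ∀ n ∈ E, ∀ K, ∑ k ∈ Finset.Ico 1 K, Set.indicator {k | n + k ∈ E} v k ≤ 1) :
    Summable v := by
  classical
  by_contra hns
  obtain ⟨δ, hδ, N₀, hN₀⟩ := hE
  obtain ⟨r, hr⟩ := exists_nat_ge (3 / δ)
  have hr0 : (0 : ℝ) < r := lt_of_lt_of_le (by positivity) hr
  have hrδ : 3 ≤ δ * r := by rw [div_le_iff₀ hδ] at hr; linarith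
  obtain ⟨H, hH⟩ := select hC hv hvC hns (show (0 : ℝ) < 1 / r ^ 2 by positivity) r
  set N : ℕ := max N₀ ((r ^ 2 + r) * H + 1) with hN
  have hNpos : 0 < N := lt_of_lt_of_le (Nat.succ_pos _) (le_max_right _ _)
  have hNR : (0 : ℝ) < N := by exact_mod_cast hNpos
  set D : ℕ → Set ℕ := fun k => {n | n ∈ E ∧ n + k ∈ E} with hD
  set d : ℕ → ℝ := fun k => (cnt (D k) N : ℝ) / N with hd
  obtain ⟨S, hScard, hSH, hSd⟩ := hH d (fun k => by simp only [hd]; positivity) (by
    intro K
    have h1 : ∑ k ∈ Finset.Ico 1 K, v k * d k =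
        (∑ n ∈ (Finset.range N).filter (· ∈ E),
          ∑ k ∈ Finset.Ico 1 K, Set.indicator {k | n + k ∈ E} v k) / N := by
      rw [Finset.sum_comm, Finset.sum_div]
      apply Finset.sum_congr rfl
      intro k _
      simp only [hd]
      rw [cnt_eq_card, mul_div_assoc']
      congr 1
      have h2 : ∀ n, Set.indicator {k | n + k ∈ E} v k = if n + k ∈ E then v k else 0 := by
        intro n
        rw [Set.indicator_apply]
        rfl
      simp_rw [h2]
      rw [← Finset.sum_filter, Finset.sum_const, Finset.filter_filter, nsmul_eq_mul, mul_comm]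
      congr 2
      apply congrArg Finset.card
      ext n
      simp only [Finset.mem_filter, hD]
      rfl
    rw [h1, div_le_one hNR]
    calc ∑ n ∈ (Finset.range N).filter (· ∈ E),
          ∑ k ∈ Finset.Ico 1 K, Set.indicator {k | n + k ∈ E} v k
        ≤ ∑ n ∈ (Finset.range N).filter (· ∈ E), (1 : ℝ) := by
          apply Finset.sum_le_sum
          intro n hn
          exact hbound n (Finset.mem_filter.1 hn).2 K
      _ = (((Finset.range N).filter (· ∈ E)).card : ℝ) := by simp
      _ ≤ N := by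
          have := (Finset.card_filter_le (Finset.range N) (· ∈ E)).trans
            (Finset.card_range N).le
          exact_mod_cast this)
  -- count
  set T : ℕ → Finset ℕ := fun n => S.filter (fun h => h + n ∈ E) with hT
  have hsumT : ∑ n ∈ Finset.range N, (T n).card = ∑ h ∈ S, cnt {n | h + n ∈ E} N := by
    simp_rw [cnt_eq_card, Finset.card_eq_sum_ones, hT, Finset.sum_filter]
    rw [Finset.sum_comm]
    rfl
  have hlow : ∀ h ∈ S, (δ * N - H : ℝ) ≤ cnt {n | h + n ∈ E} N := by
    intro h hh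
    have h1 := cnt_shift E h N
    have h2 := cnt_mono (A := E) (Nat.le_add_left N h)
    have h3 := cnt_le E h
    have h4 := hSH h hh
    have h5 : cnt E N ≤ cnt {n | h + n ∈ E} N + H := by omega
    have h6 : (cnt E N : ℝ) ≤ cnt {n | h + n ∈ E} N + H := by exact_mod_cast h5
    have h7 := hN₀ N (le_max_left _ _)
    linarith
  have hpairs : ∑ n ∈ Finset.range N, ((T n ×ˢ T n).filter (fun q => q.2 < q.1)).card =
      ∑ q ∈ (S ×ˢ S).filter (fun q => q.2 < q.1), cnt {n | q.1 + n ∈ E ∧ q.2 + n ∈ E} N := by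
    have h1 : ∀ n, (T n ×ˢ T n).filter (fun q => q.2 < q.1) =
        ((S ×ˢ S).filter (fun q => q.2 < q.1)).filter
          (fun q => q.1 + n ∈ E ∧ q.2 + n ∈ E) := by
      intro n
      ext q
      simp only [hT, Finset.mem_filter, Finset.mem_product]
      tauto
    simp_rw [h1, cnt_eq_card]
    simp only [Finset.card_eq_sum_ones]
    simp_rw [Finset.sum_filter _ (fun _ => 1)]
    rw [Finset.sum_comm]
    simp only [Finset.sum_filter]
    apply Finset.sum_congr rfl
    intro a _
    by_cases hlt : a.2 < a.1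
    · rw [if_pos hlt, if_pos hlt]
      apply Finset.sum_congr rfl
      intro n _
      by_cases hm : a.1 + n ∈ E ∧ a.2 + n ∈ E
      · rw [if_pos hm, if_pos (by exact hm)]
      · rw [if_neg hm, if_neg (by exact hm)]
    · rw [if_neg hlt, if_neg hlt]
  have hup : ∀ q ∈ (S ×ˢ S).filter (fun q => q.2 < q.1),
      (cnt {n | q.1 + n ∈ E ∧ q.2 + n ∈ E} N : ℝ) ≤ N / r ^ 2 + H := by
    intro q hq
    rw [Finset.mem_filter, Finset.mem_product] at hq
    obtain ⟨⟨hq1, hq2⟩, hlt⟩ := hq
    have h1 : {n | q.1 + n ∈ E ∧ q.2 + n ∈ E} = {n | q.2 + n ∈ D (q.1 - q.2)} := by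
      ext n
      show (q.1 + n ∈ E ∧ q.2 + n ∈ E) ↔ (q.2 + n ∈ E ∧ q.2 + n + (q.1 - q.2) ∈ E)
      rw [show q.2 + n + (q.1 - q.2) = q.1 + n by omega]
      tauto
    rw [h1]
    have h2 := cnt_shift (D (q.1 - q.2)) q.2 N
    have h3 := cnt_shift (D (q.1 - q.2)) N q.2
    have h4 := cnt_le {n | N + n ∈ D (q.1 - q.2)} q.2
    have h5 := hSH _ hq2
    rw [add_comm q.2 N] at h2
    have h6 : cnt {n | q.2 + n ∈ D (q.1 - q.2)} N ≤ cnt (D (q.1 - q.2)) N + H := by omega
    have h7 : (cnt {n | q.2 + n ∈ D (q.1 - q.2)} N : ℝ) ≤ cnt (D (q.1 - q.2)) N + H := by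
      exact_mod_cast h6
    have h8 := hSd _ hq1 _ hq2 hlt
    simp only [hd] at h8
    rw [div_lt_iff₀ hNR] at h8
    have h9 : 1 / (r : ℝ) ^ 2 * N = N / r ^ 2 := by ring
    linarith
  have hmain : (r : ℝ) * (δ * N - H) ≤ N + r ^ 2 * (N / r ^ 2 + H) := by
    have h1 : (r : ℝ) * (δ * N - H) ≤ ∑ h ∈ S, (cnt {n | h + n ∈ E} N : ℝ) := by
      have := Finset.sum_le_sum hlow
      rwa [Finset.sum_const, hScard, nsmul_eq_mul] at this
    have h2 : (∑ h ∈ S, (cnt {n | h + n ∈ E} N : ℝ)) = ((∑ n ∈ Finset.range N, (T n).card : ℕ) : ℝ)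
        := by rw [hsumT]; push_cast; rfl
    have h3 : (∑ n ∈ Finset.range N, (T n).card) ≤
        N + ∑ n ∈ Finset.range N, ((T n ×ˢ T n).filter (fun q => q.2 < q.1)).card := by
      calc (∑ n ∈ Finset.range N, (T n).card) ≤
          ∑ n ∈ Finset.range N, (1 + ((T n ×ˢ T n).filter (fun q => q.2 < q.1)).card) :=
            Finset.sum_le_sum fun n _ => card_le_pairs (T n)
        _ = _ := by rw [Finset.sum_add_distrib]; simp
    rw [hpairs] at h3
    have h4 : ((∑ n ∈ Finset.range N, (T n).card : ℕ) : ℝ) ≤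
        N + ∑ q ∈ (S ×ˢ S).filter (fun q => q.2 < q.1),
          (cnt {n | q.1 + n ∈ E ∧ q.2 + n ∈ E} N : ℝ) := by exact_mod_cast h3
    have h5 : ∑ q ∈ (S ×ˢ S).filter (fun q => q.2 < q.1),
        (cnt {n | q.1 + n ∈ E ∧ q.2 + n ∈ E} N : ℝ) ≤ r ^ 2 * (N / r ^ 2 + H) := by
      refine (Finset.sum_le_sum hup).trans ?_
      rw [Finset.sum_const, nsmul_eq_mul]
      have h6 : ((S ×ˢ S).filter (fun q => q.2 < q.1)).card ≤ r ^ 2 := by
        refine (Finset.card_filter_le _ _).trans ?_
        rw [Finset.card_product, hScard, sq]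
      have h7 : ((((S ×ˢ S).filter (fun q => q.2 < q.1)).card : ℕ) : ℝ) ≤ r ^ 2 := by
        exact_mod_cast h6
      exact mul_le_mul_of_nonneg_right h7 (by positivity)
    linarith
  have h1 : (r : ℝ) ^ 2 * (N / r ^ 2 + H) = N + r ^ 2 * H := by field_simp
  rw [h1] at hmain
  have h2 : ((r : ℝ) ^ 2 + r) * H + 1 ≤ N := by
    exact_mod_cast (le_max_right _ _ : (r ^ 2 + r) * H + 1 ≤ N)
  nlinarith

variable {𝕜 : Type*} [RCLike 𝕜] {p : ℝ≥0∞}

/-- Bayart–Ruzsa: a frequently hypercyclic weighted shift on `ℓ^p` has summable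
`|W_n|^{-p}`. -/
theorem summable_of_fhc [Fact (1 ≤ p)] (hp : p ≠ ∞) {w : ℕ → 𝕜} (hw0 : ∀ n, w n ≠ 0)
    (hw : ∃ C : ℝ, ∀ n, ‖w n‖ ≤ C) (x : lp (fun _ : ℕ => 𝕜) p)
    (hx : x ∈ FHCop (shiftOp hp w hw)) :
    Summable fun n => (‖wprod w n‖ ^ p.toReal)⁻¹ := by
  have hP := toReal_pos' hp
  have hWpos : ∀ n, 0 < ‖wprod w n‖ := fun n => norm_pos_iff.2 (wprod_ne_zero hw0 n)
  set e : lp (fun _ : ℕ => 𝕜) p := lp.single p 0 (1 : 𝕜) with he
  have hE := (lowerDensity_pos_iff _).1 (hx (Metric.ball e (1 / 2)) Metric.isOpen_ball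
    ⟨e, Metric.mem_ball_self (by norm_num)⟩)
  set E : Set ℕ := {n : ℕ | ((shiftOp hp w hw) ^ n) x ∈ Metric.ball e (1 / 2)} with hEdef
  have hEn : ∀ n ∈ E, ‖((shiftOp hp w hw) ^ n) x - e‖ < 1 / 2 := by
    intro n hn
    have : ((shiftOp hp w hw) ^ n) x ∈ Metric.ball e (1 / 2) := hn
    rwa [Metric.mem_ball, dist_eq_norm] at this
  have hp0 : p ≠ 0 := fun h => absurd (Fact.out : 1 ≤ p) (by rw [h]; norm_num)
  have hlow : ∀ n ∈ E, 1 / 2 ≤ ‖wprod w n * x n‖ := by
    intro n hn
    have h1 := lp.norm_apply_le_norm hp0 (((shiftOp hp w hw) ^ n) x - e) 0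
    rw [lp.coeFn_sub, Pi.sub_apply, pow_apply hp hw0, wprod_zero, div_one, zero_add, he,
      lp.single_apply_self] at h1
    have h2 := (hEn n hn)
    have h3 : ‖(1 : 𝕜)‖ ≤ ‖wprod w n * x n‖ + ‖wprod w n * x n - 1‖ := by
      have := norm_sub_le (wprod w n * x n) (wprod w n * x n - 1)
      rwa [sub_sub_cancel] at this
    rw [norm_one] at h3
    linarith
  obtain ⟨C, hC⟩ := hw
  have hC' : ∀ n, ‖w n‖ ≤ max C 1 := fun n => (hC n).trans (le_max_left _ _)
  apply summable_of_pd (C := (max C 1) ^ p.toReal)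
    (Real.one_le_rpow (le_max_right _ _) hP.le) (fun k => by have := hWpos k; positivity) ?_ hE
  · intro n hn K
    have h1 : ∑ k ∈ Finset.Ico 1 K, ‖(((shiftOp hp w ⟨C, hC⟩) ^ n) x - e :
        lp (fun _ : ℕ => 𝕜) p) k‖ ^ p.toReal ≤ (1 / 2) ^ p.toReal := by
      refine (lp.sum_rpow_le_norm_rpow hP _ _).trans ?_
      exact Real.rpow_le_rpow (norm_nonneg _) (hEn n hn).le hP.le
    have h2 : ∀ k ∈ Finset.Ico 1 K, (1 / 2) ^ p.toReal *
        Set.indicator {k | n + k ∈ E} (fun n => (‖wprod w n‖ ^ p.toReal)⁻¹) k ≤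
        ‖(((shiftOp hp w ⟨C, hC⟩) ^ n) x - e :
        lp (fun _ : ℕ => 𝕜) p) k‖ ^ p.toReal := by
      intro k hk
      rw [Finset.mem_Ico] at hk
      by_cases hkE : n + k ∈ E
      · rw [Set.indicator_of_mem (by exact hkE)]
        rw [lp.coeFn_sub, Pi.sub_apply, pow_apply hp hw0, he,
          lp.single_apply_ne _ _ _ (by omega), sub_zero]
        have h3 := hlow _ hkE
        rw [add_comm n k] at h3
        have h4 : wprod w (k + n) / wprod w k * x (k + n) =
          (wprod w (k + n) * x (k + n)) / wprod w k := by ring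
        rw [h4, norm_div, Real.div_rpow (norm_nonneg _) (norm_nonneg _), div_eq_mul_inv]
        apply mul_le_mul_of_nonneg_right _ (by have := hWpos k; positivity)
        exact Real.rpow_le_rpow (by norm_num) h3 hP.le
      · rw [Set.indicator_of_notMem (by exact hkE), mul_zero]
        positivity
    have h3 := (Finset.sum_le_sum h2).trans h1
    rw [← Finset.mul_sum] at h3
    have h4 : (0 : ℝ) < (1 / 2) ^ p.toReal := by positivity
    exact (mul_le_iff_le_one_right h4).1 h3
  · intro k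
    have h1 := hWpos k
    have h2 := hWpos (k + 1)
    have h3 : ‖wprod w (k + 1)‖ ≤ max C 1 * ‖wprod w k‖ := by
      rw [wprod_succ, norm_mul, mul_comm]
      exact mul_le_mul_of_nonneg_right (hC' _) (norm_nonneg _)
    have h4 : ‖wprod w (k + 1)‖ ^ p.toReal ≤ (max C 1) ^ p.toReal * ‖wprod w k‖ ^ p.toReal := by
      rw [← Real.mul_rpow (by positivity) h1.le]
      exact Real.rpow_le_rpow h2.le h3 hP.le
    have h5 : 0 < ‖wprod w k‖ ^ p.toReal := by positivity
    have h6 : 0 < ‖wprod w (k + 1)‖ ^ p.toReal := by positivity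
    rw [← div_eq_mul_inv, le_div_iff₀ h6, ← div_eq_inv_mul, div_le_iff₀ h5]
    exact h4

end Pool.Agent.Work.MP_0403fc_an_explicit
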