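import Mathlib
import Pool.Agent.Work.MP_0403fc_an_explicit.Comb2

set_option autoImplicit false

open Filter Topology
open scoped ENNReal

namespace Pool.Agent.Work.MP_0403fc_an_explicit

section Baire

variable {𝕜 X : Type*} [RCLike 𝕜] [NormedAddCommGroup X] [NormedSpace 𝕜 X]

lemma cnt_setOf_closed (T : X →L[𝕜] X) (M : Submodule 𝕜 X) (N K : ℕ) :
    IsClosed {x : M | K ≤ (N + 1) * cnt {n | ‖(T ^ n) (x : X)‖ ≤ 1} K} := by
  classical
  have h1 : {x : M | K ≤ (N + 1) * cnt {n | ‖(T ^ n) (x : X)‖ ≤ 1} K} =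
      ⋃ S ∈ (Finset.range K).powerset.filter (fun S => K ≤ (N + 1) * S.card),
        ⋂ n ∈ S, {x : M | ‖(T ^ n) (x : X)‖ ≤ 1} := by
    ext x
    simp only [Set.mem_iUnion, Set.mem_iInter]
    constructor
    · intro hx
      have hx' : K ≤ (N + 1) * cnt {n | ‖(T ^ n) (x : X)‖ ≤ 1} K := hx
      rw [cnt_eq_card] at hx'
      refine ⟨(Finset.range K).filter (· ∈ {n | ‖(T ^ n) (x : X)‖ ≤ 1}), ?_, ?_⟩
      · rw [Finset.mem_filter, Finset.mem_powerset]
        refine ⟨Finset.filter_subset _ _, ?_⟩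
        convert hx'
      · intro n hn
        exact (Finset.mem_filter.1 hn).2
    · rintro ⟨S, hS, hSx⟩
      rw [Finset.mem_filter, Finset.mem_powerset] at hS
      show K ≤ (N + 1) * cnt {n | ‖(T ^ n) (x : X)‖ ≤ 1} K
      refine hS.2.trans (Nat.mul_le_mul_left _ ?_)
      rw [cnt_eq_card]
      apply Finset.card_le_card
      intro n hn
      simp only [Finset.mem_filter]
      exact ⟨hS.1 hn, hSx n hn⟩
  rw [h1]
  apply isClosed_biUnion_finset
  intro S _
  apply isClosed_biInter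
  intro n _
  apply isClosed_le _ continuous_const
  exact ((T ^ n).continuous.comp continuous_subtype_val).norm

/-- uniform boundedness along sets of positive lower density -/
theorem uniform_density [CompleteSpace X] (T : X →L[𝕜] X) (M : Submodule 𝕜 X) (hM : IsClosed (M : Set X))
    (hPD : ∀ x ∈ M, x ≠ 0 → PD {n | ‖(T ^ n) x‖ ≤ 1}) :
    ∃ (C δ : ℝ) (N : ℕ), 1 ≤ C ∧ 0 < δ ∧ δ ≤ 1 ∧ ∀ y ∈ M, ‖y‖ ≤ 1 → ∀ K, N ≤ K →
      δ * K ≤ cnt {n | ‖(T ^ n) y‖ ≤ C} K := by
  classical
  have : CompleteSpace M := hM.completeSpace_coe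
  set F : ℕ → Set M := fun N => ⋂ K ∈ Set.Ici N,
    {x : M | K ≤ (N + 1) * cnt {n | ‖(T ^ n) (x : X)‖ ≤ 1} K} with hF
  have hFc : ∀ N, IsClosed (F N) := fun N =>
    isClosed_biInter fun K _ => cnt_setOf_closed T M N K
  have hFU : ⋃ N, F N = Set.univ := by
    rw [Set.eq_univ_iff_forall]
    intro x
    rw [Set.mem_iUnion]
    by_cases hx : (x : X) = 0
    · refine ⟨0, ?_⟩
      simp only [hF, Set.mem_iInter]
      intro K _
      show K ≤ (0 + 1) * cnt {n | ‖(T ^ n) (x : X)‖ ≤ 1} K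
      rw [hx, cnt_eq_card]
      have : (Finset.range K).filter (· ∈ {n | ‖(T ^ n) (0 : X)‖ ≤ 1}) = Finset.range K := by
        rw [Finset.filter_eq_self]
        intro n _
        show ‖(T ^ n) (0 : X)‖ ≤ 1
        rw [map_zero, norm_zero]
        exact zero_le_one
      rw [zero_add, one_mul]
      have h2 := congrArg Finset.card this
      rw [Finset.card_range] at h2
      apply le_of_eq
      convert h2.symm
    · obtain ⟨c, hc, N₀, hN₀⟩ := hPD x x.2 hx
      obtain ⟨N₁, hN₁⟩ := exists_nat_ge (1 / c)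
      refine ⟨max N₀ N₁, ?_⟩
      simp only [hF, Set.mem_iInter]
      intro K hK
      have hK' : max N₀ N₁ ≤ K := hK
      have h1 := hN₀ K ((le_max_left _ _).trans hK')
      show K ≤ (max N₀ N₁ + 1) * cnt {n | ‖(T ^ n) (x : X)‖ ≤ 1} K
      have h2 : (K : ℝ) ≤ (max N₀ N₁ + 1 : ℕ) * cnt {n | ‖(T ^ n) (x : X)‖ ≤ 1} K := by
        have h3 : (1 : ℝ) / c ≤ (max N₀ N₁ + 1 : ℕ) := by
          refine hN₁.trans ?_
          exact_mod_cast (le_max_right N₀ N₁).trans (Nat.le_succ _)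
        calc (K : ℝ) = 1 / c * (c * K) := by field_simp
          _ ≤ 1 / c * cnt {n | ‖(T ^ n) (x : X)‖ ≤ 1} K := by gcongr
          _ ≤ _ := by gcongr
      exact_mod_cast h2
  obtain ⟨N, hN⟩ := nonempty_interior_of_iUnion_of_closed hFc hFU
  obtain ⟨x₀, hx₀⟩ := hN
  obtain ⟨r, hr, hball⟩ := Metric.isOpen_iff.1 isOpen_interior x₀ hx₀
  set m : ℕ := 2 * (N + 1) with hm
  have hm0 : (0 : ℝ) < m := by simp only [hm]; positivity
  refine ⟨max (2 * m / r) 1, 1 / m, N, le_max_right _ _, by positivity, ?_, ?_⟩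
  · rw [div_le_one hm0]
    exact_mod_cast (by omega : 1 ≤ m)
  · intro y hy hy1 K hK
    -- the test vectors
    have htest : ∀ i < m, K ≤ (N + 1) *
        cnt {n | ‖(T ^ n) ((x₀ : X) + (((r / m * i : ℝ)) : 𝕜) • y)‖ ≤ 1} K := by
      intro i hi
      have h1 : (⟨(x₀ : X) + (((r / m * i : ℝ)) : 𝕜) • y,
          M.add_mem x₀.2 (M.smul_mem _ hy)⟩ : M) ∈ F N := by
        apply interior_subset
        apply hball
        rw [Metric.mem_ball, Subtype.dist_eq, dist_eq_norm]
        simp only [add_sub_cancel_left]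
        rw [norm_smul, RCLike.norm_ofReal, abs_of_nonneg (by positivity)]
        have h2 : (i : ℝ) < m := by exact_mod_cast hi
        calc r / m * i * ‖y‖ ≤ r / m * i * 1 := by gcongr
          _ = r * i / m := by ring
          _ < r := by
            rw [div_lt_iff₀ hm0]
            exact mul_lt_mul_of_pos_left h2 hr
      simp only [hF, Set.mem_iInter] at h1
      exact h1 K hK
    set a : ℕ → Finset ℕ := fun n => (Finset.range m).filter
      (fun i => ‖(T ^ n) ((x₀ : X) + (((r / m * i : ℝ)) : 𝕜) • y)‖ ≤ 1) with ha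
    have hsum : ∑ i ∈ Finset.range m,
        cnt {n | ‖(T ^ n) ((x₀ : X) + (((r / m * i : ℝ)) : 𝕜) • y)‖ ≤ 1} K =
        ∑ n ∈ Finset.range K, (a n).card := by
      simp_rw [cnt_eq_card, Finset.card_eq_sum_ones, ha, Finset.sum_filter]
      rw [Finset.sum_comm]
      rfl
    have hacard : ∀ n, (a n).card ≤ m := fun n =>
      (Finset.card_filter_le _ _).trans (Finset.card_range m).le
    have ha1 : ∀ n, ¬ ‖(T ^ n) y‖ ≤ max (2 * m / r) 1 → (a n).card ≤ 1 := by
      intro n hn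
      rw [Finset.card_le_one]
      intro i hi j hj
      by_contra hij
      apply hn
      refine le_trans ?_ (le_max_left _ _)
      simp only [ha, Finset.mem_filter, Finset.mem_range] at hi hj
      have h1 : (T ^ n) ((x₀ : X) + (((r / m * i : ℝ)) : 𝕜) • y) -
          (T ^ n) ((x₀ : X) + (((r / m * j : ℝ)) : 𝕜) • y) =
          (((r / m * (i - j) : ℝ)) : 𝕜) • (T ^ n) y := by
        rw [← map_sub, add_sub_add_left_eq_sub, ← sub_smul, map_smul]
        congr 1
        push_cast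
        ring
      have h2 := norm_sub_le ((T ^ n) ((x₀ : X) + (((r / m * i : ℝ)) : 𝕜) • y))
        ((T ^ n) ((x₀ : X) + (((r / m * j : ℝ)) : 𝕜) • y))
      rw [h1, norm_smul, RCLike.norm_ofReal, abs_mul, abs_of_pos (by positivity : 0 < r / m)] at h2
      have h3 : (1 : ℝ) ≤ |(i : ℝ) - j| := by
        have h4 : (1 : ℤ) ≤ |(i : ℤ) - j| := by
          apply Int.one_le_abs
          omega
        exact_mod_cast h4
      have h4 : r / m * ‖(T ^ n) y‖ ≤ 2 := by
        have h5 : r / m * 1 * ‖(T ^ n) y‖ ≤ r / m * |(i : ℝ) - j| * ‖(T ^ n) y‖ := by gcongr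
        linarith [hi.2, hj.2]
      rw [le_div_iff₀ hr]
      rw [div_mul_eq_mul_div, div_le_iff₀ hm0] at h4
      linarith
    have hup : ∑ n ∈ Finset.range K, (a n).card ≤
        K + m * cnt {n | ‖(T ^ n) y‖ ≤ max (2 * m / r) 1} K := by
      have h1 : ∀ n ∈ Finset.range K, (a n).card ≤ 1 + m *
          (if n ∈ {n | ‖(T ^ n) y‖ ≤ max (2 * m / r) 1} then 1 else 0) := by
        intro n _
        by_cases h : n ∈ {n | ‖(T ^ n) y‖ ≤ max (2 * m / r) 1}
        · rw [if_pos h]; have := hacard n; omega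
        · rw [if_neg h]; have := ha1 n h; omega
      refine (Finset.sum_le_sum h1).trans ?_
      rw [Finset.sum_add_distrib, ← Finset.mul_sum, cnt_eq_card, Finset.card_eq_sum_ones,
        Finset.sum_filter]
      apply le_of_eq
      congr 1
      · simp
    have hlow : m * K ≤ (N + 1) * ∑ n ∈ Finset.range K, (a n).card := by
      rw [← hsum, Finset.mul_sum]
      calc m * K = ∑ i ∈ Finset.range m, K := by simp
        _ ≤ _ := Finset.sum_le_sum fun i hi => htest i (Finset.mem_range.1 hi)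
    have h3 : m * K ≤ (N + 1) * (K + m * cnt {n | ‖(T ^ n) y‖ ≤ max (2 * m / r) 1} K) :=
      hlow.trans (Nat.mul_le_mul_left _ hup)
    have h4 : (N + 1) * K ≤ (N + 1) * (m * cnt {n | ‖(T ^ n) y‖ ≤ max (2 * m / r) 1} K) := by
      have h5 : m * K = (N + 1) * K + (N + 1) * K := by rw [hm]; ring
      rw [h5, mul_add] at h3
      omega
    have h5 : K ≤ m * cnt {n | ‖(T ^ n) y‖ ≤ max (2 * m / r) 1} K :=
      Nat.le_of_mul_le_mul_left h4 (Nat.succ_pos N)
    have h6 : (K : ℝ) ≤ m * cnt {n | ‖(T ^ n) y‖ ≤ max (2 * m / r) 1} K := by exact_mod_cast h5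
    rw [one_div, ← div_eq_inv_mul, div_le_iff₀ hm0]
    linarith

end Baire

end Pool.Agent.Work.MP_0403fc_an_explicit
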