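import Mathlib
import Pool.Agent.Work.MP_0403fc_an_explicit.Nec1
import Pool.Agent.Work.MP_0403fc_an_explicit.Nec2

set_option autoImplicit false

open Filter Topology
open scoped ENNReal

namespace Pool.Agent.Work.MP_0403fc_an_explicit

variable {𝕜 : Type*} [RCLike 𝕜] {p : ℝ≥0∞}

/-- the condition in terms of sequences -/
def SeqCond (nW : ℕ → ℝ) : Prop :=
  ∃ δ : ℝ, 0 < δ ∧ ∃ (m : ℕ → ℕ) (θ : ℕ → ℝ),
    (∀ k, 0 < m k) ∧ (∀ k, 2 * m k ≤ m (k + 1)) ∧ (∀ k, 0 < θ k) ∧ (∀ k, θ k ≤ 1) ∧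
      ¬ Summable θ ∧ ∀ k, δ * m k ≤ cnt {j | θ k * nW (m k) ≤ nW j} (m k)

lemma energy_block [Fact (1 ≤ p)] (hp : p ≠ ∞) {w : ℕ → 𝕜} (hw0 : ∀ n, w n ≠ 0)
    (hw : ∃ C : ℝ, ∀ n, ‖w n‖ ≤ C) {C : ℝ} (z : lp (fun _ : ℕ => 𝕜) p) (n : ℕ)
    (hz : ‖((shiftOp hp w hw) ^ n) z‖ ≤ C) (F : Finset ℕ) (hF : ∀ m ∈ F, n ≤ m) :
    ∑ m ∈ F, ‖z m‖ ^ p.toReal *
      (‖wprod w m‖ ^ p.toReal / ‖wprod w (m - n)‖ ^ p.toReal) ≤ C ^ p.toReal := by
  have hP := toReal_pos' hp
  have hinj : Set.InjOn (fun m => m - n) (F : Set ℕ) := by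
    intro a ha b hb hab
    have := hF a ha
    have := hF b hb
    simp only at hab
    omega
  have h1 := lp.sum_rpow_le_norm_rpow hP (((shiftOp hp w hw) ^ n) z)
    (F.image (fun m => m - n))
  rw [Finset.sum_image hinj] at h1
  refine le_trans (le_of_eq ?_) (h1.trans (Real.rpow_le_rpow (norm_nonneg _) hz hP.le))
  apply Finset.sum_congr rfl
  intro m hm
  rw [pow_apply hp hw0, Nat.sub_add_cancel (hF m hm), norm_mul, norm_div,
    Real.mul_rpow (by positivity) (norm_nonneg _),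
    Real.div_rpow (norm_nonneg _) (norm_nonneg _)]
  ring

lemma block_step [Fact (1 ≤ p)] (hp : p ≠ ∞) {w : ℕ → 𝕜} (hw0 : ∀ n, w n ≠ 0)
    (hw : ∃ C : ℝ, ∀ n, ‖w n‖ ≤ C) {C δ : ℝ} (hC : 1 ≤ C) (hδ : 0 < δ)
    (q : ℕ) (hq2 : 2 ≤ q) (hq : 2 / δ ≤ q) (i : ℕ) (z : lp (fun _ : ℕ => 𝕜) p)
    (hz : δ * ((q ^ (i + 1) : ℕ) : ℝ) ≤
      cnt {n | ‖((shiftOp hp w hw) ^ n) z‖ ≤ C} (q ^ (i + 1))) :
    ∃ m, q ^ (i + 1) ≤ m ∧ m < q ^ (i + 2) ∧ δ / (4 * q) * m ≤
      cnt {k | (∑ m ∈ Finset.Ico (q ^ (i + 1)) (q ^ (i + 2)), ‖z m‖ ^ p.toReal) /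
        (4 * C ^ p.toReal) * ‖wprod w m‖ ^ p.toReal ≤ ‖wprod w k‖ ^ p.toReal} m := by
  classical
  have hP := toReal_pos' hp
  have hWpos : ∀ n, 0 < ‖wprod w n‖ := fun n => norm_pos_iff.2 (wprod_ne_zero hw0 n)
  set V : ℕ → ℝ := fun n => ‖wprod w n‖ ^ p.toReal with hV
  have hVpos : ∀ n, 0 < V n := fun n => by have := hWpos n; simp only [hV]; positivity
  have hCP : 0 < C ^ p.toReal := by positivity
  set blk := Finset.Ico (q ^ (i + 1)) (q ^ (i + 2)) with hblk
  set s : ℝ := ∑ m ∈ blk, ‖z m‖ ^ p.toReal with hs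
  have hs0 : 0 ≤ s := Finset.sum_nonneg fun m _ => by positivity
  set t : ℝ := s / (4 * C ^ p.toReal) with ht
  have ht0 : 0 ≤ t := by positivity
  have hq0 : (0 : ℝ) < q := by exact_mod_cast (by omega : 0 < q)
  set A' := (Finset.Ico (q ^ i) (q ^ (i + 1))).filter
    (· ∈ {n | ‖((shiftOp hp w hw) ^ n) z‖ ≤ C}) with hA'
  have hqi : q ^ i ≤ q ^ (i + 1) := Nat.pow_le_pow_right (by omega) (Nat.le_succ i)
  have hqi1 : 1 ≤ q ^ i := Nat.one_le_pow _ _ (by omega)
  have hqpow : ((q ^ (i + 1) : ℕ) : ℝ) = q * (q ^ i : ℕ) := by push_cast; ring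
  have hqpow2 : ((q ^ (i + 2) : ℕ) : ℝ) = q * (q ^ (i + 1) : ℕ) := by push_cast; ring
  have hqipos : (0 : ℝ) < (q ^ (i + 1) : ℕ) := by exact_mod_cast lt_of_lt_of_le hqi1 hqi
  have hcardA : δ / 2 * ((q ^ (i + 1) : ℕ) : ℝ) ≤ A'.card := by
    have h1 : cnt {n | ‖((shiftOp hp w hw) ^ n) z‖ ≤ C} (q ^ (i + 1)) =
        cnt {n | ‖((shiftOp hp w hw) ^ n) z‖ ≤ C} (q ^ i) + A'.card := cnt_sub _ hqi
    have h2 := cnt_le {n | ‖((shiftOp hp w hw) ^ n) z‖ ≤ C} (q ^ i)
    have h3 : cnt {n | ‖((shiftOp hp w hw) ^ n) z‖ ≤ C} (q ^ (i + 1)) ≤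
        q ^ i + A'.card := by omega
    have h4 : (cnt {n | ‖((shiftOp hp w hw) ^ n) z‖ ≤ C} (q ^ (i + 1)) : ℝ) ≤
        (q ^ i : ℕ) + A'.card := by exact_mod_cast h3
    have h5 : (2 : ℝ) * (q ^ i : ℕ) ≤ δ * ((q ^ (i + 1) : ℕ) : ℝ) := by
      rw [hqpow]
      rw [div_le_iff₀ hδ] at hq
      have h6 : (0 : ℝ) ≤ (q ^ i : ℕ) := Nat.cast_nonneg _
      calc (2 : ℝ) * (q ^ i : ℕ) ≤ (q * δ) * (q ^ i : ℕ) := mul_le_mul_of_nonneg_right hq h6
        _ = _ := by ring
    linarith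
  have hcardpos : (0 : ℝ) < A'.card := lt_of_lt_of_le (by positivity) hcardA
  by_contra hcon
  push Not at hcon
  -- lower bound for the averages
  have hlow : ∀ m ∈ blk, (A'.card : ℝ) / 2 ≤ t * ∑ n ∈ A', V m / V (m - n) ∧
      (0 < t) := by
    intro m hm
    rw [hblk, Finset.mem_Ico] at hm
    have h1 := hcon m hm.1 hm.2
    have h2 : (A'.filter (fun n => t * V m ≤ V (m - n))).card ≤
        cnt {k | t * V m ≤ V k} m := by
      rw [cnt_eq_card]
      apply Finset.card_le_card_of_injOn (fun n => m - n)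
      · intro n hn
        simp only [Finset.coe_filter, hA', Finset.mem_filter, Finset.mem_Ico,
          Set.mem_ofPred_eq, Finset.mem_range] at hn ⊢
        exact ⟨by omega, hn.2⟩
      · intro a ha b hb hab
        simp only [Finset.coe_filter, hA', Finset.mem_filter, Finset.mem_Ico,
          Set.mem_ofPred_eq] at ha hb hab
        omega
    have h3 : ((A'.filter (fun n => t * V m ≤ V (m - n))).card : ℝ) <
        A'.card / 2 := by
      have h4 : ((A'.filter (fun n => t * V m ≤ V (m - n))).card : ℝ) ≤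
        cnt {k | t * V m ≤ V k} m := by exact_mod_cast h2
      have h5 : (m : ℝ) ≤ q * (q ^ (i + 1) : ℕ) := by
        rw [← hqpow2]; exact_mod_cast hm.2.le
      have h6 : δ / (4 * q) * m ≤ δ / 4 * (q ^ (i + 1) : ℕ) := by
        calc δ / (4 * q) * m ≤ δ / (4 * q) * (q * (q ^ (i + 1) : ℕ)) := by gcongr
          _ = _ := by field_simp
      linarith
    have h4 := Finset.card_filter_add_card_filter_not (s := A') (fun n => t * V m ≤ V (m - n))
    have h4' : ((A'.filter (fun n => t * V m ≤ V (m - n))).card : ℝ) +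
        (A'.filter (fun n => ¬ t * V m ≤ V (m - n))).card = A'.card := by exact_mod_cast h4
    have h5 : ((A'.filter (fun n => ¬ t * V m ≤ V (m - n))).card : ℝ) ≤
        t * ∑ n ∈ A', V m / V (m - n) := by
      rw [Finset.card_eq_sum_ones, Nat.cast_sum, Finset.mul_sum]
      calc ∑ n ∈ A'.filter (fun n => ¬ t * V m ≤ V (m - n)), ((1 : ℕ) : ℝ)
          ≤ ∑ n ∈ A'.filter (fun n => ¬ t * V m ≤ V (m - n)), t * (V m / V (m - n)) := by
            apply Finset.sum_le_sum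
            intro n hn
            rw [Finset.mem_filter, not_le] at hn
            have := hVpos (m - n)
            rw [Nat.cast_one, mul_div_assoc', le_div_iff₀ this]
            linarith [hn.2]
        _ ≤ _ := Finset.sum_le_sum_of_subset_of_nonneg (Finset.filter_subset _ _)
            (fun n _ _ => by have := hVpos m; have := hVpos (m - n); positivity)
    refine ⟨by linarith, ?_⟩
    rcases ht0.lt_or_eq with h | h
    · exact h
    · exfalso
      have h6 : t * ∑ n ∈ A', V m / V (m - n) = 0 := by rw [← h, zero_mul]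
      rw [h6] at h5
      linarith
  have hne : q ^ (i + 1) ∈ blk := by
    rw [hblk, Finset.mem_Ico]
    exact ⟨le_rfl, Nat.pow_lt_pow_right (by omega) (Nat.lt_succ_self _)⟩
  have htpos : 0 < t := (hlow _ hne).2
  have hspos : 0 < s := by
    by_contra h
    have : s = 0 := le_antisymm (not_lt.1 h) hs0
    rw [ht, this, zero_div] at htpos
    exact lt_irrefl _ htpos
  -- upper bound
  have hup : ∑ m ∈ blk, ‖z m‖ ^ p.toReal * ∑ n ∈ A', V m / V (m - n) ≤
      A'.card * C ^ p.toReal := by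
    simp_rw [Finset.mul_sum]
    rw [Finset.sum_comm]
    have h1 : ∀ n ∈ A', ∑ m ∈ blk, ‖z m‖ ^ p.toReal * (V m / V (m - n)) ≤ C ^ p.toReal := by
      intro n hn
      simp only [hA', Finset.mem_filter, Finset.mem_Ico] at hn
      apply energy_block hp hw0 hw z n hn.2
      intro m hm
      rw [hblk, Finset.mem_Ico] at hm
      omega
    refine (Finset.sum_le_sum h1).trans ?_
    rw [Finset.sum_const, nsmul_eq_mul]
  have h1 : s * ((A'.card : ℝ) / 2) ≤ t * (A'.card * C ^ p.toReal) := by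
    calc s * ((A'.card : ℝ) / 2) = ∑ m ∈ blk, ‖z m‖ ^ p.toReal * ((A'.card : ℝ) / 2) := by
          rw [hs, Finset.sum_mul]
      _ ≤ ∑ m ∈ blk, ‖z m‖ ^ p.toReal * (t * ∑ n ∈ A', V m / V (m - n)) := by
          apply Finset.sum_le_sum
          intro m hm
          exact mul_le_mul_of_nonneg_left (hlow m hm).1 (by positivity)
      _ = t * ∑ m ∈ blk, ‖z m‖ ^ p.toReal * ∑ n ∈ A', V m / V (m - n) := by
          rw [Finset.mul_sum]
          apply Finset.sum_congr rfl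
          intro m _
          ring
      _ ≤ _ := mul_le_mul_of_nonneg_left hup ht0
  have h2 : t * (A'.card * C ^ p.toReal) = s * A'.card / 4 := by
    rw [ht]; field_simp
  rw [h2] at h1
  have h3 : 0 < s * A'.card := by positivity
  linarith

lemma exists_deep_vector [Fact (1 ≤ p)] (M : Submodule 𝕜 (lp (fun _ : ℕ => 𝕜) p))
    (hM : ¬ FiniteDimensional 𝕜 M) (K : ℕ) :
    ∃ z ∈ M, ‖z‖ = 1 ∧ ∀ k < K, z k = 0 := by
  let R : M →ₗ[𝕜] (Fin K → 𝕜) :=
    { toFun := fun z k => (z : lp (fun _ : ℕ => 𝕜) p) k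
      map_add' := fun x y => rfl
      map_smul' := fun c x => rfl }
  have hnotinj : ¬ Function.Injective R := fun h => hM (FiniteDimensional.of_injective R h)
  rw [← LinearMap.ker_eq_bot, Submodule.eq_bot_iff] at hnotinj
  push Not at hnotinj
  obtain ⟨z, hz, hz0⟩ := hnotinj
  have hzne : (z : lp (fun _ : ℕ => 𝕜) p) ≠ 0 := fun h => hz0 (Subtype.ext h)
  have hnorm : ‖(z : lp (fun _ : ℕ => 𝕜) p)‖ ≠ 0 := norm_ne_zero_iff.2 hzne
  refine ⟨((‖(z : lp (fun _ : ℕ => 𝕜) p)‖⁻¹ : ℝ) : 𝕜) • (z : lp (fun _ : ℕ => 𝕜) p),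
    M.smul_mem _ z.2, ?_, ?_⟩
  · rw [norm_smul, RCLike.norm_ofReal, abs_of_nonneg (by positivity), inv_mul_cancel₀ hnorm]
  · intro k hk
    have h1 : R z ⟨k, hk⟩ = 0 := by
      rw [LinearMap.mem_ker.1 hz]; rfl
    have h2 : (z : lp (fun _ : ℕ => 𝕜) p) k = 0 := h1
    rw [lp.coeFn_smul, Pi.smul_apply, h2, smul_zero]

theorem seqCond_of_fhs [Fact (1 ≤ p)] (hp : p ≠ ∞) {w : ℕ → 𝕜} (hw0 : ∀ n, w n ≠ 0)
    (hw : ∃ C : ℝ, ∀ n, ‖w n‖ ≤ C) (hfh : HasFHSop (shiftOp hp w hw)) :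
    SeqCond (fun n => ‖wprod w n‖) := by
  classical
  have hP := toReal_pos' hp
  have hP1 := one_le_toReal' hp
  have hWpos : ∀ n, 0 < ‖wprod w n‖ := fun n => norm_pos_iff.2 (wprod_ne_zero hw0 n)
  obtain ⟨M, hMc, hMinf, hMfhc⟩ := hfh
  have hPD : ∀ x ∈ M, x ≠ 0 → PD {n | ‖((shiftOp hp w hw) ^ n) x‖ ≤ 1} := by
    intro x hx hx0
    have h1 := (lowerDensity_pos_iff _).1 (hMfhc x hx hx0 (Metric.ball 0 1) Metric.isOpen_ball
      ⟨0, Metric.mem_ball_self one_pos⟩)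
    refine h1.mono fun n hn => ?_
    have h2 : ((shiftOp hp w hw) ^ n) x ∈ Metric.ball 0 1 := hn
    rw [mem_ball_zero_iff] at h2
    exact h2.le
  obtain ⟨C, δ, N, hC, hδ, hδ1, hmain⟩ := uniform_density (shiftOp hp w hw) M hMc hPD
  obtain ⟨q, hq⟩ := exists_nat_ge (2 / δ)
  have hq2 : 2 ≤ q := by
    have : (2 : ℝ) ≤ q := by
      refine le_trans ?_ hq
      rw [le_div_iff₀ hδ]; linarith
    exact_mod_cast this
  have hq0 : (0 : ℝ) < q := by exact_mod_cast (by omega : 0 < q)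
  have hCP : 1 ≤ C ^ p.toReal := Real.one_le_rpow hC hP.le
  set V : ℕ → ℝ := fun n => ‖wprod w n‖ ^ p.toReal with hV
  have hVpos : ∀ n, 0 < V n := fun n => by have := hWpos n; simp only [hV]; positivity
  set Adm : ℕ → Set ℝ := fun i => {t : ℝ | 0 ≤ t ∧ t ≤ 1 ∧ ∃ m, q ^ i ≤ m ∧ m < q ^ (i + 1) ∧
    δ / (4 * q) * m ≤ cnt {k | t * V m ≤ V k} m} with hAdm
  have hbdd : ∀ i, BddAbove (Adm i) := fun i => ⟨1, fun t ht => ht.2.1⟩
  set Θ : ℕ → ℝ := fun i => sSup (Adm i) with hΘ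
  have hδq : δ / (4 * q) ≤ 1 := by
    rw [div_le_one (by positivity)]
    have : (2 : ℝ) ≤ q := by exact_mod_cast hq2
    linarith
  -- positive admissible level
  have hpos : ∀ i, ∃ t ∈ Adm i, 0 < t := by
    intro i
    have hne : (Finset.range (q ^ i)).Nonempty := by
      rw [Finset.nonempty_range_iff]
      have := Nat.one_le_pow i q (by omega)
      omega
    obtain ⟨k₀, hk₀, hmin⟩ := Finset.exists_min_image (Finset.range (q ^ i)) V hne
    have ht1 : 0 < min 1 (V k₀ / V (q ^ i)) := by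
      have := hVpos k₀
      have := hVpos (q ^ i)
      exact lt_min one_pos (by positivity)
    refine ⟨min 1 (V k₀ / V (q ^ i)), ⟨ht1.le, min_le_left _ _, q ^ i, le_rfl,
      Nat.pow_lt_pow_right (by omega) (Nat.lt_succ_self i), ?_⟩, ht1⟩
    have h1 : cnt {k | min 1 (V k₀ / V (q ^ i)) * V (q ^ i) ≤ V k} (q ^ i) = q ^ i := by
      rw [cnt_eq_card]
      conv_rhs => rw [← Finset.card_range (q ^ i)]
      apply congrArg
      rw [Finset.filter_eq_self]
      intro k hk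
      have h2 := hmin k hk
      have h3 := hVpos (q ^ i)
      show min 1 (V k₀ / V (q ^ i)) * V (q ^ i) ≤ V k
      calc min 1 (V k₀ / V (q ^ i)) * V (q ^ i) ≤ V k₀ / V (q ^ i) * V (q ^ i) := by
            gcongr; exact min_le_right _ _
        _ = V k₀ := div_mul_cancel₀ _ h3.ne'
        _ ≤ V k := h2
    rw [h1]
    have : (0 : ℝ) ≤ (q ^ i : ℕ) := Nat.cast_nonneg _
    nlinarith
  have hΘ0 : ∀ i, 0 < Θ i := by
    intro i
    obtain ⟨t, ht, ht0⟩ := hpos i
    exact lt_of_lt_of_le ht0 (le_csSup (hbdd i) ht)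
  -- divergence
  have hdiv : ¬ Summable Θ := by
    intro hsum
    have h1 := tendsto_sum_nat_add Θ
    have h2 : (0 : ℝ) < 1 / (8 * C ^ p.toReal) := by positivity
    obtain ⟨i₁, hi₁⟩ := eventually_atTop.1 (h1.eventually (gt_mem_nhds h2))
    set i₀ := max i₁ N with hi₀
    have htail : ∑' l, Θ (l + (i₀ + 1)) < 1 / (8 * C ^ p.toReal) :=
      hi₁ (i₀ + 1) ((le_max_left _ _).trans (Nat.le_succ _))
    obtain ⟨z, hzM, hz1, hz0⟩ := exists_deep_vector M hMinf (q ^ (i₀ + 1))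
    set s : ℕ → ℝ := fun l =>
      ∑ m ∈ Finset.Ico (q ^ (i₀ + l + 1)) (q ^ (i₀ + l + 2)), ‖z m‖ ^ p.toReal with hs
    have hsΘ : ∀ l, s l ≤ 4 * C ^ p.toReal * Θ (l + (i₀ + 1)) := by
      intro l
      have hNq : N ≤ q ^ (i₀ + l + 1) := by
        have h3 : i₀ + l + 1 ≤ q ^ (i₀ + l + 1) :=
          (Nat.lt_two_pow_self).le.trans (Nat.pow_le_pow_left hq2 _)
        have h4 : N ≤ i₀ := le_max_right _ _
        omega
      have h3 := hmain z hzM hz1.le _ hNq
      obtain ⟨m, hm1, hm2, hm3⟩ := block_step hp hw0 hw hC hδ q hq2 hq (i₀ + l) z h3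
      have hs0 : 0 ≤ s l := Finset.sum_nonneg fun m _ => by positivity
      have hs1 : s l ≤ 1 := by
        have h4 := lp.sum_rpow_le_norm_rpow hP z
          (Finset.Ico (q ^ (i₀ + l + 1)) (q ^ (i₀ + l + 2)))
        rw [hz1, Real.one_rpow] at h4
        exact h4
      have hmem : s l / (4 * C ^ p.toReal) ∈ Adm (l + (i₀ + 1)) := by
        refine ⟨by positivity, ?_, m, ?_, ?_, hm3⟩
        · rw [div_le_one (by positivity)]
          linarith
        · rw [show l + (i₀ + 1) = i₀ + l + 1 by ring]; exact hm1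
        · rw [show l + (i₀ + 1) + 1 = i₀ + l + 2 by ring]; exact hm2
      have h5 := le_csSup (hbdd _) hmem
      rw [div_le_iff₀ (by positivity)] at h5
      linarith
    have hpart : ∀ L, ∑ m ∈ Finset.range (q ^ (i₀ + L + 1)), ‖z m‖ ^ p.toReal =
        ∑ l ∈ Finset.range L, s l := by
      intro L
      induction L with
      | zero =>
        rw [Finset.sum_range_zero]
        apply Finset.sum_eq_zero
        intro m hm
        rw [Finset.mem_range] at hm
        rw [hz0 m hm, norm_zero, Real.zero_rpow hP.ne']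
      | succ L ih =>
        rw [Finset.sum_range_succ, ← ih, show i₀ + (L + 1) + 1 = i₀ + L + 2 by ring]
        rw [Finset.sum_range_add_sum_Ico]
        exact Nat.pow_le_pow_right (by omega) (by omega)
    have hfin : ∀ F : Finset ℕ, ∑ m ∈ F, ‖z m‖ ^ p.toReal ≤ 1 / 2 := by
      intro F
      obtain ⟨L, hL⟩ : ∃ L, F ⊆ Finset.range (q ^ (i₀ + L + 1)) := by
        obtain ⟨L, hL⟩ := F.exists_nat_subset_range
        refine ⟨L, hL.trans (Finset.range_mono ?_)⟩
        have h3 : i₀ + L + 1 ≤ q ^ (i₀ + L + 1) :=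
          (Nat.lt_two_pow_self).le.trans (Nat.pow_le_pow_left hq2 _)
        omega
      have h3 := Finset.sum_le_sum_of_subset_of_nonneg hL
        (f := fun m => ‖z m‖ ^ p.toReal) (fun m _ _ => by positivity)
      refine h3.trans ?_
      rw [hpart]
      refine (Finset.sum_le_sum fun l _ => hsΘ l).trans ?_
      rw [← Finset.mul_sum]
      have h4 : ∑ l ∈ Finset.range L, Θ (l + (i₀ + 1)) ≤ ∑' l, Θ (l + (i₀ + 1)) :=
        ((summable_nat_add_iff (i₀ + 1)).2 hsum).sum_le_tsum _ (fun l _ => (hΘ0 _).le)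
      calc 4 * C ^ p.toReal * ∑ l ∈ Finset.range L, Θ (l + (i₀ + 1))
          ≤ 4 * C ^ p.toReal * (1 / (8 * C ^ p.toReal)) := by
            apply mul_le_mul_of_nonneg_left _ (by positivity)
            linarith
        _ = 1 / 2 := by field_simp; norm_num
    have h3 : ‖z‖ ^ p.toReal ≤ 1 / 2 := by
      rw [lp.norm_rpow_eq_tsum hP]
      exact (lp.hasSum_norm hP z).summable.tsum_le_of_sum_le hfin
    rw [hz1, Real.one_rpow] at h3
    linarith
  -- choose levels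
  have hch : ∀ i, ∃ t ∈ Adm i, Θ i / 2 < t := fun i => by
    obtain ⟨t₀, ht₀, _⟩ := hpos i
    exact exists_lt_of_lt_csSup ⟨t₀, ht₀⟩ (by have := hΘ0 i; linarith)
  choose t htA htΘ using hch
  have htpos : ∀ i, 0 < t i := fun i => by have := hΘ0 i; linarith [htΘ i]
  have htns : ¬ Summable t := by
    intro h
    apply hdiv
    apply Summable.of_nonneg_of_le (fun i => (hΘ0 i).le) (fun i => ?_) (h.mul_left 2)
    linarith [htΘ i]
  obtain ⟨e, he, hens⟩ := thin t htns 1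
  have hmex : ∀ i, ∃ m, q ^ i ≤ m ∧ m < q ^ (i + 1) ∧
    δ / (4 * q) * m ≤ cnt {k | t i * V m ≤ V k} m := fun i => (htA i).2.2
  choose m hm1 hm2 hm3 using hmex
  refine ⟨δ / (4 * q), by positivity, fun i => m (e i), fun i => t (e i) ^ (1 / p.toReal),
    ?_, ?_, ?_, ?_, ?_, ?_⟩
  · intro k
    exact lt_of_lt_of_le (Nat.one_le_pow _ _ (by omega)) (hm1 _)
  · intro k
    have h1 := he k
    have h2 := hm2 (e k)
    have h3 := hm1 (e (k + 1))
    have h4 : q ^ (e k + 2) ≤ q ^ (e (k + 1)) := Nat.pow_le_pow_right (by omega) (by omega)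
    calc 2 * m (e k) ≤ q * q ^ (e k + 1) := Nat.mul_le_mul hq2 h2.le
      _ = q ^ (e k + 2) := by ring
      _ ≤ q ^ (e (k + 1)) := h4
      _ ≤ _ := h3
  · intro k
    exact Real.rpow_pos_of_pos (htpos _) _
  · intro k
    exact Real.rpow_le_one (htpos _).le (htA _).2.1 (by positivity)
  · intro h
    apply hens
    apply Summable.of_nonneg_of_le (fun i => (htpos _).le) (fun i => ?_) h
    have h1 : (1 : ℝ) / p.toReal ≤ 1 := by
      rw [div_le_one hP]; exact hP1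
    calc t (e i) = t (e i) ^ (1 : ℝ) := (Real.rpow_one _).symm
      _ ≤ t (e i) ^ (1 / p.toReal) :=
        Real.rpow_le_rpow_of_exponent_ge (htpos _) (htA _).2.1 h1
  · intro k
    have h1 := hm3 (e k)
    have h2 : {j | t (e k) * V (m (e k)) ≤ V j} =
        {j | t (e k) ^ (1 / p.toReal) * ‖wprod w (m (e k))‖ ≤ ‖wprod w j‖} := by
      ext j
      show t (e k) * V (m (e k)) ≤ V j ↔
        t (e k) ^ (1 / p.toReal) * ‖wprod w (m (e k))‖ ≤ ‖wprod w j‖
      have h3 : t (e k) * V (m (e k)) =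
          (t (e k) ^ (1 / p.toReal) * ‖wprod w (m (e k))‖) ^ p.toReal := by
        rw [Real.mul_rpow (by have := htpos (e k); positivity) (norm_nonneg _),
          ← Real.rpow_mul (htpos _).le, one_div, inv_mul_cancel₀ hP.ne', Real.rpow_one]
      rw [h3]
      exact Real.rpow_le_rpow_iff (by have := htpos (e k); positivity) (norm_nonneg _) hP
    rw [h2] at h1
    exact h1

end Pool.Agent.Work.MP_0403fc_an_explicit
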