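import Mathlib
import Pool.Agent.Work.MP_0403fc_an_explicit.Nec3

set_option autoImplicit false

open Filter Topology
open scoped ENNReal

namespace Pool.Agent.Work.MP_0403fc_an_explicit

variable {𝕜 : Type*} [RCLike 𝕜] {p : ℝ≥0∞}

lemma ncard_eq_cnt (Q : ℕ → Prop) (m : ℕ) :
    Set.ncard {j : ℕ | j < m ∧ Q j} = cnt {j | Q j} m := by
  classical
  rw [cnt_eq_card, ← Set.ncard_coe_finset]
  congr 1
  ext j
  simp

lemma seqCond_of_level {W : ℕ → 𝕜} (hW : ∀ n, W n ≠ 0) {δ : ℝ} (hδ : 0 < δ)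
    (hns : ¬ Summable (level W δ)) : SeqCond (fun n => ‖W n‖) := by
  classical
  have hVpos : ∀ n, 0 < ‖W n‖ := fun n => norm_pos_iff.2 (hW n)
  set Adm : ℕ → Set ℝ := fun k => {t : ℝ | 0 ≤ t ∧ t ≤ 1 ∧ ∃ m : ℕ, 2 ^ k ≤ m ∧
    m < 2 ^ (k + 1) ∧ δ * m ≤ Set.ncard {j : ℕ | j < m ∧ t * ‖W m‖ ≤ ‖W j‖}} with hAdm
  have hlev : ∀ k, level W δ k = sSup (Adm k) := fun k => rfl
  have hbdd : ∀ i, BddAbove (Adm i) := fun i => ⟨1, fun t ht => ht.2.1⟩
  have hδ1 : δ ≤ 1 := by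
    by_contra hcon
    push Not at hcon
    apply hns
    have : level W δ = fun _ => 0 := by
      funext k
      rw [hlev]
      have hempty : Adm k = ∅ := by
        rw [Set.eq_empty_iff_forall_notMem]
        rintro t ⟨_, _, m, hm1, _, hm3⟩
        rw [ncard_eq_cnt] at hm3
        have h1 : (cnt {j | t * ‖W m‖ ≤ ‖W j‖} m : ℝ) ≤ m := by exact_mod_cast cnt_le _ _
        have h2 : (0 : ℝ) < m := by
          exact_mod_cast lt_of_lt_of_le (Nat.one_le_two_pow) hm1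
        nlinarith
      rw [hempty, Real.sSup_empty]
    rw [this]
    exact summable_zero
  have hpos : ∀ i, ∃ t ∈ Adm i, 0 < t := by
    intro i
    have hne : (Finset.range (2 ^ i)).Nonempty := by
      rw [Finset.nonempty_range_iff]
      have : 1 ≤ 2 ^ i := Nat.one_le_two_pow
      omega
    obtain ⟨k₀, hk₀, hmin⟩ := Finset.exists_min_image (Finset.range (2 ^ i))
      (fun k => ‖W k‖) hne
    have ht1 : 0 < min 1 (‖W k₀‖ / ‖W (2 ^ i)‖) := by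
      have := hVpos k₀
      have := hVpos (2 ^ i)
      exact lt_min one_pos (by positivity)
    refine ⟨min 1 (‖W k₀‖ / ‖W (2 ^ i)‖), ⟨ht1.le, min_le_left _ _, 2 ^ i, le_rfl,
      Nat.pow_lt_pow_right (by omega) (Nat.lt_succ_self i), ?_⟩, ht1⟩
    rw [ncard_eq_cnt]
    have h1 : cnt {k | min 1 (‖W k₀‖ / ‖W (2 ^ i)‖) * ‖W (2 ^ i)‖ ≤ ‖W k‖} (2 ^ i) =
        2 ^ i := by
      rw [cnt_eq_card]
      conv_rhs => rw [← Finset.card_range (2 ^ i)]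
      apply congrArg
      rw [Finset.filter_eq_self]
      intro k hk
      have h2 := hmin k hk
      have h3 := hVpos (2 ^ i)
      show min 1 (‖W k₀‖ / ‖W (2 ^ i)‖) * ‖W (2 ^ i)‖ ≤ ‖W k‖
      calc min 1 (‖W k₀‖ / ‖W (2 ^ i)‖) * ‖W (2 ^ i)‖ ≤
            ‖W k₀‖ / ‖W (2 ^ i)‖ * ‖W (2 ^ i)‖ := by
            gcongr; exact min_le_right _ _
        _ = ‖W k₀‖ := div_mul_cancel₀ _ h3.ne'
        _ ≤ ‖W k‖ := h2
    rw [h1]
    have : (0 : ℝ) ≤ (2 ^ i : ℕ) := Nat.cast_nonneg _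
    nlinarith
  have hΘ0 : ∀ i, 0 < level W δ i := by
    intro i
    obtain ⟨t, ht, ht0⟩ := hpos i
    rw [hlev]
    exact lt_of_lt_of_le ht0 (le_csSup (hbdd i) ht)
  have hch : ∀ i, ∃ t ∈ Adm i, level W δ i / 2 < t := fun i => by
    obtain ⟨t₀, ht₀, _⟩ := hpos i
    exact exists_lt_of_lt_csSup ⟨t₀, ht₀⟩ (by have := hΘ0 i; rw [hlev] at this ⊢; linarith)
  choose t htA htΘ using hch
  have htpos : ∀ i, 0 < t i := fun i => by have := hΘ0 i; linarith [htΘ i]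
  have htns : ¬ Summable t := by
    intro h
    apply hns
    apply Summable.of_nonneg_of_le (fun i => (hΘ0 i).le) (fun i => ?_) (h.mul_left 2)
    linarith [htΘ i]
  obtain ⟨e, he, hens⟩ := thin t htns 1
  have hmex : ∀ i, ∃ m : ℕ, 2 ^ i ≤ m ∧ m < 2 ^ (i + 1) ∧
    δ * m ≤ Set.ncard {j : ℕ | j < m ∧ t i * ‖W m‖ ≤ ‖W j‖} := fun i => (htA i).2.2
  choose m hm1 hm2 hm3 using hmex
  refine ⟨δ, hδ, fun i => m (e i), fun i => t (e i), ?_, ?_, fun k => htpos _,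
    fun k => (htA _).2.1, hens, ?_⟩
  · intro k
    exact lt_of_lt_of_le Nat.one_le_two_pow (hm1 _)
  · intro k
    have h1 := he k
    have h2 := hm2 (e k)
    have h3 := hm1 (e (k + 1))
    have h4 : 2 ^ (e k + 2) ≤ 2 ^ (e (k + 1)) := Nat.pow_le_pow_right (by omega) (by omega)
    calc 2 * m (e k) ≤ 2 * 2 ^ (e k + 1) := Nat.mul_le_mul_left _ h2.le
      _ = 2 ^ (e k + 2) := by ring
      _ ≤ 2 ^ (e (k + 1)) := h4
      _ ≤ _ := h3
  · intro k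
    have h1 := hm3 (e k)
    rw [ncard_eq_cnt] at h1
    exact h1

lemma level_of_seqCond {W : ℕ → 𝕜} (h : SeqCond (fun n => ‖W n‖)) :
    ∃ δ : ℝ, 0 < δ ∧ ¬ Summable (level W δ) := by
  obtain ⟨δ, hδ, m, θ, hm0, hm2, hθ0, hθ1, hns, hcount⟩ := h
  refine ⟨δ, hδ, fun hs => hns ?_⟩
  set i : ℕ → ℕ := fun k => Nat.log 2 (m k) with hi
  have hi1 : ∀ k, 2 ^ i k ≤ m k := fun k => Nat.pow_log_le_self 2 (hm0 k).ne'
  have hi2 : ∀ k, m k < 2 ^ (i k + 1) := fun k => Nat.lt_pow_succ_log_self (by norm_num) _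
  have himono : StrictMono i := strictMono_nat_of_lt_succ fun k => by
    have h1 : 2 ^ (i k + 1) < 2 ^ (i (k + 1) + 1) := by
      calc 2 ^ (i k + 1) = 2 * 2 ^ i k := by ring
        _ ≤ 2 * m k := Nat.mul_le_mul_left _ (hi1 k)
        _ ≤ m (k + 1) := hm2 k
        _ < _ := hi2 (k + 1)
    have h2 := (Nat.pow_lt_pow_iff_right (by norm_num : 1 < 2)).1 h1
    omega
  have hle : ∀ k, θ k ≤ level W δ (i k) := by
    intro k
    apply le_csSup ⟨1, fun t ht => ht.2.1⟩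
    refine ⟨(hθ0 k).le, hθ1 k, m k, hi1 k, hi2 k, ?_⟩
    rw [ncard_eq_cnt]
    exact hcount k
  exact Summable.of_nonneg_of_le (fun k => (hθ0 k).le) hle (hs.comp_injective himono.injective)

theorem fhs_of_seqCond [Fact (1 ≤ p)] (hp : p ≠ ∞) {w : ℕ → 𝕜} (hw0 : ∀ n, w n ≠ 0)
    (hw : ∃ C : ℝ, ∀ n, ‖w n‖ ≤ C)
    (hsum : Summable fun n => (‖wprod w n‖ ^ p.toReal)⁻¹)
    (h : SeqCond (fun n => ‖wprod w n‖)) : HasFHSop (shiftOp hp w hw) := by
  apply fhs_of_blocks hp hw0 hw hsum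
  have hWpos : ∀ n, 0 < ‖wprod w n‖ := fun n => norm_pos_iff.2 (wprod_ne_zero hw0 n)
  obtain ⟨δ, hδ, m, θ, hm0, hm2, hθ0, hθ1, hns, hcount⟩ := h
  obtain ⟨C, hC⟩ := hw
  have hC0 : 0 ≤ C := (norm_nonneg _).trans (hC 0)
  have h1 := blocks_of_cond (φ := fun n => Real.log ‖wprod w n‖) (P := p.toReal)
    (b := Real.log (C + 2)) (one_le_toReal' hp) (Real.log_pos (by linarith)) ?_ hδ m θ hm0 hm2
    hθ0 hθ1 hns ?_
  · have h2 : (fun n => Real.exp (Real.log ‖wprod w n‖)) = fun n => ‖wprod w n‖ := by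
      funext n
      exact Real.exp_log (hWpos n)
    rw [h2] at h1
    exact h1
  · intro k
    show Real.log ‖wprod w (k + 1)‖ ≤ Real.log ‖wprod w k‖ + Real.log (C + 2)
    rw [← Real.log_mul (hWpos k).ne' (by linarith)]
    apply Real.log_le_log (hWpos _)
    rw [wprod_succ, norm_mul]
    exact mul_le_mul_of_nonneg_left ((hC _).trans (by linarith)) (norm_nonneg _)
  · intro k
    have h2 : {j | Real.log (θ k) + Real.log ‖wprod w (m k)‖ ≤ Real.log ‖wprod w j‖} =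
        {j | θ k * ‖wprod w (m k)‖ ≤ ‖wprod w j‖} := by
      ext j
      show Real.log (θ k) + Real.log ‖wprod w (m k)‖ ≤ Real.log ‖wprod w j‖ ↔
        θ k * ‖wprod w (m k)‖ ≤ ‖wprod w j‖
      rw [← Real.log_mul (hθ0 k).ne' (hWpos _).ne']
      exact Real.log_le_log_iff (mul_pos (hθ0 k) (hWpos _)) (hWpos j)
    rw [h2]
    exact hcount k

lemma exists_fhc_of_fhs {X : Type*} [NormedAddCommGroup X] [NormedSpace 𝕜 X] {T : X →L[𝕜] X}
    (h : HasFHSop T) : ∃ x, x ∈ FHCop T := by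
  obtain ⟨M, _, hMinf, hM⟩ := h
  have hne : M ≠ ⊥ := by
    rintro rfl
    exact hMinf inferInstance
  obtain ⟨x, hxM, hx0⟩ := (Submodule.ne_bot_iff M).1 hne
  exact ⟨x, hM x hxM hx0⟩

theorem main [Fact (1 ≤ p)] (hp : p ≠ ∞) (w : ℕ → 𝕜) (hw0 : ∀ n, w n ≠ 0)
    (hw : ∃ C : ℝ, ∀ n, ‖w n‖ ≤ C) :
    HasFHSubspace 𝕜 (weightedShift hp w hw) ↔
      (Summable fun n => (‖wprod w n‖ ^ p.toReal)⁻¹) ∧
        ∃ δ : ℝ, 0 < δ ∧ ¬ Summable (level (wprod w) δ) := by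
  rw [hasFHSubspace_iff]
  constructor
  · intro h
    obtain ⟨x, hx⟩ := exists_fhc_of_fhs h
    exact ⟨summable_of_fhc hp hw0 hw x hx, level_of_seqCond (seqCond_of_fhs hp hw0 hw h)⟩
  · rintro ⟨h1, δ, hδ, h2⟩
    exact fhs_of_seqCond hp hw0 hw h1 (seqCond_of_level (wprod_ne_zero hw0) hδ h2)

end Pool.Agent.Work.MP_0403fc_an_explicit
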